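import Pool.Graph.R_pool_sql_team_seeded_c8625f6e.K4H90.Seg.Defs

/-!
# Drawing a planar graph with its vertices on given segments, with obstacles, the embedding free

Definitions of the decision problem: a graph, a line segment with rational end points for every
vertex, and a list of obstacles.  No embedding is prescribed.
-/

namespace Pool.Agent.H678.SegObs

open Pool.Agent.NPC
open Pool.Agent.K4H90.SegDraw (Seg toR)

/-- An instance of the problem. -/
structure Inst where
  /-- for every vertex: its name and its segment -/
  verts : List (ℕ × Seg)
  /-- the edges, as pairs of names of vertices -/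
  edges : List (ℕ × ℕ)
  /-- the obstacles -/
  obstacles : List Seg

instance : TEnc Inst := ⟨fun s => toT (s.verts, s.edges, s.obstacles), fun s t h => by
  have h1 := TEnc.inj h
  cases s; cases t
  simp only [Prod.mk.injEq] at h1
  simp [h1]⟩

/-- The names of the vertices. -/
def Inst.names (I : Inst) : List ℕ := I.verts.map (fun e => e.1)

/-- The graph of the instance is a simple graph: different vertices have different names, and every
edge joins two different vertices.  (The list of edges stands for a set of unordered pairs.) -/
structure Inst.Simple (I : Inst) : Prop where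
  nodup : I.names.Nodup
  ends : ∀ e ∈ I.edges, e.1 ∈ I.names ∧ e.2 ∈ I.names ∧ e.1 ≠ e.2

/-- `D` is a crossing-free straight-line drawing of the graph: the vertices are at different points,
every edge is the closed segment between its end vertices and contains no other vertex, and two
different edges have no point in common except the position of a common end vertex. -/
structure Inst.IsDrawing (I : Inst) (D : ℕ → ℝ × ℝ) : Prop where
  inj : ∀ u ∈ I.names, ∀ v ∈ I.names, D u = D v → u = v
  off : ∀ e ∈ I.edges, ∀ w ∈ I.names, D w ∈ segment ℝ (D e.1) (D e.2) → w = e.1 ∨ w = e.2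
  plane : ∀ e ∈ I.edges, ∀ f ∈ I.edges, s(e.1, e.2) ≠ s(f.1, f.2) →
    ∀ p ∈ segment ℝ (D e.1) (D e.2), p ∈ segment ℝ (D f.1) (D f.2) →
      ∃ w, w ∈ s(e.1, e.2) ∧ w ∈ s(f.1, f.2) ∧ p = D w

/-- The graph of the instance is planar: it has a crossing-free straight-line drawing. -/
def Inst.Planar (I : Inst) : Prop := ∃ D, I.IsDrawing D

/-- The closed segment from `P` to `Q` has a common point with the obstacle `s`. -/
def Meets (P Q : ℝ × ℝ) (s : Seg) : Prop := ∃ p ∈ segment ℝ P Q, p ∈ s.pts

/-- The segment from `P` to `Q` and the obstacle `s` cross properly: they have a common point that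
is not an end point of either of them, and they are not parallel. -/
def ProperlyCrosses (P Q : ℝ × ℝ) (s : Seg) : Prop :=
  (∃ p ∈ openSegment ℝ P Q, p ∈ openSegment ℝ (toR s.p) (toR s.q)) ∧
    (Q.1 - P.1) * ((toR s.q).2 - (toR s.p).2) ≠ (Q.2 - P.2) * ((toR s.q).1 - (toR s.p).1)

/-- The graph has a crossing-free straight-line drawing in which every vertex is on its segment and
no edge crosses an obstacle; `X P Q s` says that the edge drawn from `P` to `Q` crosses `s`. -/
def Inst.Solvable (X : ℝ × ℝ → ℝ × ℝ → Seg → Prop) (I : Inst) : Prop :=
  ∃ D, I.IsDrawing D ∧ (∀ e ∈ I.verts, D e.1 ∈ e.2.pts) ∧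
    ∀ e ∈ I.edges, ∀ s ∈ I.obstacles, ¬ X (D e.1) (D e.2) s

end Pool.Agent.H678.SegObs
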