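import Pool.Agent.H678.SegObs.Gad

/-!
# What a drawing of a gadget with obstacles forces
-/

namespace Pool.Agent.H678.SegObs

open Pool.Agent.K4H90.SegDraw

/-- The lower end of the range of offsets of a vertical segment of given kind. -/
def ka (k : ℕ) : ℕ := if k = 3 then 8 else if k = 6 then 9 else 0

/-- The upper end of the range of offsets of a vertical segment of given kind. -/
def kb (k : ℕ) : ℕ :=
  if k = 1 then 8 else if k = 4 then 1 else if k = 5 then 9 else if k = 7 then 13 else 16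

/-- The offsets of the inner vertices, end points of the segments allowed. -/
def OffClN (g : Gadget) (o : ℕ → ℝ) : Prop :=
  ∀ i w, g.1[i]? = some w → (w.2.2.1 ≠ 2 → (ka w.2.2.1 : ℝ) ≤ o i ∧ o i ≤ (kb w.2.2.1 : ℝ)) ∧
    (w.2.2.1 = 2 → (w.1 : ℝ) ≤ o i ∧ o i ≤ (w.1 : ℝ) + 3)

/-- The segment from `P` to `Q` does not go through the interior of the obstacle. -/
def NotThrough (P Q : ℝ × ℝ) (ob : ℕ × ℕ × ℕ) : Prop :=
  ∀ p ∈ segment ℝ P Q, P.1 < p.1 → p.1 < Q.1 → p.1 = (ob.1 : ℝ) →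
    p.2 ≤ (ob.2.1 : ℝ) - 1 ∨ (ob.2.2 : ℝ) ≤ p.2

/-- The facts about the positions in a gadget given by a drawing. -/
structure SndN (g : Gadget) (os : List (ℕ × ℕ × ℕ)) (lo ro o : ℕ → ℝ) : Prop where
  off : OffClN g o
  nc : ∀ e ∈ edgesOf g, ∀ f ∈ edgesOf g, e ≠ f →
    NC (cfg g lo ro o e.1) (cfg g lo ro o e.2) (cfg g lo ro o f.1) (cfg g lo ro o f.2)
  ob : ∀ e ∈ edgesOf g, ∀ b ∈ os, NotThrough (cfg g lo ro o e.1) (cfg g lo ro o e.2) b

/-- The point of a segment with given abscissa. -/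
theorem exists_pt {P Q : ℝ × ℝ} {x : ℝ} (h : P.1 < Q.1) (h1 : P.1 ≤ x) (h2 : x ≤ Q.1) :
    ∃ p ∈ segment ℝ P Q, p.1 = x ∧
      p.2 * (Q.1 - P.1) = P.2 * (Q.1 - P.1) + (Q.2 - P.2) * (x - P.1) := by
  have hd : 0 < Q.1 - P.1 := by linarith
  refine ⟨(x, P.2 + (Q.2 - P.2) * ((x - P.1) / (Q.1 - P.1))), ⟨1 - (x - P.1) / (Q.1 - P.1),
    (x - P.1) / (Q.1 - P.1), ?_, ?_, by ring, ?_⟩, rfl, ?_⟩
  · rw [sub_nonneg, div_le_one hd]; linarith
  · exact div_nonneg (by linarith) hd.le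
  · ext
    · simp only [Prod.fst_add, Prod.smul_fst, smul_eq_mul]
      field_simp
      ring
    · simp only [Prod.snd_add, Prod.smul_snd, smul_eq_mul]
      ring
  · simp only
    field_simp

theorem NotThrough.le {P Q : ℝ × ℝ} {x a b : ℕ} (h : NotThrough P Q (x, a, b))
    (h1 : P.1 < (x : ℝ)) (h2 : (x : ℝ) < Q.1)
    (h3 : P.2 * (Q.1 - P.1) + (Q.2 - P.2) * ((x : ℝ) - P.1) < (b : ℝ) * (Q.1 - P.1)) :
    P.2 * (Q.1 - P.1) + (Q.2 - P.2) * ((x : ℝ) - P.1) ≤ ((a : ℝ) - 1) * (Q.1 - P.1) := by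
  obtain ⟨p, hp, hx, hy⟩ := exists_pt (h1.trans h2) h1.le h2.le
  have hd : 0 < Q.1 - P.1 := by linarith
  rw [← hy] at h3 ⊢
  rcases h p hp (by rw [hx]; exact h1) (by rw [hx]; exact h2) hx with h4 | h4
  · exact mul_le_mul_of_nonneg_right h4 hd.le
  · have := mul_le_mul_of_nonneg_right h4 hd.le
    simp only at this
    linarith

theorem NotThrough.ge {P Q : ℝ × ℝ} {x a b : ℕ} (h : NotThrough P Q (x, a, b))
    (h1 : P.1 < (x : ℝ)) (h2 : (x : ℝ) < Q.1)
    (h3 : ((a : ℝ) - 1) * (Q.1 - P.1) < P.2 * (Q.1 - P.1) + (Q.2 - P.2) * ((x : ℝ) - P.1)) :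
    (b : ℝ) * (Q.1 - P.1) ≤ P.2 * (Q.1 - P.1) + (Q.2 - P.2) * ((x : ℝ) - P.1) := by
  obtain ⟨p, hp, hx, hy⟩ := exists_pt (h1.trans h2) h1.le h2.le
  have hd : 0 < Q.1 - P.1 := by linarith
  rw [← hy] at h3 ⊢
  rcases h p hp (by rw [hx]; exact h1) (by rw [hx]; exact h2) hx with h4 | h4
  · have := mul_le_mul_of_nonneg_right h4 hd.le
    simp only at this
    linarith
  · exact mul_le_mul_of_nonneg_right h4 hd.le

/-- A zero of the height difference of two segments is a common point. -/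
theorem common_pt {P Q P' Q' : ℝ × ℝ} {x : ℝ} (h : P.1 < Q.1) (h' : P'.1 < Q'.1) (h1 : P.1 ≤ x)
    (h2 : x ≤ Q.1) (h1' : P'.1 ≤ x) (h2' : x ≤ Q'.1) (h0 : hdiff P Q P' Q' x = 0) :
    ∃ p ∈ segment ℝ P Q, p ∈ segment ℝ P' Q' ∧ p.1 = x := by
  obtain ⟨p, hp, hx, hy⟩ := exists_pt h h1 h2
  obtain ⟨p', hp', hx', hy'⟩ := exists_pt h' h1' h2'
  have e : p = p' := by
    have hd : 0 < Q.1 - P.1 := by linarith
    have hd' : 0 < Q'.1 - P'.1 := by linarith
    refine Prod.ext (hx.trans hx'.symm) ?_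
    unfold hdiff at h0
    rw [← hy, ← hy'] at h0
    have h3 : (p'.2 - p.2) * ((Q.1 - P.1) * (Q'.1 - P'.1)) = 0 := by linarith
    rcases mul_eq_zero.1 h3 with h4 | h4
    · linarith
    · exact absurd h4 (mul_pos hd hd').ne'
  subst e
  exact ⟨p, hp, hp', hx⟩

/-- If a segment is below another one at the abscissa `a`, it is below it at `b > a`. -/
theorem cmp_right {P Q P' Q' : ℝ × ℝ} (hn : NC P Q P' Q') (h : P.1 < Q.1) (h' : P'.1 < Q'.1)
    (a b : ℝ) (hab : a ≤ b) (h1 : P.1 ≤ a) (h1' : P'.1 ≤ a) (h2 : b ≤ Q.1) (h2' : b ≤ Q'.1)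
    (hQ : Q ≠ Q') (ha : 0 < hdiff P Q P' Q' a) : 0 < hdiff P Q P' Q' b := by
  by_contra hc
  rw [not_lt] at hc
  have haff : ∀ x, hdiff P Q P' Q' x = hdiff P Q P' Q' a +
      (x - a) * ((Q'.2 - P'.2) * (Q.1 - P.1) - (Q.2 - P.2) * (Q'.1 - P'.1)) := by
    intro x; unfold hdiff; ring
  set m := (Q'.2 - P'.2) * (Q.1 - P.1) - (Q.2 - P.2) * (Q'.1 - P'.1) with hm
  set d := hdiff P Q P' Q' a with hd
  have hbm : d + (b - a) * m ≤ 0 := by rw [← haff]; exact hc
  have hm0 : m < 0 := by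
    by_contra hm0
    rw [not_lt] at hm0
    have := mul_nonneg (sub_nonneg.2 hab) hm0
    linarith
  set x := a + d / (-m) with hx
  have hx1 : a < x := by rw [hx]; have := div_pos ha (neg_pos.2 hm0); linarith
  have hx2 : x ≤ b := by
    have : d / (-m) ≤ b - a := by rw [div_le_iff₀ (neg_pos.2 hm0)]; linarith
    linarith
  have h0 : hdiff P Q P' Q' x = 0 := by
    rw [haff, hx]
    have : m ≠ 0 := hm0.ne
    field_simp
    ring
  obtain ⟨p, hp, hp', hpx⟩ := common_pt h h' (by linarith) (by linarith) (by linarith)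
    (by linarith) h0
  obtain ⟨k1, k2⟩ := hn p hp hp'
  have e1 : p = Q := by
    rcases k1 with k1 | k1
    · rw [k1] at hpx; linarith
    · exact k1
  have e2 : p = Q' := by
    rcases k2 with k2 | k2
    · rw [k2] at hpx; linarith
    · exact k2
  exact hQ (e1.symm.trans e2)

/-- If a segment is below another one at the abscissa `b`, it is below it at `a < b`. -/
theorem cmp_left {P Q P' Q' : ℝ × ℝ} (hn : NC P Q P' Q') (h : P.1 < Q.1) (h' : P'.1 < Q'.1)
    (a b : ℝ) (hab : a ≤ b) (h1 : P.1 ≤ a) (h1' : P'.1 ≤ a) (h2 : b ≤ Q.1) (h2' : b ≤ Q'.1)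
    (hP : P ≠ P') (hb : 0 < hdiff P Q P' Q' b) : 0 < hdiff P Q P' Q' a := by
  by_contra hc
  rw [not_lt] at hc
  have haff : ∀ x, hdiff P Q P' Q' x = hdiff P Q P' Q' b +
      (x - b) * ((Q'.2 - P'.2) * (Q.1 - P.1) - (Q.2 - P.2) * (Q'.1 - P'.1)) := by
    intro x; unfold hdiff; ring
  set m := (Q'.2 - P'.2) * (Q.1 - P.1) - (Q.2 - P.2) * (Q'.1 - P'.1) with hm
  set d := hdiff P Q P' Q' b with hd
  have ham : d + (a - b) * m ≤ 0 := by rw [← haff]; exact hc
  have hm0 : 0 < m := by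
    by_contra hm0
    rw [not_lt] at hm0
    have := mul_nonneg_of_nonpos_of_nonpos (sub_nonpos.2 hab) hm0
    linarith
  set x := b - d / m with hx
  have hx1 : x < b := by rw [hx]; have := div_pos hb hm0; linarith
  have hx2 : a ≤ x := by
    have : d / m ≤ b - a := by rw [div_le_iff₀ hm0]; linarith
    linarith
  have h0 : hdiff P Q P' Q' x = 0 := by
    rw [haff, hx]
    have : m ≠ 0 := hm0.ne'
    field_simp
    ring
  obtain ⟨p, hp, hp', hpx⟩ := common_pt h h' (by linarith) (by linarith) (by linarith)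
    (by linarith) h0
  obtain ⟨k1, k2⟩ := hn p hp hp'
  have e1 : p = P := by
    rcases k1 with k1 | k1
    · exact k1
    · rw [k1] at hpx; linarith
  have e2 : p = P' := by
    rcases k2 with k2 | k2
    · exact k2
    · rw [k2] at hpx; linarith
  exact hP (e1.symm.trans e2)

theorem plainN_snd {lo ro o : ℕ → ℝ} (h : SndN plainN plainNO lo ro o)
    (l0 : 0 ≤ lo 0 ∧ lo 0 ≤ 16) (r0 : 0 ≤ ro 0 ∧ ro 0 ≤ 16) : lo 0 ≤ ro 0 := by
  obtain ⟨ho, hn, hb⟩ := h
  have e0 := (ho 0 _ rfl).1 (by decide)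
  norm_num [ka, kb] at e0
  have b1 := hb ((0, 0), (2, 0)) (by decide) (3, 9, 17) (by decide)
  have b2 := hb ((2, 0), (1, 0)) (by decide) (9, 0, 8) (by decide)
  simp only [plainN_q0_0 lo ro o, plainN_q1_0 lo ro o, plainN_q2_0 lo ro o] at b1 b2
  have c1 := b1.le (by norm_num) (by norm_num) (by norm_num; linarith)
  have c2 := b2.ge (by norm_num) (by norm_num) (by norm_num; linarith)
  norm_num at c1 c2
  linarith

theorem negN_snd {lo ro o : ℕ → ℝ} (h : SndN negN negNO lo ro o)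
    (l0 : 0 ≤ lo 0 ∧ lo 0 ≤ 16) (r0 : 0 ≤ ro 0 ∧ ro 0 ≤ 16) : 16 ≤ lo 0 + ro 0 := by
  obtain ⟨ho, hn, hb⟩ := h
  have b2 := hb ((0, 0), (1, 0)) (by decide) (6, 0, 8) (by decide)
  simp only [negN_q0_0 lo ro o, negN_q1_0 lo ro o] at b2
  have c2 := b2.ge (by norm_num) (by norm_num) (by norm_num; linarith)
  norm_num at c2
  linarith

theorem swapN_snd {lo ro o : ℕ → ℝ} (h : SndN swapN swapNO lo ro o)
    (l0 : 0 ≤ lo 0 ∧ lo 0 ≤ 16) (l1 : 0 ≤ lo 1 ∧ lo 1 ≤ 16)
    (r0 : 0 ≤ ro 0 ∧ ro 0 ≤ 16) (r1 : 0 ≤ ro 1 ∧ ro 1 ≤ 16) : lo 0 < ro 1 ∧ lo 1 < ro 0 := by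
  obtain ⟨ho, hn, hb⟩ := h
  have e0 := (ho 0 _ rfl).1 (by decide)
  have e1 := (ho 1 _ rfl).1 (by decide)
  have e2 := (ho 2 _ rfl).1 (by decide)
  have e3 := (ho 3 _ rfl).1 (by decide)
  have e4 := (ho 4 _ rfl).1 (by decide)
  have e5 := (ho 5 _ rfl).1 (by decide)
  have e6 := (ho 6 _ rfl).1 (by decide)
  have e7 := (ho 7 _ rfl).1 (by decide)
  norm_num [ka, kb] at e0 e1 e2 e3 e4 e5 e6 e7
  have n1 := hn ((0, 1), (2, 1)) (by decide) ((2, 3), (2, 4)) (by decide) (by decide)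
  have n2 := hn ((2, 2), (2, 7)) (by decide) ((2, 3), (2, 6)) (by decide) (by decide)
  have n3 := hn ((2, 4), (2, 5)) (by decide) ((0, 1), (1, 1)) (by decide) (by decide)
  have b1 := hb ((0, 0), (2, 0)) (by decide) (1, 9, 17) (by decide)
  have b2 := hb ((2, 0), (2, 1)) (by decide) (3, 0, 8) (by decide)
  have b3 := hb ((2, 1), (2, 2)) (by decide) (5, 0, 8) (by decide)
  have b4 := hb ((2, 3), (2, 6)) (by decide) (5, 57, 65) (by decide)
  have b5 := hb ((2, 3), (2, 4)) (by decide) (3, 129, 137) (by decide)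
  have b6 := hb ((2, 4), (2, 5)) (by decide) (5, 168, 176) (by decide)
  have b7 := hb ((2, 7), (1, 0)) (by decide) (11, 0, 8) (by decide)
  simp only [swapN_q0_0 lo ro o, swapN_q0_1 lo ro o, swapN_q1_0 lo ro o, swapN_q1_1 lo ro o,
    swapN_q2_0 lo ro o, swapN_q2_1 lo ro o, swapN_q2_2 lo ro o, swapN_q2_3 lo ro o,
    swapN_q2_4 lo ro o, swapN_q2_5 lo ro o, swapN_q2_6 lo ro o, swapN_q2_7 lo ro o]
    at n1 n2 n3 b1 b2 b3 b4 b5 b6 b7
  have c1 := b1.le (by norm_num) (by norm_num) (by norm_num; linarith)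
  have c2 := b2.ge (by norm_num) (by norm_num) (by norm_num; linarith)
  have c3 := b3.ge (by norm_num) (by norm_num) (by norm_num; linarith)
  have c4 := b4.le (by norm_num) (by norm_num) (by norm_num; linarith)
  have c5 := b5.le (by norm_num) (by norm_num) (by norm_num; linarith)
  have c6 := b6.ge (by norm_num) (by norm_num) (by norm_num; linarith)
  have c7 := b7.ge (by norm_num) (by norm_num) (by norm_num; linarith)
  have d1 := cmp_left n1 (by norm_num) (by norm_num) 2 4 (by norm_num) (by norm_num) (by norm_num)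
    (by norm_num) (by norm_num) (by simp) (by simp only [hdiff]; linarith)
  have d2 := cmp_right n2 (by norm_num) (by norm_num) 6 8 (by norm_num) (by norm_num) (by norm_num)
    (by norm_num) (by norm_num) (by simp) (by simp only [hdiff]; linarith)
  have d3 := cmp_right n3 (by norm_num) (by norm_num) 4 6 (by norm_num) (by norm_num) (by norm_num)
    (by norm_num) (by norm_num) (by simp) (by simp only [hdiff]; linarith)
  simp only [hdiff] at d1 d2 d3
  norm_num at c1 c2 c3 c4 c5 c6 c7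
  constructor <;> linarith

theorem linN_snd {lo ro o : ℕ → ℝ} (h : SndN linN linNO lo ro o)
    (l0 : 0 ≤ lo 0 ∧ lo 0 ≤ 16) (l1 : 0 ≤ lo 1 ∧ lo 1 ≤ 16) (l2 : 0 ≤ lo 2 ∧ lo 2 ≤ 16) :
    lo 0 + lo 2 + 2 * lo 1 < 32 := by
  obtain ⟨ho, hn, hb⟩ := h
  have e0 := (ho 0 _ rfl).1 (by decide)
  have e1 := (ho 1 _ rfl).1 (by decide)
  have e2 := (ho 2 _ rfl).1 (by decide)
  norm_num [ka, kb] at e0 e1 e2
  have n1 := hn ((0, 0), (2, 1)) (by decide) ((0, 1), (2, 2)) (by decide) (by decide)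
  have b1 := hb ((0, 2), (2, 0)) (by decide) (1, 393, 401) (by decide)
  have b2 := hb ((2, 0), (2, 1)) (by decide) (3, 384, 392) (by decide)
  have b3 := hb ((0, 1), (2, 2)) (by decide) (1, 201, 209) (by decide)
  simp only [linN_q0_0 lo ro o, linN_q0_1 lo ro o, linN_q0_2 lo ro o,
    linN_q2_0 lo ro o, linN_q2_1 lo ro o, linN_q2_2 lo ro o] at n1 b1 b2 b3
  have c1 := b1.le (by norm_num) (by norm_num) (by norm_num; linarith)
  have c2 := b2.ge (by norm_num) (by norm_num) (by norm_num; linarith)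
  have c3 := b3.le (by norm_num) (by norm_num) (by norm_num; linarith)
  have d1 := cmp_right n1 (by norm_num) (by norm_num) 0 2 (by norm_num) (by norm_num) (by norm_num)
    (by norm_num) (by norm_num) (by simp) (by simp only [hdiff]; linarith)
  simp only [hdiff] at d1
  norm_num at c1 c2 c3
  linarith

theorem prodN_snd {lo ro o : ℕ → ℝ} (h : SndN prodN prodNO lo ro o)
    (l0 : 0 ≤ lo 0 ∧ lo 0 ≤ 16) (l1 : 0 ≤ lo 1 ∧ lo 1 ≤ 16) (l2 : 0 ≤ lo 2 ∧ lo 2 ≤ 16) :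
    (16 + lo 1) * lo 0 + 16 * lo 2 < 320 := by
  obtain ⟨ho, hn, hb⟩ := h
  have e0 := (ho 0 _ rfl).1 (by decide)
  have e1 := (ho 1 _ rfl).1 (by decide)
  have e2 := (ho 2 _ rfl).1 (by decide)
  have e3 := (ho 3 _ rfl).1 (by decide)
  have e4 := (ho 4 _ rfl).1 (by decide)
  have e5 := (ho 5 _ rfl).2 (by decide)
  have e6 := (ho 6 _ rfl).1 (by decide)
  norm_num [ka, kb] at e0 e1 e2 e3 e4 e5 e6
  have n1 := hn ((2, 0), (2, 1)) (by decide) ((2, 6), (2, 5)) (by decide) (by decide)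
  have n2 := hn ((2, 3), (2, 5)) (by decide) ((0, 2), (2, 4)) (by decide) (by decide)
  have b1 := hb ((0, 0), (2, 0)) (by decide) (1, 9, 17) (by decide)
  have b2 := hb ((2, 0), (2, 1)) (by decide) (4, 0, 8) (by decide)
  have b3 := hb ((0, 1), (2, 2)) (by decide) (1, 157, 165) (by decide)
  have b4 := hb ((2, 2), (2, 3)) (by decide) (3, 60, 68) (by decide)
  have b5 := hb ((0, 2), (2, 4)) (by decide) (3, 203, 211) (by decide)
  simp only [prodN_q0_0 lo ro o, prodN_q0_1 lo ro o, prodN_q0_2 lo ro o,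
    prodN_q2_0 lo ro o, prodN_q2_1 lo ro o, prodN_q2_2 lo ro o, prodN_q2_3 lo ro o,
    prodN_q2_4 lo ro o, prodN_q2_5 lo ro o, prodN_q2_6 lo ro o] at n1 n2 b1 b2 b3 b4 b5
  have c1 := b1.le (by norm_num) (by norm_num) (by norm_num; linarith)
  have c2 := b2.ge (by norm_num) (by norm_num) (by norm_num; linarith)
  have c3 := b3.le (by norm_num) (by norm_num) (by norm_num; linarith)
  have c4 := b4.ge (by norm_num) (by norm_num) (by norm_num; linarith)
  have c5 := b5.le (by norm_num) (by norm_num) (by norm_num; linarith)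
  have v6 : 0 < o 5 - 6 := by linarith
  have v4 : 0 < o 5 - 4 := by linarith
  have w1 : 0 ≤ o 6 * (o 5 - 4) := mul_nonneg e6.1 v4.le
  have w2 : (o 0 + o 1) * (o 5 - 4) ≤ 29 * (o 5 - 4) :=
    mul_le_mul_of_nonneg_right (by linarith) v4.le
  have w3 : 0 ≤ o 4 * (o 5 - 4) := mul_nonneg e4.1 v4.le
  have w4 : o 3 * (o 5 - 4) ≤ 16 * (o 5 - 4) := mul_le_mul_of_nonneg_right (by linarith) v4.le
  have w5 : 0 ≤ lo 2 * (o 5 - 4) := mul_nonneg l2.1 v4.le
  have d1 := cmp_right n1 (by norm_num) (by simp only; linarith) 4 6 (by norm_num) (by norm_num)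
    (by norm_num) (by norm_num) (by simp only; linarith)
    (by intro hc; rw [Prod.mk.injEq] at hc; linarith) (by simp only [hdiff]; linarith)
  have d2 := cmp_right n2 (by simp only; linarith) (by norm_num) 4 6 (by norm_num) (by norm_num)
    (by norm_num) (by simp only; linarith) (by norm_num)
    (by intro hc; rw [Prod.mk.injEq] at hc; linarith) (by simp only [hdiff]; linarith)
  simp only [hdiff] at d1 d2
  norm_num at c1 c2 c3 c4 c5
  have b1' : lo 0 ≤ o 1 := by linarith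
  have b2' : lo 1 ≤ o 3 := by linarith
  have b3' : lo 2 + o 4 ≤ 16 := by linarith
  have w6 : (15 + o 6) * (o 5 - 6) ≤ 16 * (o 5 - 6) :=
    mul_le_mul_of_nonneg_right (by linarith) v6.le
  have b4' : o 1 * (o 5 - 4) < 16 * (o 5 - 6) := by linarith
  have b5' : (16 + o 3) * (o 5 - 6) < (4 + o 4) * (o 5 - 4) := by linarith
  have b6 : (16 + lo 1) * lo 0 ≤ (16 + o 3) * o 1 :=
    mul_le_mul (by linarith) b1' l0.1 (by linarith)
  have b7 : (16 + o 3) * (o 1 * (o 5 - 4)) < (16 + o 3) * (16 * (o 5 - 6)) :=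
    mul_lt_mul_of_pos_left b4' (by linarith)
  have b8 : (16 + o 3) * o 1 < 16 * (4 + o 4) := by
    by_contra hc
    rw [not_lt] at hc
    have := mul_le_mul_of_nonneg_right hc v4.le
    linarith
  linarith

end Pool.Agent.H678.SegObs
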