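import Pool.Graph.R_pool_sql_team_seeded_c8625f6e.K4H90.Seg.Draw
import Pool.Graph.R_pool_sql_team_seeded_c8625f6e.K4H90.Seg.Sound
import Pool.Agent.H678.SegObs.Defs
import Pool.Agent.H678.SegObs.Snd

/-!
# The instance of a diagram with obstacles; drawings of it
-/

namespace Pool.Agent.H678.SegObs

open Pool.Agent.K4H90.SegDraw (Seg toR Gadget Ref Row refs rl ll edgesOf mem_edgesOf mem_refs GadOK
  GeoOK ht emptyG Dia nm nm_inj root cfg cfg_lp cfg_rp cfg_inn NC pl pl_inj mem_segment_pl xlo xhi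
  seg_lin seg_x seg_left seg_right pts_of_open seg_of_pts)
open Pool.Agent.K4H90.SegDraw.Dia (Good)

/-- The segment of a vertex. -/
def mkSegN (cl : Bool) (X Y k : ℕ) : Seg :=
  if k = 2 then ⟨((X : ℚ), (Y : ℚ)), (((X + 3 : ℕ) : ℚ), (Y : ℚ)), cl⟩ else
  ⟨((X : ℚ), ((Y + ka k : ℕ) : ℚ)), ((X : ℚ), ((Y + kb k : ℕ) : ℚ)), cl⟩

/-- An obstacle. -/
def mkObs (cl : Bool) (X Y a b : ℕ) : Seg :=
  ⟨((X : ℚ), ((Y + a : ℕ) : ℚ) - 1), ((X : ℚ), ((Y + b : ℕ) : ℚ)), cl⟩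

/-- The entries of the vertices of a cell. -/
def cellN (G : Dia) (cl : Bool) (l b : ℕ) : List (ℕ × Seg) :=
  (if l = 0 ∧ G.grp b ≠ b then [] else
    [(nm 1 l b, mkSegN cl (12 * l) (192 * b) (if l = 0 then G.sk b else 0))]) ++
    (G.gad l b).1.zipIdx.map fun p => (nm (2 + p.2) l b, mkSegN cl (12 * l + p.1.1)
      (192 * G.hb l b + p.1.2.1 + 16 * (b - G.hb l b) * p.1.1) p.1.2.2.1)

/-- The edges of a cell. -/
def cellE (G : Dia) (l b : ℕ) : List (ℕ × ℕ) :=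
  (edgesOf (G.gad l b)).map fun e => (G.res l b e.1, G.res l b e.2)

/-- The obstacles of a cell. -/
def cellO (G : Dia) (os : ℕ → ℕ → List (ℕ × ℕ × ℕ)) (cl : Bool) (l b : ℕ) : List Seg :=
  (os l b).map fun ob => mkObs cl (12 * l + ob.1) (192 * G.hb l b + 16 * (b - G.hb l b) * ob.1)
    ob.2.1 ob.2.2

/-- All pairs of a column and a track. -/
def cells (G : Dia) : List (ℕ × ℕ) :=
  (List.range G.C).flatMap fun l => (List.range G.N).map fun b => (l, b)

theorem mem_cells {G : Dia} {c : ℕ × ℕ} : c ∈ cells G ↔ c.1 < G.C ∧ c.2 < G.N := by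
  obtain ⟨l, b⟩ := c
  unfold cells
  simp only [List.mem_flatMap, List.mem_range, List.mem_map, Prod.mk.injEq]
  constructor
  · rintro ⟨l', h1, b', h2, rfl, rfl⟩
    exact ⟨h1, h2⟩
  · rintro ⟨h1, h2⟩
    exact ⟨l, h1, b, h2, rfl, rfl⟩

/-- The instance of a diagram with obstacles. -/
def instN (G : Dia) (os : ℕ → ℕ → List (ℕ × ℕ × ℕ)) (cl : Bool) : Inst where
  verts := (cells G).flatMap fun c => cellN G cl c.1 c.2
  edges := (cells G).flatMap fun c => cellE G c.1 c.2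
  obstacles := (cells G).flatMap fun c => cellO G os cl c.1 c.2

variable {G : Dia} {os : ℕ → ℕ → List (ℕ × ℕ × ℕ)} {cl : Bool}

theorem cellN_names (l b : ℕ) :
    (cellN G cl l b).map (fun e => e.1) = (G.cellEnt cl l b).map (fun e => e.1) := by
  unfold cellN Dia.cellEnt
  rw [List.map_append, List.map_append]
  congr 1
  · split_ifs <;> rfl
  · rw [List.map_map, List.map_map]
    rfl

theorem names_eq : (G.inst cl).names = root :: (instN G os cl).names := by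
  unfold Pool.Agent.K4H90.SegDraw.Inst.names Inst.names instN Dia.inst cells
  simp only [List.map_cons, List.map_flatMap, List.flatMap_assoc, List.flatMap_map, cellN_names]

theorem names_nodupN (h : G.OK) : (instN G os cl).names.Nodup := by
  have := Dia.names_nodup h (cl := cl)
  rw [names_eq (os := os), List.nodup_cons] at this
  exact this.2

theorem root_notin (h : G.OK) : root ∉ (instN G os cl).names := by
  have := Dia.names_nodup h (cl := cl)
  rw [names_eq (os := os), List.nodup_cons] at this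
  exact this.1

theorem mem_namesN {u : ℕ} (h : u ∈ (instN G os cl).names) : u ∈ (G.inst cl).names := by
  rw [names_eq (os := os)]
  exact List.mem_cons_of_mem _ h

theorem mem_namesN' {u : ℕ} (h : u ∈ (G.inst cl).names) (hu : u ≠ root) :
    u ∈ (instN G os cl).names := by
  rw [names_eq (os := os), List.mem_cons] at h
  exact h.resolve_left hu

theorem mem_vertsN {e : ℕ × Seg} : e ∈ (instN G os cl).verts ↔
    (∃ l < G.C, ∃ k < G.N, (l = 0 → G.grp k = k) ∧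
      e = (nm 1 l k, mkSegN cl (12 * l) (192 * k) (if l = 0 then G.sk k else 0))) ∨
    ∃ l < G.C, ∃ b < G.N, ∃ i w, (G.gad l b).1[i]? = some w ∧
      e = (nm (2 + i) l b, mkSegN cl (12 * l + w.1)
        (192 * G.hb l b + w.2.1 + 16 * (b - G.hb l b) * w.1) w.2.2.1) := by
  unfold instN cellN
  simp only [List.mem_flatMap, mem_cells, List.mem_append, List.mem_map]
  constructor
  · rintro ⟨⟨l, b⟩, ⟨hl, hb⟩, h | ⟨⟨w, i⟩, h, rfl⟩⟩
    · simp only at h hl hb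
      by_cases h1 : l = 0 ∧ G.grp b ≠ b
      · rw [if_pos h1] at h
        simp at h
      · rw [if_neg h1, List.mem_singleton] at h
        refine Or.inl ⟨l, hl, b, hb, ?_, h⟩
        intro h0
        by_contra hc
        exact h1 ⟨h0, hc⟩
    · rw [List.mem_zipIdx_iff_getElem?] at h
      exact Or.inr ⟨l, hl, b, hb, i, w, h, rfl⟩
  · rintro (⟨l, hl, k, hk, h0, h⟩ | ⟨l, hl, b, hb, i, w, h, rfl⟩)
    · refine ⟨(l, k), ⟨hl, hk⟩, Or.inl ?_⟩
      simp only
      rw [if_neg (fun hc => hc.2 (h0 hc.1))]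
      simp [h]
    · refine ⟨(l, b), ⟨hl, hb⟩, Or.inr ⟨(w, i), ?_, rfl⟩⟩
      rw [List.mem_zipIdx_iff_getElem?]
      exact h

theorem mem_edgesN {e : ℕ × ℕ} : e ∈ (instN G os cl).edges ↔
    ∃ l < G.C, ∃ b < G.N, ∃ s r, s ∈ refs (G.gad l b) ∧ r ∈ rl (G.gad l b) s ∧
      e = (G.res l b s, G.res l b r) := by
  unfold instN cellE
  simp only [List.mem_flatMap, mem_cells, List.mem_map, Prod.exists]
  constructor
  · rintro ⟨l, b, ⟨hl, hb⟩, s1, s2, r1, r2, h, rfl⟩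
    rw [mem_edgesOf] at h
    exact ⟨l, hl, b, hb, s1, s2, r1, r2, h.1, h.2, rfl⟩
  · rintro ⟨l, hl, b, hb, s1, s2, r1, r2, hs, hr, rfl⟩
    exact ⟨l, b, ⟨hl, hb⟩, s1, s2, r1, r2, mem_edgesOf.2 ⟨hs, hr⟩, rfl⟩

theorem mem_obstN {s : Seg} : s ∈ (instN G os cl).obstacles ↔
    ∃ l < G.C, ∃ b < G.N, ∃ ob ∈ os l b, s = mkObs cl (12 * l + ob.1)
      (192 * G.hb l b + 16 * (b - G.hb l b) * ob.1) ob.2.1 ob.2.2 := by
  unfold instN cellO
  simp only [List.mem_flatMap, mem_cells, List.mem_map, Prod.exists]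
  constructor
  · rintro ⟨l, b, ⟨hl, hb⟩, x, a, c, h, rfl⟩
    exact ⟨l, hl, b, hb, x, a, c, h, rfl⟩
  · rintro ⟨l, hl, b, hb, x, a, c, h, rfl⟩
    exact ⟨l, b, ⟨hl, hb⟩, x, a, c, h, rfl⟩

theorem E_of_edge {e : ℕ × ℕ} (h : e ∈ (instN G os cl).edges) : G.E e.1 e.2 := by
  obtain ⟨l, hl, b, hb, s, r, hs, hr, rfl⟩ := mem_edgesN.1 h
  exact Or.inr ⟨l, hl, b, hb, s, r, hs, hr, rfl, rfl⟩

theorem simpleN (h : G.OK) (hE : ∃ t o, Good G t o) : (instN G os cl).Simple where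
  nodup := names_nodupN h
  ends := by
    intro e he
    obtain ⟨t, o, hG⟩ := hE
    have hE := E_of_edge he
    have hn := Dia.E_mem_names h (cl := cl) hE
    obtain ⟨l, hl, b, hb, s, r, hs, hr, rfl⟩ := mem_edgesN.1 he
    refine ⟨mem_namesN' hn.1 Dia.res_ne_root, mem_namesN' hn.2 Dia.res_ne_root, fun hc => ?_⟩
    have h1 := Dia.E_lt h hG hE
    simp only at hc h1
    rw [hc] at h1
    exact lt_irrefl _ h1

theorem isDrawingN (h : G.OK) {t : ℕ → ℕ → ℝ} {o : ℕ → ℕ → ℕ → ℝ} (hG : Good G t o) :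
    (instN G os cl).IsDrawing (G.pos t o) where
  inj := fun u hu v hv he => Dia.pos_inj h hG (cl := cl) u (mem_namesN hu) v (mem_namesN hv) he
  off := by
    intro e he w hw hmem
    have hE := E_of_edge he
    have hn := Dia.E_mem_names h (cl := cl) hE
    have hwn := mem_namesN hw
    -- an edge at `w`
    obtain ⟨w', hw'⟩ : ∃ w', G.E w w' ∨ G.E w' w := by
      have hr : root ∈ (G.inst cl).names := Dia.mem_names.2 (Or.inl rfl)
      have := Dia.connected h (cl := cl) w hwn root hr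
      rcases Relation.ReflTransGen.cases_head this with h1 | ⟨w', h1, -⟩
      · rw [h1] at hw
        exact (root_notin h hw).elim
      · exact ⟨w', (Dia.nbr_iff h).1 h1⟩
    have key : ∀ a b, G.E a b → (w = a ∨ w = b) → w = e.1 ∨ w = e.2 := by
      intro a b hab hwab
      rcases Dia.E_nc h hG hE hab with ⟨h1, h2⟩ | hnc
      · rw [h1, h2]; exact hwab
      · have hwm : G.pos t o w ∈ segment ℝ (G.pos t o a) (G.pos t o b) := by
          rcases hwab with rfl | rfl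
          · exact left_mem_segment ℝ _ _
          · exact right_mem_segment ℝ _ _
        rcases (hnc _ hmem hwm).1 with h1 | h1
        · exact Or.inl (Dia.pos_inj h hG (cl := cl) w hwn e.1 hn.1 h1)
        · exact Or.inr (Dia.pos_inj h hG (cl := cl) w hwn e.2 hn.2 h1)
    rcases hw' with h1 | h1
    · exact key _ _ h1 (Or.inl rfl)
    · exact key _ _ h1 (Or.inr rfl)
  plane := by
    intro e he f hf hne p hp hp'
    have hE := E_of_edge he
    have hF := E_of_edge hf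
    rcases Dia.E_nc h hG hE hF with ⟨h1, h2⟩ | hnc
    · exact (hne (by rw [h1, h2])).elim
    · obtain ⟨h1, h2⟩ := hnc p hp hp'
      obtain ⟨n1, n2⟩ := Dia.E_mem_names h (cl := cl) hE
      obtain ⟨n3, n4⟩ := Dia.E_mem_names h (cl := cl) hF
      rcases h1 with h1 | h1
      · refine ⟨e.1, by simp, ?_, h1⟩
        rcases h2 with h2 | h2
        · rw [Dia.pos_inj h hG e.1 n1 f.1 n3 (h1.symm.trans h2)]; simp
        · rw [Dia.pos_inj h hG e.1 n1 f.2 n4 (h1.symm.trans h2)]; simp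
      · refine ⟨e.2, by simp, ?_, h1⟩
        rcases h2 with h2 | h2
        · rw [Dia.pos_inj h hG e.2 n2 f.1 n3 (h1.symm.trans h2)]; simp
        · rw [Dia.pos_inj h hG e.2 n2 f.2 n4 (h1.symm.trans h2)]; simp

/-! ### Positions on the segments -/

theorem mkSegN_mem {cl : Bool} {X Y k : ℕ} {p : ℝ × ℝ} (hk : k ≠ 2) (h1 : p.1 = X)
    (h2 : (Y : ℝ) + ka k < p.2) (h3 : p.2 < (Y : ℝ) + kb k) : p ∈ (mkSegN cl X Y k).pts := by
  apply pts_of_open
  have hd : (0 : ℝ) < (kb k : ℝ) - ka k := by linarith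
  have hd' : (kb k : ℝ) - ka k ≠ 0 := hd.ne'
  refine ⟨1 - (p.2 - Y - ka k) / ((kb k : ℝ) - ka k), (p.2 - Y - ka k) / ((kb k : ℝ) - ka k),
    ?_, ?_, by ring, ?_⟩
  · rw [sub_pos, div_lt_one hd]; linarith
  · exact div_pos (by linarith) hd
  · unfold mkSegN toR
    rw [if_neg hk]
    ext
    · simp [h1]
      ring
    · simp
      field_simp
      ring

theorem mkSegN_mem2 {cl : Bool} {X Y : ℕ} {p : ℝ × ℝ} (h1 : p.2 = Y) (h2 : (X : ℝ) < p.1)
    (h3 : p.1 < (X : ℝ) + 3) : p ∈ (mkSegN cl X Y 2).pts := by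
  apply pts_of_open
  refine ⟨1 - (p.1 - X) / 3, (p.1 - X) / 3, by linarith, by linarith, by ring, ?_⟩
  unfold mkSegN toR
  ext
  · simp
    ring
  · simp [h1]
    ring

theorem of_mkN {cl : Bool} {X Y k : ℕ} {p : ℝ × ℝ} (h : p ∈ (mkSegN cl X Y k).pts) :
    (k ≠ 2 → p.1 = X ∧ (Y : ℝ) + ka k ≤ p.2 ∧ p.2 ≤ (Y : ℝ) + kb k) ∧
    (k = 2 → p.2 = Y ∧ (X : ℝ) ≤ p.1 ∧ p.1 ≤ (X : ℝ) + 3) := by
  have h0 := seg_of_pts h
  have bd : ∀ α β γ : ℝ, α * (toR (mkSegN cl X Y k).p).1 + β * (toR (mkSegN cl X Y k).p).2 ≤ γ →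
    α * (toR (mkSegN cl X Y k).q).1 + β * (toR (mkSegN cl X Y k).q).2 ≤ γ →
    α * p.1 + β * p.2 ≤ γ := fun α β γ => seg_lin h0
  unfold mkSegN toR at bd
  have hkab : ka k ≤ kb k := by unfold ka kb; split_ifs <;> omega
  refine ⟨fun hk => ?_, fun hk => ?_⟩
  · rw [if_neg hk] at bd
    have e1 := bd 1 0 X
    have e2 := bd (-1) 0 (-X)
    have e3 := bd 0 1 (Y + kb k)
    have e4 := bd 0 (-1) (-(Y + ka k))
    simp at e1 e2 e3 e4
    refine ⟨by linarith, by linarith [e4 hkab], by linarith [e3 hkab]⟩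
  · subst hk
    have e1 := bd 0 1 Y
    have e2 := bd 0 (-1) (-Y)
    have e3 := bd 1 0 (X + 3)
    have e4 := bd (-1) 0 (-X)
    simp at e1 e2 e3 e4
    refine ⟨by linarith, by linarith, by linarith⟩

/-- The offsets respect the segments (open version). -/
structure MemN (G : Dia) (t : ℕ → ℕ → ℝ) (o : ℕ → ℕ → ℕ → ℝ) : Prop where
  ht : ∀ l k, 0 < t l k ∧ t l k < 16
  hs : ∀ k, G.sk k ≠ 2 ∧ (ka (G.sk k) : ℝ) < t 0 k ∧ t 0 k < (kb (G.sk k) : ℝ)
  hi : ∀ l < G.C, ∀ b < G.N, ∀ i w, (G.gad l b).1[i]? = some w →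
    (w.2.2.1 ≠ 2 ∧ (ka w.2.2.1 : ℝ) < o l b i ∧ o l b i < (kb w.2.2.1 : ℝ)) ∨
      (w.2.2.1 = 2 ∧ l ≠ 0 ∧ (w.1 : ℝ) < o l b i ∧ o l b i < (w.1 : ℝ) + 3)

theorem mem_allN (h : G.OK) {t : ℕ → ℕ → ℝ} {o : ℕ → ℕ → ℕ → ℝ} (hM : MemN G t o) :
    ∀ e ∈ (instN G os cl).verts, G.pos t o e.1 ∈ e.2.pts := by
  intro e he
  rcases mem_vertsN.1 he with ⟨l, hl, k, hk, h0, rfl⟩ | ⟨l, hl, b, hb, i, w, hw, rfl⟩
  · simp only [Dia.pos_T]
    have t1 := hM.ht l k
    by_cases hl0 : l = 0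
    · subst hl0
      rw [if_pos rfl]
      obtain ⟨h1, h2, h3⟩ := hM.hs k
      refine mkSegN_mem h1 ?_ ?_ ?_ <;> push_cast <;> linarith
    · rw [if_neg hl0]
      have e1 : ka 0 = 0 := rfl
      have e2 : kb 0 = 16 := rfl
      refine mkSegN_mem (by norm_num) ?_ ?_ ?_ <;> push_cast [e1, e2] <;> linarith
  · simp only [Dia.pos_in]
    have hhb := Dia.hb_le h l b
    have hq : G.q t o l b (2, i) = if w.2.2.1 = 2 then (o l b i, (w.2.1 : ℝ)) else
      ((w.1 : ℝ), (w.2.1 : ℝ) + o l b i) := by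
      unfold Dia.q
      rw [cfg_inn _ _ _ hw]
    rw [hq]
    unfold Dia.plc pl
    rcases hM.hi l hl b hb i w hw with ⟨h1, h2, h3⟩ | ⟨h1, h2, h3, h4⟩
    · rw [if_neg h1]
      refine mkSegN_mem h1 ?_ ?_ ?_ <;> push_cast [Nat.cast_sub hhb] <;> linarith
    · rw [h1, if_pos rfl]
      have e0 : G.hb l b = b := Dia.hb_pos h2 b
      rw [e0, Nat.sub_self, sub_self]
      refine mkSegN_mem2 ?_ ?_ ?_ <;> push_cast <;> linarith

end Pool.Agent.H678.SegObs
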