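import Pool.Graph.R_pool_sql_team_seeded_c8625f6e.K4H90.Seg.Gadget

/-!
# Gadgets with obstacles

The gadgets consist of vertices, edges and vertical obstacles.  An obstacle `(x, a, b)` is the closed
vertical segment from `(x, a - 1)` to `(x, b)`.
-/

namespace Pool.Agent.H678.SegObs

open Pool.Agent.K4H90.SegDraw

/-- The closed segment from `P` to `Q` does not meet the obstacle `(x, a, b)`. -/
def Avoid (P Q : ℝ × ℝ) (ob : ℕ × ℕ × ℕ) : Prop :=
  ∀ p ∈ segment ℝ P Q, p.1 = (ob.1 : ℝ) → p.2 < (ob.2.1 : ℝ) - 1 ∨ (ob.2.2 : ℝ) < p.2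

theorem avoid_left {P Q : ℝ × ℝ} {ob : ℕ × ℕ × ℕ} (h : P.1 ≤ Q.1) (h1 : Q.1 < (ob.1 : ℝ)) :
    Avoid P Q ob := by
  intro p hp hx
  have := (seg_x h hp).2
  linarith

theorem avoid_right {P Q : ℝ × ℝ} {ob : ℕ × ℕ × ℕ} (h : P.1 ≤ Q.1) (h1 : (ob.1 : ℝ) < P.1) :
    Avoid P Q ob := by
  intro p hp hx
  have := (seg_x h hp).1
  linarith

theorem avoid_above {P Q : ℝ × ℝ} {ob : ℕ × ℕ × ℕ} (h : P.1 < Q.1)
    (h1 : (ob.2.2 : ℝ) * (Q.1 - P.1) < P.2 * (Q.1 - P.1) + (Q.2 - P.2) * ((ob.1 : ℝ) - P.1)) :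
    Avoid P Q ob := by
  intro p hp hx
  right
  have h2 := seg_line hp
  rw [hx] at h2
  by_contra hc
  rw [not_lt] at hc
  have := mul_le_mul_of_nonneg_right hc (sub_nonneg.2 h.le)
  linarith

theorem avoid_below {P Q : ℝ × ℝ} {ob : ℕ × ℕ × ℕ} (h : P.1 < Q.1)
    (h1 : P.2 * (Q.1 - P.1) + (Q.2 - P.2) * ((ob.1 : ℝ) - P.1) <
      ((ob.2.1 : ℝ) - 1) * (Q.1 - P.1)) :
    Avoid P Q ob := by
  intro p hp hx
  left
  have h2 := seg_line hp
  rw [hx] at h2
  by_contra hc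
  rw [not_lt] at hc
  have := mul_le_mul_of_nonneg_right hc (sub_nonneg.2 h.le)
  linarith

/-- Every pair of an edge and an obstacle is separated by a vertical line or is in the table. -/
def otabB (g : Gadget) (os : List (ℕ × ℕ × ℕ)) (ot : List ((Ref × Ref) × (ℕ × ℕ × ℕ))) : Bool :=
  (edgesOf g).all fun e => os.all fun ob =>
    decide (xhi g e.2 < ob.1) || (decide (ob.1 < xlo g e.1) || decide ((e, ob) ∈ ot))

theorem otabB_spec {g : Gadget} {os : List (ℕ × ℕ × ℕ)} {ot : List ((Ref × Ref) × (ℕ × ℕ × ℕ))}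
    (h : otabB g os ot = true) : ∀ e ∈ edgesOf g, ∀ ob ∈ os,
      xhi g e.2 < ob.1 ∨ ob.1 < xlo g e.1 ∨ (e, ob) ∈ ot := by
  unfold otabB at h
  intro e he ob hob
  have h1 := List.all_eq_true.1 (List.all_eq_true.1 h e he) ob hob
  simpa only [Bool.or_eq_true, decide_eq_true_eq] using h1

theorem avoid_of_table {g : Gadget} {q : Ref → ℝ × ℝ} (hg : GadOK g)
    (hx : ∀ r ∈ refs g, (xlo g r : ℝ) ≤ (q r).1 ∧ (q r).1 ≤ (xhi g r : ℝ))
    (dir : ∀ e ∈ edgesOf g, (q e.1).1 < (q e.2).1)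
    {os : List (ℕ × ℕ × ℕ)} {ot : List ((Ref × Ref) × (ℕ × ℕ × ℕ))} (ht : otabB g os ot = true)
    (hh : ∀ p ∈ ot, Avoid (q p.1.1) (q p.1.2) p.2) :
    ∀ e ∈ edgesOf g, ∀ ob ∈ os, Avoid (q e.1) (q e.2) ob := by
  intro e he ob hob
  have de := dir e he
  have me := mem_edgesOf.1 (show (e.1, e.2) ∈ edgesOf g from he)
  rcases otabB_spec ht e he ob hob with h | h | h
  · refine avoid_left de.le ?_
    have h1 := (hx _ (hg.1 _ me.1 _ me.2).1).2
    have h2 : ((xhi g e.2 : ℕ) : ℝ) < (ob.1 : ℕ) := by exact_mod_cast h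
    linarith
  · refine avoid_right de.le ?_
    have h1 := (hx _ me.1).1
    have h2 : ((ob.1 : ℕ) : ℝ) < (xlo g e.1 : ℕ) := by exact_mod_cast h
    linarith
  · exact hh _ h

/-! ### The gadgets -/

/-- The gadget plain. -/
def plainN : Gadget :=
  ([(6, 0, 0, [(0, 0)], [(1, 0)])],
    [[(2, 0)]],
    [[(2, 0)]])

theorem plainN_ok : GadOK plainN := by decide +kernel

/-- The pairs of edges to be compared. -/
def plainNT : List ((Ref × Ref) × (Ref × Ref)) :=
  []

theorem plainNT_ok : tabB plainN plainNT = true := by decide +kernel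

/-- Pairs of inner vertices with the same abscissa. -/
def plainNX : List (ℕ × ℕ) := []

theorem plainNX_ok : numB plainN plainNX = true := by decide +kernel

theorem plainN_trR : trR plainN =
    [] := by
  decide +kernel

theorem plainN_trL : trL plainN =
    [] := by
  decide +kernel

theorem plainN_q0_0 (lo ro o : ℕ → ℝ) : cfg plainN lo ro o (0, 0) = (0, lo 0) := by
  norm_num [cfg, plainN]

theorem plainN_q1_0 (lo ro o : ℕ → ℝ) : cfg plainN lo ro o (1, 0) = (12, ro 0) := by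
  norm_num [cfg, plainN]

theorem plainN_q2_0 (lo ro o : ℕ → ℝ) : cfg plainN lo ro o (2, 0) = (6, o 0) := by
  norm_num [cfg, plainN]

theorem plainN_geo {lo ro o : ℕ → ℝ} (hl : ∀ i < 1, 0 < lo i ∧ lo i < 16)
    (hr : ∀ i < 1, 0 < ro i ∧ ro i < 16) (ho : OffOK plainN o)
    : GeoOK plainN (cfg plainN lo ro o) := by
  obtain ⟨l0a, l0b⟩ := hl 0 (by norm_num)
  obtain ⟨r0a, r0b⟩ := hr 0 (by norm_num)
  obtain ⟨o0a, o0b⟩ := (ho 0 _ rfl).1 (by norm_num)
  refine geo_of_cfg plainN_ok plainNX_ok hl hr ho ?_ ?_ plainNT_ok ?_ ?_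
  · rw [plainN_trR]
    simp
  · rw [plainN_trL]
    simp
  · unfold plainNT
    simp
  · unfold plainNX
    simp

/-- The obstacles of the gadget plain. -/
def plainNO : List (ℕ × ℕ × ℕ) := [(3, 9, 17), (9, 0, 8)]

/-- The pairs of an edge and an obstacle to be compared. -/
def plainNOT : List ((Ref × Ref) × (ℕ × ℕ × ℕ)) :=
  [(((0, 0), (2, 0)), (3, 9, 17)),
    (((2, 0), (1, 0)), (9, 0, 8))]

theorem plainNOT_ok : otabB plainN plainNO plainNOT = true := by decide +kernel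

theorem plainN_avoid {lo ro o : ℕ → ℝ} (hl : ∀ i < 1, 0 < lo i ∧ lo i < 16)
    (hr : ∀ i < 1, 0 < ro i ∧ ro i < 16) (ho : OffOK plainN o)
    (g0 : lo 0 + o 0 < 16)
    (g1 : 16 < o 0 + ro 0)
    : ∀ p ∈ plainNOT, Avoid (cfg plainN lo ro o p.1.1) (cfg plainN lo ro o p.1.2) p.2 := by
  obtain ⟨l0a, l0b⟩ := hl 0 (by norm_num)
  obtain ⟨r0a, r0b⟩ := hr 0 (by norm_num)
  obtain ⟨o0a, o0b⟩ := (ho 0 _ rfl).1 (by norm_num)
  unfold plainNOT
  simp only [List.forall_mem_cons, plainN_q0_0 lo ro o, plainN_q1_0 lo ro o, plainN_q2_0 lo ro o]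
  refine ⟨?_, ?_, by simp⟩
  · exact avoid_below (by norm_num) (by norm_num; linarith)
  · exact avoid_above (by norm_num) (by norm_num; linarith)

/-- The gadget neg. -/
def negN : Gadget :=
  ([],
    [[(1, 0)]],
    [[(0, 0)]])

theorem negN_ok : GadOK negN := by decide +kernel

/-- The pairs of edges to be compared. -/
def negNT : List ((Ref × Ref) × (Ref × Ref)) :=
  []

theorem negNT_ok : tabB negN negNT = true := by decide +kernel

/-- Pairs of inner vertices with the same abscissa. -/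
def negNX : List (ℕ × ℕ) := []

theorem negNX_ok : numB negN negNX = true := by decide +kernel

theorem negN_trR : trR negN =
    [] := by
  decide +kernel

theorem negN_trL : trL negN =
    [] := by
  decide +kernel

theorem negN_q0_0 (lo ro o : ℕ → ℝ) : cfg negN lo ro o (0, 0) = (0, lo 0) := by
  norm_num [cfg, negN]

theorem negN_q1_0 (lo ro o : ℕ → ℝ) : cfg negN lo ro o (1, 0) = (12, ro 0) := by
  norm_num [cfg, negN]

theorem negN_geo {lo ro o : ℕ → ℝ} (hl : ∀ i < 1, 0 < lo i ∧ lo i < 16)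
    (hr : ∀ i < 1, 0 < ro i ∧ ro i < 16) (ho : OffOK negN o)
    : GeoOK negN (cfg negN lo ro o) := by
  obtain ⟨l0a, l0b⟩ := hl 0 (by norm_num)
  obtain ⟨r0a, r0b⟩ := hr 0 (by norm_num)
  refine geo_of_cfg negN_ok negNX_ok hl hr ho ?_ ?_ negNT_ok ?_ ?_
  · rw [negN_trR]
    simp
  · rw [negN_trL]
    simp
  · unfold negNT
    simp
  · unfold negNX
    simp

/-- The obstacles of the gadget neg. -/
def negNO : List (ℕ × ℕ × ℕ) := [(6, 0, 8)]

/-- The pairs of an edge and an obstacle to be compared. -/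
def negNOT : List ((Ref × Ref) × (ℕ × ℕ × ℕ)) :=
  [(((0, 0), (1, 0)), (6, 0, 8))]

theorem negNOT_ok : otabB negN negNO negNOT = true := by decide +kernel

theorem negN_avoid {lo ro o : ℕ → ℝ} (hl : ∀ i < 1, 0 < lo i ∧ lo i < 16)
    (hr : ∀ i < 1, 0 < ro i ∧ ro i < 16) (ho : OffOK negN o)
    (g0 : 16 < lo 0 + ro 0)
    : ∀ p ∈ negNOT, Avoid (cfg negN lo ro o p.1.1) (cfg negN lo ro o p.1.2) p.2 := by
  obtain ⟨l0a, l0b⟩ := hl 0 (by norm_num)
  obtain ⟨r0a, r0b⟩ := hr 0 (by norm_num)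
  unfold negNOT
  simp only [List.forall_mem_cons, negN_q0_0 lo ro o, negN_q1_0 lo ro o]
  refine ⟨?_, by simp⟩
  · exact avoid_above (by norm_num) (by norm_num; linarith)

/-- The gadget swap. -/
def swapN : Gadget :=
  ([(2, 0, 0, [(0, 0)], [(2, 1)]), (4, 0, 0, [(0, 1), (2, 0)], [(2, 2)]), (6, 0, 0, [(2, 1)], [(2, 7)]), (2, 96, 0, [(0, 1)], [(2, 6), (2, 4)]), (4, 144, 0, [(2, 3)], [(2, 5)]), (6, 192, 0, [(2, 4)], []), (8, 0, 0, [(2, 3)], []), (10, 0, 0, [(2, 2)], [(1, 0)])],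
    [[(2, 0)], [(2, 1), (2, 3), (1, 1)]],
    [[(2, 7)], [(0, 1)]])

theorem swapN_ok : GadOK swapN := by decide +kernel

/-- The pairs of edges to be compared. -/
def swapNT : List ((Ref × Ref) × (Ref × Ref)) :=
  [(((0, 0), (2, 0)), ((0, 1), (2, 1))),
    (((0, 0), (2, 0)), ((0, 1), (2, 3))),
    (((0, 0), (2, 0)), ((0, 1), (1, 1))),
    (((0, 1), (2, 1)), ((2, 3), (2, 6))),
    (((0, 1), (2, 1)), ((2, 3), (2, 4))),
    (((2, 0), (2, 1)), ((0, 1), (1, 1))),
    (((2, 1), (2, 2)), ((0, 1), (1, 1))),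
    (((2, 2), (2, 7)), ((0, 1), (1, 1))),
    (((2, 3), (2, 6)), ((0, 1), (1, 1))),
    (((2, 3), (2, 4)), ((0, 1), (1, 1))),
    (((2, 4), (2, 5)), ((0, 1), (1, 1))),
    (((2, 7), (1, 0)), ((0, 1), (1, 1))),
    (((2, 0), (2, 1)), ((2, 3), (2, 6))),
    (((2, 0), (2, 1)), ((2, 3), (2, 4))),
    (((2, 1), (2, 2)), ((2, 3), (2, 6))),
    (((2, 1), (2, 2)), ((2, 4), (2, 5))),
    (((2, 2), (2, 7)), ((2, 3), (2, 6))),
    (((2, 3), (2, 6)), ((2, 4), (2, 5)))]

theorem swapNT_ok : tabB swapN swapNT = true := by decide +kernel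

/-- Pairs of inner vertices with the same abscissa. -/
def swapNX : List (ℕ × ℕ) := [(0, 3), (1, 4), (2, 5)]

theorem swapNX_ok : numB swapN swapNX = true := by decide +kernel

theorem swapN_trR : trR swapN =
    [((0, 1), (2, 1), (2, 3)), ((0, 1), (2, 1), (1, 1)), ((0, 1), (2, 3), (1, 1)), ((2, 3), (2, 6), (2, 4))] := by
  decide +kernel

theorem swapN_trL : trL swapN =
    [((2, 1), (0, 1), (2, 0))] := by
  decide +kernel

theorem swapN_q0_0 (lo ro o : ℕ → ℝ) : cfg swapN lo ro o (0, 0) = (0, lo 0) := by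
  norm_num [cfg, swapN]

theorem swapN_q0_1 (lo ro o : ℕ → ℝ) : cfg swapN lo ro o (0, 1) = (0, 192 + lo 1) := by
  norm_num [cfg, swapN]

theorem swapN_q1_0 (lo ro o : ℕ → ℝ) : cfg swapN lo ro o (1, 0) = (12, ro 0) := by
  norm_num [cfg, swapN]

theorem swapN_q1_1 (lo ro o : ℕ → ℝ) : cfg swapN lo ro o (1, 1) = (12, 192 + ro 1) := by
  norm_num [cfg, swapN]

theorem swapN_q2_0 (lo ro o : ℕ → ℝ) : cfg swapN lo ro o (2, 0) = (2, o 0) := by
  norm_num [cfg, swapN]

theorem swapN_q2_1 (lo ro o : ℕ → ℝ) : cfg swapN lo ro o (2, 1) = (4, o 1) := by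
  norm_num [cfg, swapN]

theorem swapN_q2_2 (lo ro o : ℕ → ℝ) : cfg swapN lo ro o (2, 2) = (6, o 2) := by
  norm_num [cfg, swapN]

theorem swapN_q2_3 (lo ro o : ℕ → ℝ) : cfg swapN lo ro o (2, 3) = (2, 96 + o 3) := by
  norm_num [cfg, swapN]

theorem swapN_q2_4 (lo ro o : ℕ → ℝ) : cfg swapN lo ro o (2, 4) = (4, 144 + o 4) := by
  norm_num [cfg, swapN]

theorem swapN_q2_5 (lo ro o : ℕ → ℝ) : cfg swapN lo ro o (2, 5) = (6, 192 + o 5) := by
  norm_num [cfg, swapN]

theorem swapN_q2_6 (lo ro o : ℕ → ℝ) : cfg swapN lo ro o (2, 6) = (8, o 6) := by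
  norm_num [cfg, swapN]

theorem swapN_q2_7 (lo ro o : ℕ → ℝ) : cfg swapN lo ro o (2, 7) = (10, o 7) := by
  norm_num [cfg, swapN]

theorem swapN_geo {lo ro o : ℕ → ℝ} (hl : ∀ i < 2, 0 < lo i ∧ lo i < 16)
    (hr : ∀ i < 2, 0 < ro i ∧ ro i < 16) (ho : OffOK swapN o)
    (g0 : lo 1 + o 1 < 2 * o 3)
    (g1 : 2 * o 5 < lo 1 + ro 1)
    (g2 : o 7 + o 2 < 2 * o 6)
    : GeoOK swapN (cfg swapN lo ro o) := by
  obtain ⟨l0a, l0b⟩ := hl 0 (by norm_num)
  obtain ⟨l1a, l1b⟩ := hl 1 (by norm_num)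
  obtain ⟨r0a, r0b⟩ := hr 0 (by norm_num)
  obtain ⟨r1a, r1b⟩ := hr 1 (by norm_num)
  obtain ⟨o0a, o0b⟩ := (ho 0 _ rfl).1 (by norm_num)
  obtain ⟨o1a, o1b⟩ := (ho 1 _ rfl).1 (by norm_num)
  obtain ⟨o2a, o2b⟩ := (ho 2 _ rfl).1 (by norm_num)
  obtain ⟨o3a, o3b⟩ := (ho 3 _ rfl).1 (by norm_num)
  obtain ⟨o4a, o4b⟩ := (ho 4 _ rfl).1 (by norm_num)
  obtain ⟨o5a, o5b⟩ := (ho 5 _ rfl).1 (by norm_num)
  obtain ⟨o6a, o6b⟩ := (ho 6 _ rfl).1 (by norm_num)
  obtain ⟨o7a, o7b⟩ := (ho 7 _ rfl).1 (by norm_num)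
  refine geo_of_cfg swapN_ok swapNX_ok hl hr ho ?_ ?_ swapNT_ok ?_ ?_
  · rw [swapN_trR]
    simp only [List.forall_mem_cons, swapN_q0_0 lo ro o, swapN_q0_1 lo ro o, swapN_q1_0 lo ro o, swapN_q1_1 lo ro o, swapN_q2_0 lo ro o, swapN_q2_1 lo ro o, swapN_q2_2 lo ro o, swapN_q2_3 lo ro o, swapN_q2_4 lo ro o, swapN_q2_5 lo ro o, swapN_q2_6 lo ro o, swapN_q2_7 lo ro o, cr]
    refine ⟨?_, ?_, ?_, ?_, by simp⟩ <;> linarith
  · rw [swapN_trL]
    simp only [List.forall_mem_cons, swapN_q0_0 lo ro o, swapN_q0_1 lo ro o, swapN_q1_0 lo ro o, swapN_q1_1 lo ro o, swapN_q2_0 lo ro o, swapN_q2_1 lo ro o, swapN_q2_2 lo ro o, swapN_q2_3 lo ro o, swapN_q2_4 lo ro o, swapN_q2_5 lo ro o, swapN_q2_6 lo ro o, swapN_q2_7 lo ro o, cr]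
    refine ⟨?_, by simp⟩ <;> linarith
  · unfold swapNT
    simp only [List.forall_mem_cons, swapN_q0_0 lo ro o, swapN_q0_1 lo ro o, swapN_q1_0 lo ro o, swapN_q1_1 lo ro o, swapN_q2_0 lo ro o, swapN_q2_1 lo ro o, swapN_q2_2 lo ro o, swapN_q2_3 lo ro o, swapN_q2_4 lo ro o, swapN_q2_5 lo ro o, swapN_q2_6 lo ro o, swapN_q2_7 lo ro o]
    refine ⟨?_, ?_, ?_, ?_, ?_, ?_, ?_, ?_, ?_, ?_, ?_, ?_, ?_, ?_, ?_, ?_, ?_, ?_, by simp⟩
    · exact disj_below (by norm_num) (by norm_num) 0 2 (by norm_num) (by norm_num)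
        (by simp only [hdiff]; linarith) (by simp only [hdiff]; linarith)
    · exact disj_below (by norm_num) (by norm_num) 0 2 (by norm_num) (by norm_num)
        (by simp only [hdiff]; linarith) (by simp only [hdiff]; linarith)
    · exact disj_below (by norm_num) (by norm_num) 0 2 (by norm_num) (by norm_num)
        (by simp only [hdiff]; linarith) (by simp only [hdiff]; linarith)
    · exact disj_below (by norm_num) (by norm_num) 2 4 (by norm_num) (by norm_num)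
        (by simp only [hdiff]; linarith) (by simp only [hdiff]; linarith)
    · exact disj_below (by norm_num) (by norm_num) 2 4 (by norm_num) (by norm_num)
        (by simp only [hdiff]; linarith) (by simp only [hdiff]; linarith)
    · exact disj_below (by norm_num) (by norm_num) 2 4 (by norm_num) (by norm_num)
        (by simp only [hdiff]; linarith) (by simp only [hdiff]; linarith)
    · exact disj_below (by norm_num) (by norm_num) 4 6 (by norm_num) (by norm_num)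
        (by simp only [hdiff]; linarith) (by simp only [hdiff]; linarith)
    · exact disj_below (by norm_num) (by norm_num) 6 10 (by norm_num) (by norm_num)
        (by simp only [hdiff]; linarith) (by simp only [hdiff]; linarith)
    · exact disj_below (by norm_num) (by norm_num) 2 8 (by norm_num) (by norm_num)
        (by simp only [hdiff]; linarith) (by simp only [hdiff]; linarith)
    · exact disj_below (by norm_num) (by norm_num) 2 4 (by norm_num) (by norm_num)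
        (by simp only [hdiff]; linarith) (by simp only [hdiff]; linarith)
    · exact disj_below (by norm_num) (by norm_num) 4 6 (by norm_num) (by norm_num)
        (by simp only [hdiff]; linarith) (by simp only [hdiff]; linarith)
    · exact disj_below (by norm_num) (by norm_num) 10 12 (by norm_num) (by norm_num)
        (by simp only [hdiff]; linarith) (by simp only [hdiff]; linarith)
    · exact disj_below (by norm_num) (by norm_num) 2 4 (by norm_num) (by norm_num)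
        (by simp only [hdiff]; linarith) (by simp only [hdiff]; linarith)
    · exact disj_below (by norm_num) (by norm_num) 2 4 (by norm_num) (by norm_num)
        (by simp only [hdiff]; linarith) (by simp only [hdiff]; linarith)
    · exact disj_below (by norm_num) (by norm_num) 4 6 (by norm_num) (by norm_num)
        (by simp only [hdiff]; linarith) (by simp only [hdiff]; linarith)
    · exact disj_below (by norm_num) (by norm_num) 4 6 (by norm_num) (by norm_num)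
        (by simp only [hdiff]; linarith) (by simp only [hdiff]; linarith)
    · exact disj_below (by norm_num) (by norm_num) 6 8 (by norm_num) (by norm_num)
        (by simp only [hdiff]; linarith) (by simp only [hdiff]; linarith)
    · exact disj_below (by norm_num) (by norm_num) 4 6 (by norm_num) (by norm_num)
        (by simp only [hdiff]; linarith) (by simp only [hdiff]; linarith)
  · unfold swapNX
    simp only [List.forall_mem_cons, swapN_q0_0 lo ro o, swapN_q0_1 lo ro o, swapN_q1_0 lo ro o, swapN_q1_1 lo ro o, swapN_q2_0 lo ro o, swapN_q2_1 lo ro o, swapN_q2_2 lo ro o, swapN_q2_3 lo ro o, swapN_q2_4 lo ro o, swapN_q2_5 lo ro o, swapN_q2_6 lo ro o, swapN_q2_7 lo ro o]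
    refine ⟨?_, ?_, ?_, by simp⟩ <;> (intro hc; linarith)

/-- The obstacles of the gadget swap. -/
def swapNO : List (ℕ × ℕ × ℕ) := [(1, 9, 17), (3, 0, 8), (5, 0, 8), (5, 57, 65), (3, 129, 137), (5, 168, 176), (11, 0, 8)]

/-- The pairs of an edge and an obstacle to be compared. -/
def swapNOT : List ((Ref × Ref) × (ℕ × ℕ × ℕ)) :=
  [(((0, 0), (2, 0)), (1, 9, 17)),
    (((0, 1), (2, 1)), (1, 9, 17)),
    (((0, 1), (2, 1)), (3, 0, 8)),
    (((0, 1), (2, 1)), (3, 129, 137)),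
    (((0, 1), (2, 3)), (1, 9, 17)),
    (((0, 1), (1, 1)), (1, 9, 17)),
    (((0, 1), (1, 1)), (3, 0, 8)),
    (((0, 1), (1, 1)), (5, 0, 8)),
    (((0, 1), (1, 1)), (5, 57, 65)),
    (((0, 1), (1, 1)), (3, 129, 137)),
    (((0, 1), (1, 1)), (5, 168, 176)),
    (((0, 1), (1, 1)), (11, 0, 8)),
    (((2, 0), (2, 1)), (3, 0, 8)),
    (((2, 0), (2, 1)), (3, 129, 137)),
    (((2, 1), (2, 2)), (5, 0, 8)),
    (((2, 1), (2, 2)), (5, 57, 65)),
    (((2, 1), (2, 2)), (5, 168, 176)),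
    (((2, 3), (2, 6)), (3, 0, 8)),
    (((2, 3), (2, 6)), (5, 0, 8)),
    (((2, 3), (2, 6)), (5, 57, 65)),
    (((2, 3), (2, 6)), (3, 129, 137)),
    (((2, 3), (2, 6)), (5, 168, 176)),
    (((2, 3), (2, 4)), (3, 0, 8)),
    (((2, 3), (2, 4)), (3, 129, 137)),
    (((2, 4), (2, 5)), (5, 0, 8)),
    (((2, 4), (2, 5)), (5, 57, 65)),
    (((2, 4), (2, 5)), (5, 168, 176)),
    (((2, 7), (1, 0)), (11, 0, 8))]

theorem swapNOT_ok : otabB swapN swapNO swapNOT = true := by decide +kernel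

theorem swapN_avoid {lo ro o : ℕ → ℝ} (hl : ∀ i < 2, 0 < lo i ∧ lo i < 16)
    (hr : ∀ i < 2, 0 < ro i ∧ ro i < 16) (ho : OffOK swapN o)
    (g0 : lo 0 + o 0 < 16)
    (g1 : 16 < o 0 + o 1)
    (g2 : 16 < o 1 + o 2)
    (g3 : o 3 + o 6 < 16)
    (g4 : o 3 + o 4 < 16)
    (g5 : 16 < o 4 + o 5)
    (g6 : 16 < o 7 + ro 0)
    : ∀ p ∈ swapNOT, Avoid (cfg swapN lo ro o p.1.1) (cfg swapN lo ro o p.1.2) p.2 := by
  obtain ⟨l0a, l0b⟩ := hl 0 (by norm_num)
  obtain ⟨l1a, l1b⟩ := hl 1 (by norm_num)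
  obtain ⟨r0a, r0b⟩ := hr 0 (by norm_num)
  obtain ⟨r1a, r1b⟩ := hr 1 (by norm_num)
  obtain ⟨o0a, o0b⟩ := (ho 0 _ rfl).1 (by norm_num)
  obtain ⟨o1a, o1b⟩ := (ho 1 _ rfl).1 (by norm_num)
  obtain ⟨o2a, o2b⟩ := (ho 2 _ rfl).1 (by norm_num)
  obtain ⟨o3a, o3b⟩ := (ho 3 _ rfl).1 (by norm_num)
  obtain ⟨o4a, o4b⟩ := (ho 4 _ rfl).1 (by norm_num)
  obtain ⟨o5a, o5b⟩ := (ho 5 _ rfl).1 (by norm_num)
  obtain ⟨o6a, o6b⟩ := (ho 6 _ rfl).1 (by norm_num)
  obtain ⟨o7a, o7b⟩ := (ho 7 _ rfl).1 (by norm_num)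
  unfold swapNOT
  simp only [List.forall_mem_cons, swapN_q0_0 lo ro o, swapN_q0_1 lo ro o, swapN_q1_0 lo ro o, swapN_q1_1 lo ro o, swapN_q2_0 lo ro o, swapN_q2_1 lo ro o, swapN_q2_2 lo ro o, swapN_q2_3 lo ro o, swapN_q2_4 lo ro o, swapN_q2_5 lo ro o, swapN_q2_6 lo ro o, swapN_q2_7 lo ro o]
  refine ⟨?_, ?_, ?_, ?_, ?_, ?_, ?_, ?_, ?_, ?_, ?_, ?_, ?_, ?_, ?_, ?_, ?_, ?_, ?_, ?_, ?_, ?_, ?_, ?_, ?_, ?_, ?_, ?_, by simp⟩
  · exact avoid_below (by norm_num) (by norm_num; linarith)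
  · exact avoid_above (by norm_num) (by norm_num; linarith)
  · exact avoid_above (by norm_num) (by norm_num; linarith)
  · exact avoid_below (by norm_num) (by norm_num; linarith)
  · exact avoid_above (by norm_num) (by norm_num; linarith)
  · exact avoid_above (by norm_num) (by norm_num; linarith)
  · exact avoid_above (by norm_num) (by norm_num; linarith)
  · exact avoid_above (by norm_num) (by norm_num; linarith)
  · exact avoid_above (by norm_num) (by norm_num; linarith)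
  · exact avoid_above (by norm_num) (by norm_num; linarith)
  · exact avoid_above (by norm_num) (by norm_num; linarith)
  · exact avoid_above (by norm_num) (by norm_num; linarith)
  · exact avoid_above (by norm_num) (by norm_num; linarith)
  · exact avoid_below (by norm_num) (by norm_num; linarith)
  · exact avoid_above (by norm_num) (by norm_num; linarith)
  · exact avoid_below (by norm_num) (by norm_num; linarith)
  · exact avoid_below (by norm_num) (by norm_num; linarith)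
  · exact avoid_above (by norm_num) (by norm_num; linarith)
  · exact avoid_above (by norm_num) (by norm_num; linarith)
  · exact avoid_below (by norm_num) (by norm_num; linarith)
  · exact avoid_below (by norm_num) (by norm_num; linarith)
  · exact avoid_below (by norm_num) (by norm_num; linarith)
  · exact avoid_above (by norm_num) (by norm_num; linarith)
  · exact avoid_below (by norm_num) (by norm_num; linarith)
  · exact avoid_above (by norm_num) (by norm_num; linarith)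
  · exact avoid_above (by norm_num) (by norm_num; linarith)
  · exact avoid_above (by norm_num) (by norm_num; linarith)
  · exact avoid_above (by norm_num) (by norm_num; linarith)

/-- The gadget lin. -/
def linN : Gadget :=
  ([(2, 384, 0, [(0, 2)], [(2, 1)]), (4, 384, 0, [(2, 0), (0, 0)], []), (2, 192, 0, [(0, 1)], [])],
    [[(2, 1)], [(2, 2)], [(2, 0)]],
    [])

theorem linN_ok : GadOK linN := by decide +kernel

/-- The pairs of edges to be compared. -/
def linNT : List ((Ref × Ref) × (Ref × Ref)) :=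
  [(((0, 0), (2, 1)), ((0, 1), (2, 2))),
    (((0, 0), (2, 1)), ((0, 2), (2, 0))),
    (((0, 1), (2, 2)), ((0, 2), (2, 0)))]

theorem linNT_ok : tabB linN linNT = true := by decide +kernel

/-- Pairs of inner vertices with the same abscissa. -/
def linNX : List (ℕ × ℕ) := [(0, 2)]

theorem linNX_ok : numB linN linNX = true := by decide +kernel

theorem linN_trR : trR linN =
    [] := by
  decide +kernel

theorem linN_trL : trL linN =
    [((2, 1), (2, 0), (0, 0))] := by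
  decide +kernel

theorem linN_q0_0 (lo ro o : ℕ → ℝ) : cfg linN lo ro o (0, 0) = (0, lo 0) := by
  norm_num [cfg, linN]

theorem linN_q0_1 (lo ro o : ℕ → ℝ) : cfg linN lo ro o (0, 1) = (0, 192 + lo 1) := by
  norm_num [cfg, linN]

theorem linN_q0_2 (lo ro o : ℕ → ℝ) : cfg linN lo ro o (0, 2) = (0, 384 + lo 2) := by
  norm_num [cfg, linN]

theorem linN_q2_0 (lo ro o : ℕ → ℝ) : cfg linN lo ro o (2, 0) = (2, 384 + o 0) := by
  norm_num [cfg, linN]

theorem linN_q2_1 (lo ro o : ℕ → ℝ) : cfg linN lo ro o (2, 1) = (4, 384 + o 1) := by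
  norm_num [cfg, linN]

theorem linN_q2_2 (lo ro o : ℕ → ℝ) : cfg linN lo ro o (2, 2) = (2, 192 + o 2) := by
  norm_num [cfg, linN]

theorem linN_geo {lo ro o : ℕ → ℝ} (hl : ∀ i < 3, 0 < lo i ∧ lo i < 16)
    (hr : ∀ i < 0, 0 < ro i ∧ ro i < 16) (ho : OffOK linN o)
    (g0 : lo 0 + o 1 < 2 * o 2)
    : GeoOK linN (cfg linN lo ro o) := by
  obtain ⟨l0a, l0b⟩ := hl 0 (by norm_num)
  obtain ⟨l1a, l1b⟩ := hl 1 (by norm_num)
  obtain ⟨l2a, l2b⟩ := hl 2 (by norm_num)
  obtain ⟨o0a, o0b⟩ := (ho 0 _ rfl).1 (by norm_num)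
  obtain ⟨o1a, o1b⟩ := (ho 1 _ rfl).1 (by norm_num)
  obtain ⟨o2a, o2b⟩ := (ho 2 _ rfl).1 (by norm_num)
  refine geo_of_cfg linN_ok linNX_ok hl hr ho ?_ ?_ linNT_ok ?_ ?_
  · rw [linN_trR]
    simp
  · rw [linN_trL]
    simp only [List.forall_mem_cons, linN_q0_0 lo ro o, linN_q0_1 lo ro o, linN_q0_2 lo ro o, linN_q2_0 lo ro o, linN_q2_1 lo ro o, linN_q2_2 lo ro o, cr]
    refine ⟨?_, by simp⟩ <;> linarith
  · unfold linNT
    simp only [List.forall_mem_cons, linN_q0_0 lo ro o, linN_q0_1 lo ro o, linN_q0_2 lo ro o, linN_q2_0 lo ro o, linN_q2_1 lo ro o, linN_q2_2 lo ro o]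
    refine ⟨?_, ?_, ?_, by simp⟩
    · exact disj_below (by norm_num) (by norm_num) 0 2 (by norm_num) (by norm_num)
        (by simp only [hdiff]; linarith) (by simp only [hdiff]; linarith)
    · exact disj_below (by norm_num) (by norm_num) 0 2 (by norm_num) (by norm_num)
        (by simp only [hdiff]; linarith) (by simp only [hdiff]; linarith)
    · exact disj_below (by norm_num) (by norm_num) 0 2 (by norm_num) (by norm_num)
        (by simp only [hdiff]; linarith) (by simp only [hdiff]; linarith)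
  · unfold linNX
    simp only [List.forall_mem_cons, linN_q0_0 lo ro o, linN_q0_1 lo ro o, linN_q0_2 lo ro o, linN_q2_0 lo ro o, linN_q2_1 lo ro o, linN_q2_2 lo ro o]
    refine ⟨?_, by simp⟩ <;> (intro hc; linarith)

/-- The obstacles of the gadget lin. -/
def linNO : List (ℕ × ℕ × ℕ) := [(1, 393, 401), (3, 384, 392), (1, 201, 209)]

/-- The pairs of an edge and an obstacle to be compared. -/
def linNOT : List ((Ref × Ref) × (ℕ × ℕ × ℕ)) :=
  [(((0, 0), (2, 1)), (1, 393, 401)),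
    (((0, 0), (2, 1)), (3, 384, 392)),
    (((0, 0), (2, 1)), (1, 201, 209)),
    (((0, 1), (2, 2)), (1, 393, 401)),
    (((0, 1), (2, 2)), (1, 201, 209)),
    (((0, 2), (2, 0)), (1, 393, 401)),
    (((0, 2), (2, 0)), (1, 201, 209)),
    (((2, 0), (2, 1)), (3, 384, 392))]

theorem linNOT_ok : otabB linN linNO linNOT = true := by decide +kernel

theorem linN_avoid {lo ro o : ℕ → ℝ} (hl : ∀ i < 3, 0 < lo i ∧ lo i < 16)
    (hr : ∀ i < 0, 0 < ro i ∧ ro i < 16) (ho : OffOK linN o)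
    (g0 : lo 2 + o 0 < 16)
    (g1 : 16 < o 0 + o 1)
    (g2 : lo 1 + o 2 < 16)
    : ∀ p ∈ linNOT, Avoid (cfg linN lo ro o p.1.1) (cfg linN lo ro o p.1.2) p.2 := by
  obtain ⟨l0a, l0b⟩ := hl 0 (by norm_num)
  obtain ⟨l1a, l1b⟩ := hl 1 (by norm_num)
  obtain ⟨l2a, l2b⟩ := hl 2 (by norm_num)
  obtain ⟨o0a, o0b⟩ := (ho 0 _ rfl).1 (by norm_num)
  obtain ⟨o1a, o1b⟩ := (ho 1 _ rfl).1 (by norm_num)
  obtain ⟨o2a, o2b⟩ := (ho 2 _ rfl).1 (by norm_num)
  unfold linNOT
  simp only [List.forall_mem_cons, linN_q0_0 lo ro o, linN_q0_1 lo ro o, linN_q0_2 lo ro o, linN_q2_0 lo ro o, linN_q2_1 lo ro o, linN_q2_2 lo ro o]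
  refine ⟨?_, ?_, ?_, ?_, ?_, ?_, ?_, ?_, by simp⟩
  · exact avoid_below (by norm_num) (by norm_num; linarith)
  · exact avoid_below (by norm_num) (by norm_num; linarith)
  · exact avoid_below (by norm_num) (by norm_num; linarith)
  · exact avoid_below (by norm_num) (by norm_num; linarith)
  · exact avoid_below (by norm_num) (by norm_num; linarith)
  · exact avoid_below (by norm_num) (by norm_num; linarith)
  · exact avoid_above (by norm_num) (by norm_num; linarith)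
  · exact avoid_above (by norm_num) (by norm_num; linarith)

/-- The gadget prod. -/
def prodN : Gadget :=
  ([(2, 0, 0, [(0, 0)], [(2, 1)]), (6, 0, 7, [(2, 0)], []), (2, 104, 0, [(0, 1)], [(2, 3)]), (4, 16, 0, [(2, 2)], [(2, 5)]), (6, 4, 0, [(0, 2)], []), (7, 0, 2, [(2, 3), (2, 6)], []), (4, 15, 4, [], [(2, 5)])],
    [[(2, 0)], [(2, 2)], [(2, 4)]],
    [])

theorem prodN_ok : GadOK prodN := by decide +kernel

/-- The pairs of edges to be compared. -/
def prodNT : List ((Ref × Ref) × (Ref × Ref)) :=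
  [(((0, 0), (2, 0)), ((0, 1), (2, 2))),
    (((0, 0), (2, 0)), ((0, 2), (2, 4))),
    (((0, 1), (2, 2)), ((0, 2), (2, 4))),
    (((2, 0), (2, 1)), ((0, 2), (2, 4))),
    (((2, 2), (2, 3)), ((0, 2), (2, 4))),
    (((2, 3), (2, 5)), ((0, 2), (2, 4))),
    (((2, 6), (2, 5)), ((0, 2), (2, 4))),
    (((2, 0), (2, 1)), ((2, 2), (2, 3))),
    (((2, 0), (2, 1)), ((2, 3), (2, 5))),
    (((2, 0), (2, 1)), ((2, 6), (2, 5)))]

theorem prodNT_ok : tabB prodN prodNT = true := by decide +kernel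

/-- Pairs of inner vertices with the same abscissa. -/
def prodNX : List (ℕ × ℕ) := [(0, 2), (1, 4), (3, 6)]

theorem prodNX_ok : numB prodN prodNX = true := by decide +kernel

theorem prodN_trR : trR prodN =
    [] := by
  decide +kernel

theorem prodN_trL : trL prodN =
    [((2, 5), (2, 3), (2, 6))] := by
  decide +kernel

theorem prodN_q0_0 (lo ro o : ℕ → ℝ) : cfg prodN lo ro o (0, 0) = (0, lo 0) := by
  norm_num [cfg, prodN]

theorem prodN_q0_1 (lo ro o : ℕ → ℝ) : cfg prodN lo ro o (0, 1) = (0, 192 + lo 1) := by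
  norm_num [cfg, prodN]

theorem prodN_q0_2 (lo ro o : ℕ → ℝ) : cfg prodN lo ro o (0, 2) = (0, 384 + lo 2) := by
  norm_num [cfg, prodN]

theorem prodN_q2_0 (lo ro o : ℕ → ℝ) : cfg prodN lo ro o (2, 0) = (2, o 0) := by
  norm_num [cfg, prodN]

theorem prodN_q2_1 (lo ro o : ℕ → ℝ) : cfg prodN lo ro o (2, 1) = (6, o 1) := by
  norm_num [cfg, prodN]

theorem prodN_q2_2 (lo ro o : ℕ → ℝ) : cfg prodN lo ro o (2, 2) = (2, 104 + o 2) := by
  norm_num [cfg, prodN]

theorem prodN_q2_3 (lo ro o : ℕ → ℝ) : cfg prodN lo ro o (2, 3) = (4, 16 + o 3) := by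
  norm_num [cfg, prodN]

theorem prodN_q2_4 (lo ro o : ℕ → ℝ) : cfg prodN lo ro o (2, 4) = (6, 4 + o 4) := by
  norm_num [cfg, prodN]

theorem prodN_q2_5 (lo ro o : ℕ → ℝ) : cfg prodN lo ro o (2, 5) = (o 5, 0) := by
  norm_num [cfg, prodN]

theorem prodN_q2_6 (lo ro o : ℕ → ℝ) : cfg prodN lo ro o (2, 6) = (4, 15 + o 6) := by
  norm_num [cfg, prodN]

theorem prodN_geo {lo ro o : ℕ → ℝ} (hl : ∀ i < 3, 0 < lo i ∧ lo i < 16)
    (hr : ∀ i < 0, 0 < ro i ∧ ro i < 16) (ho : OffOK prodN o)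
    (g0 : (16 + o 3) * (o 5 - 6) < (4 + o 4) * (o 5 - 4))
    (g1 : o 1 * (o 5 - 4) < (15 + o 6) * (o 5 - 6))
    (g2 : o 6 < 1)
    (g3 : o 1 < 14)
    : GeoOK prodN (cfg prodN lo ro o) := by
  obtain ⟨l0a, l0b⟩ := hl 0 (by norm_num)
  obtain ⟨l1a, l1b⟩ := hl 1 (by norm_num)
  obtain ⟨l2a, l2b⟩ := hl 2 (by norm_num)
  obtain ⟨o0a, o0b⟩ := (ho 0 _ rfl).1 (by norm_num)
  obtain ⟨o1a, o1b⟩ := (ho 1 _ rfl).1 (by norm_num)
  obtain ⟨o2a, o2b⟩ := (ho 2 _ rfl).1 (by norm_num)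
  obtain ⟨o3a, o3b⟩ := (ho 3 _ rfl).1 (by norm_num)
  obtain ⟨o4a, o4b⟩ := (ho 4 _ rfl).1 (by norm_num)
  obtain ⟨o5a, o5b⟩ := (ho 5 _ rfl).2 rfl
  norm_num at o5a o5b
  obtain ⟨o6a, o6b⟩ := (ho 6 _ rfl).1 (by norm_num)
  have v6 : 0 < o 5 - 6 := by linarith
  have v4 : 0 < o 5 - 4 := by linarith
  have w6 : 0 < o 3 * (o 5 - 6) := mul_pos o3a v6
  have w4 : 0 < o 3 * (o 5 - 4) := mul_pos o3a v4
  have w4b : 0 < (16 - o 3) * (o 5 - 4) := mul_pos (by linarith) v4
  have m4 : 0 < (1 - o 6) * (o 5 - 4) := mul_pos (by linarith) v4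
  have m6 : 0 < (1 - o 6) * (o 5 - 6) := mul_pos (by linarith) v6
  have n4 : 0 < o 6 * (o 5 - 4) := mul_pos o6a v4
  have n6 : 0 < o 6 * (o 5 - 6) := mul_pos o6a v6
  have m4b : 0 < (14 - o 1) * (o 5 - 4) := mul_pos (by linarith) v4
  have m4c : 0 < (16 - o 0) * (o 5 - 4) := mul_pos (by linarith) v4
  have c4 : 0 < lo 2 * (o 5 - 4) := mul_pos l2a v4
  have u4 : 0 < o 4 * (o 5 - 4) := mul_pos o4a v4
  have u6 : 0 < o 4 * (o 5 - 6) := mul_pos o4a v6
  have um : o 1 < 4 + o 4 := by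
    by_contra hc
    rw [not_lt] at hc
    have := mul_le_mul_of_nonneg_right hc v4.le
    linarith
  refine geo_of_cfg prodN_ok prodNX_ok hl hr ho ?_ ?_ prodNT_ok ?_ ?_
  · rw [prodN_trR]
    simp
  · rw [prodN_trL]
    simp only [List.forall_mem_cons, prodN_q0_0 lo ro o, prodN_q0_1 lo ro o, prodN_q0_2 lo ro o, prodN_q2_0 lo ro o, prodN_q2_1 lo ro o, prodN_q2_2 lo ro o, prodN_q2_3 lo ro o, prodN_q2_4 lo ro o, prodN_q2_5 lo ro o, prodN_q2_6 lo ro o, cr]
    refine ⟨?_, by simp⟩ <;> linarith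
  · unfold prodNT
    simp only [List.forall_mem_cons, prodN_q0_0 lo ro o, prodN_q0_1 lo ro o, prodN_q0_2 lo ro o, prodN_q2_0 lo ro o, prodN_q2_1 lo ro o, prodN_q2_2 lo ro o, prodN_q2_3 lo ro o, prodN_q2_4 lo ro o, prodN_q2_5 lo ro o, prodN_q2_6 lo ro o]
    refine ⟨?_, ?_, ?_, ?_, ?_, ?_, ?_, ?_, ?_, ?_, by simp⟩
    · exact disj_below (by norm_num) (by norm_num) 0 2 (by norm_num) (by norm_num)
        (by simp only [hdiff]; linarith) (by simp only [hdiff]; linarith)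
    · exact disj_below (by norm_num) (by norm_num) 0 2 (by norm_num) (by norm_num)
        (by simp only [hdiff]; linarith) (by simp only [hdiff]; linarith)
    · exact disj_below (by norm_num) (by norm_num) 0 2 (by norm_num) (by norm_num)
        (by simp only [hdiff]; linarith) (by simp only [hdiff]; linarith)
    · exact disj_below (by norm_num) (by norm_num) 2 6 (by norm_num) (by norm_num)
        (by simp only [hdiff]; linarith) (by simp only [hdiff]; linarith)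
    · exact disj_below (by norm_num) (by norm_num) 2 4 (by norm_num) (by norm_num)
        (by simp only [hdiff]; linarith) (by simp only [hdiff]; linarith)
    · exact disj_below (by simp only; linarith) (by simp only; linarith) 4 6 (by norm_num) (by norm_num)
        (by simp only [hdiff]; linarith) (by simp only [hdiff]; linarith)
    · exact disj_below (by simp only; linarith) (by simp only; linarith) 4 6 (by norm_num) (by norm_num)
        (by simp only [hdiff]; linarith) (by simp only [hdiff]; linarith)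
    · exact disj_below (by norm_num) (by norm_num) 2 4 (by norm_num) (by norm_num)
        (by simp only [hdiff]; linarith) (by simp only [hdiff]; linarith)
    · exact disj_below (by simp only; linarith) (by simp only; linarith) 4 6 (by norm_num) (by norm_num)
        (by simp only [hdiff]; linarith) (by simp only [hdiff]; linarith)
    · exact disj_below (by simp only; linarith) (by simp only; linarith) 4 6 (by norm_num) (by norm_num)
        (by simp only [hdiff]; linarith) (by simp only [hdiff]; linarith)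
  · unfold prodNX
    simp only [List.forall_mem_cons, prodN_q0_0 lo ro o, prodN_q0_1 lo ro o, prodN_q0_2 lo ro o, prodN_q2_0 lo ro o, prodN_q2_1 lo ro o, prodN_q2_2 lo ro o, prodN_q2_3 lo ro o, prodN_q2_4 lo ro o, prodN_q2_5 lo ro o, prodN_q2_6 lo ro o]
    refine ⟨?_, ?_, ?_, by simp⟩ <;> (intro hc; linarith)

/-- The obstacles of the gadget prod. -/
def prodNO : List (ℕ × ℕ × ℕ) := [(1, 9, 17), (4, 0, 8), (1, 157, 165), (3, 60, 68), (3, 203, 211)]

/-- The pairs of an edge and an obstacle to be compared. -/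
def prodNOT : List ((Ref × Ref) × (ℕ × ℕ × ℕ)) :=
  [(((0, 0), (2, 0)), (1, 9, 17)),
    (((0, 0), (2, 0)), (1, 157, 165)),
    (((0, 1), (2, 2)), (1, 9, 17)),
    (((0, 1), (2, 2)), (1, 157, 165)),
    (((0, 2), (2, 4)), (1, 9, 17)),
    (((0, 2), (2, 4)), (4, 0, 8)),
    (((0, 2), (2, 4)), (1, 157, 165)),
    (((0, 2), (2, 4)), (3, 60, 68)),
    (((0, 2), (2, 4)), (3, 203, 211)),
    (((2, 0), (2, 1)), (4, 0, 8)),
    (((2, 0), (2, 1)), (3, 60, 68)),
    (((2, 0), (2, 1)), (3, 203, 211)),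
    (((2, 2), (2, 3)), (4, 0, 8)),
    (((2, 2), (2, 3)), (3, 60, 68)),
    (((2, 2), (2, 3)), (3, 203, 211)),
    (((2, 3), (2, 5)), (4, 0, 8)),
    (((2, 6), (2, 5)), (4, 0, 8))]

theorem prodNOT_ok : otabB prodN prodNO prodNOT = true := by decide +kernel

theorem prodN_avoid {lo ro o : ℕ → ℝ} (hl : ∀ i < 3, 0 < lo i ∧ lo i < 16)
    (hr : ∀ i < 0, 0 < ro i ∧ ro i < 16) (ho : OffOK prodN o)
    (g0 : lo 0 + o 0 < 16)
    (g1 : 16 < o 0 + o 1)
    (g2 : lo 1 + o 2 < 16)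
    (g3 : 16 < o 2 + o 3)
    (g4 : lo 2 + o 4 < 16)
    : ∀ p ∈ prodNOT, Avoid (cfg prodN lo ro o p.1.1) (cfg prodN lo ro o p.1.2) p.2 := by
  obtain ⟨l0a, l0b⟩ := hl 0 (by norm_num)
  obtain ⟨l1a, l1b⟩ := hl 1 (by norm_num)
  obtain ⟨l2a, l2b⟩ := hl 2 (by norm_num)
  obtain ⟨o0a, o0b⟩ := (ho 0 _ rfl).1 (by norm_num)
  obtain ⟨o1a, o1b⟩ := (ho 1 _ rfl).1 (by norm_num)
  obtain ⟨o2a, o2b⟩ := (ho 2 _ rfl).1 (by norm_num)
  obtain ⟨o3a, o3b⟩ := (ho 3 _ rfl).1 (by norm_num)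
  obtain ⟨o4a, o4b⟩ := (ho 4 _ rfl).1 (by norm_num)
  obtain ⟨o5a, o5b⟩ := (ho 5 _ rfl).2 rfl
  norm_num at o5a o5b
  obtain ⟨o6a, o6b⟩ := (ho 6 _ rfl).1 (by norm_num)
  have v4 : 0 < o 5 - 4 := by linarith
  have w4 : 0 < o 3 * (o 5 - 4) := mul_pos o3a v4
  have n4 : 0 < o 6 * (o 5 - 4) := mul_pos o6a v4
  unfold prodNOT
  simp only [List.forall_mem_cons, prodN_q0_0 lo ro o, prodN_q0_1 lo ro o, prodN_q0_2 lo ro o, prodN_q2_0 lo ro o, prodN_q2_1 lo ro o, prodN_q2_2 lo ro o, prodN_q2_3 lo ro o, prodN_q2_4 lo ro o, prodN_q2_5 lo ro o, prodN_q2_6 lo ro o]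
  refine ⟨?_, ?_, ?_, ?_, ?_, ?_, ?_, ?_, ?_, ?_, ?_, ?_, ?_, ?_, ?_, ?_, ?_, by simp⟩
  · exact avoid_below (by norm_num) (by norm_num; linarith)
  · exact avoid_below (by norm_num) (by norm_num; linarith)
  · exact avoid_above (by norm_num) (by norm_num; linarith)
  · exact avoid_below (by norm_num) (by norm_num; linarith)
  · exact avoid_above (by norm_num) (by norm_num; linarith)
  · exact avoid_above (by norm_num) (by norm_num; linarith)
  · exact avoid_above (by norm_num) (by norm_num; linarith)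
  · exact avoid_above (by norm_num) (by norm_num; linarith)
  · exact avoid_below (by norm_num) (by norm_num; linarith)
  · exact avoid_above (by norm_num) (by norm_num; linarith)
  · exact avoid_below (by norm_num) (by norm_num; linarith)
  · exact avoid_below (by norm_num) (by norm_num; linarith)
  · exact avoid_above (by norm_num) (by norm_num; linarith)
  · exact avoid_above (by norm_num) (by norm_num; linarith)
  · exact avoid_below (by norm_num) (by norm_num; linarith)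
  · exact avoid_above (by simp only; linarith) (by norm_num; linarith)
  · exact avoid_above (by simp only; linarith) (by norm_num; linarith)

end Pool.Agent.H678.SegObs
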