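import Pool.Agent.H678.SegObs.PolyN

/-!
# Hardness of segment drawing with obstacles, the embedding not fixed
-/

namespace Pool.Agent.H678.SegObs

open Pool.Agent.NPC
open Pool.Agent.K4H90.SegDraw (Seg toR datOf_ok ERHardOn)

/-- All segments of the instance have two different end points and are axis-parallel (the obstacles
are even vertical), and they are all closed (`cl = true`) or all open (`cl = false`). -/
structure Inst.AxisParallel (cl : Bool) (I : Inst) : Prop where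
  verts : ∀ e ∈ I.verts, e.2.p ≠ e.2.q ∧ e.2.closed = cl ∧
    (e.2.p.1 = e.2.q.1 ∨ e.2.p.2 = e.2.q.2)
  obstacles : ∀ s ∈ I.obstacles, s.p ≠ s.q ∧ s.closed = cl ∧ s.p.1 = s.q.1

theorem kab_lt (k : ℕ) : ka k < kb k := by unfold ka kb; split_ifs <;> omega

theorem mkSegN_prop (cl : Bool) (X Y k : ℕ) : (mkSegN cl X Y k).p ≠ (mkSegN cl X Y k).q ∧
    (mkSegN cl X Y k).closed = cl ∧ ((mkSegN cl X Y k).p.1 = (mkSegN cl X Y k).q.1 ∨
      (mkSegN cl X Y k).p.2 = (mkSegN cl X Y k).q.2) := by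
  unfold mkSegN
  split_ifs with h
  · refine ⟨?_, rfl, Or.inr rfl⟩
    intro hc
    rw [Prod.mk.injEq] at hc
    have := hc.1
    push_cast at this
    linarith
  · refine ⟨?_, rfl, Or.inl rfl⟩
    intro hc
    rw [Prod.mk.injEq] at hc
    have h1 := hc.2
    have h2 := kab_lt k
    have h3 : Y + ka k = Y + kb k := by exact_mod_cast h1
    omega

theorem mkObs_prop (cl : Bool) (X Y a b : ℕ) (hab : a ≤ b) :
    (mkObs cl X Y a b).p ≠ (mkObs cl X Y a b).q ∧
    (mkObs cl X Y a b).closed = cl ∧ (mkObs cl X Y a b).p.1 = (mkObs cl X Y a b).q.1 := by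
  unfold mkObs
  refine ⟨?_, rfl, rfl⟩
  intro hc
  rw [Prod.mk.injEq] at hc
  have h1 := hc.2
  push_cast at h1
  have h2 : (a : ℚ) ≤ (b : ℚ) := by exact_mod_cast hab
  linarith

theorem red_axis (cl : Bool) (S : List ER.Con) : (H678SegObs.red cl S).AxisParallel cl where
  verts := by
    intro e he
    rcases mem_vertsN.1 he with ⟨l, hl, k, hk, h0, rfl⟩ | ⟨l, hl, b, hb, i, w, hw, rfl⟩
    · exact mkSegN_prop _ _ _ _
    · exact mkSegN_prop _ _ _ _
  obstacles := by
    intro s hs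
    obtain ⟨l, hl, b, hb, ob, hob, rfl⟩ := mem_obstN.1 hs
    exact mkObs_prop _ _ _ _ _ (obsN_x _ ob hob).2.2.1

theorem red_simple (cl : Bool) (S : List ER.Con) : (H678SegObs.red cl S).Simple :=
  simpleN (dia_okN (datOf_ok (strictN_ne_nil S))) ⟨_, _, good_refN⟩

theorem red_planar (cl : Bool) (S : List ER.Con) : (H678SegObs.red cl S).Planar :=
  ⟨_, isDrawingN (dia_okN (datOf_ok (strictN_ne_nil S))) good_refN⟩

theorem red_correct {X : ℝ × ℝ → ℝ × ℝ → Seg → Prop}
    (h1 : ∀ P Q s, ProperlyCrosses P Q s → X P Q s) (h2 : ∀ P Q s, X P Q s → Meets P Q s)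
    (cl : Bool) (S : List ER.Con) : ER.Sat S ↔ (H678SegObs.red cl S).Solvable X := by
  constructor
  · intro h
    obtain ⟨v, hv, hc, hs⟩ := strictN_complete h
    exact solvable_ofN _ (strictN_ne_nil S) hv hc hs h2
  · intro h
    obtain ⟨v, hv, hc, hs⟩ := of_solvableN _ (strictN_ne_nil S) h1 h
    exact strictN_sound hv hc hs

/-- **Hardness.** -/
theorem hard {X : ℝ × ℝ → ℝ × ℝ → Seg → Prop}
    (h1 : ∀ P Q s, ProperlyCrosses P Q s → X P Q s) (h2 : ∀ P Q s, X P Q s → Meets P Q s)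
    (cl : Bool) : ERHardOn (fun I : Inst => I.Simple ∧ I.Planar ∧ I.AxisParallel cl)
      (Inst.Solvable X) :=
  ERHardOn.of_sys (H678SegObs.poly_red cl)
    (fun S => ⟨red_simple cl S, red_planar cl S, red_axis cl S⟩) (red_correct h1 h2 cl)

end Pool.Agent.H678.SegObs
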