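import Pool.Agent.H678.SegObs.Build

/-!
# Obstacles: the edges of a good configuration avoid them; what a drawing forces
-/

namespace Pool.Agent.H678.SegObs

open Pool.Agent.K4H90.SegDraw (Seg toR Gadget Ref Row refs rl ll edgesOf mem_edgesOf mem_refs GadOK
  GeoOK ht emptyG Dia nm nm_inj root cfg cfg_lp cfg_rp cfg_inn NC pl pl_inj mem_segment_pl xlo xhi
  seg_lin seg_x seg_left seg_right pts_of_open seg_of_pts seg_line pl_surj)
open Pool.Agent.K4H90.SegDraw.Dia (Good)

variable {G : Dia} {os : ℕ → ℕ → List (ℕ × ℕ × ℕ)} {cl : Bool}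

/-- Conditions on the obstacles. -/
structure OsOK (G : Dia) (os : ℕ → ℕ → List (ℕ × ℕ × ℕ)) : Prop where
  x : ∀ l b, ∀ ob ∈ os l b, 1 ≤ ob.1 ∧ ob.1 ≤ 11
  x0 : ∀ b, ∀ ob ∈ os 0 b, 3 ≤ ob.1 ∧ ob.2.2 ≤ 17
  top : ∀ l b, ∀ ob ∈ os l b, ob.2.2 < 192 * ht (G.gad l b)
  ne : ∀ l b, ∀ ob ∈ os l b, G.gad l b ≠ emptyG

theorem of_mkObs {X Y a b : ℕ} {p : ℝ × ℝ}
    (h : p ∈ segment ℝ (toR (mkObs cl X Y a b).p) (toR (mkObs cl X Y a b).q)) :
    p.1 = X ∧ min ((Y : ℝ) + a - 1) (Y + b) ≤ p.2 ∧ p.2 ≤ max ((Y : ℝ) + a - 1) (Y + b) := by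
  have bd : ∀ α β γ : ℝ, α * (toR (mkObs cl X Y a b).p).1 + β * (toR (mkObs cl X Y a b).p).2 ≤ γ →
    α * (toR (mkObs cl X Y a b).q).1 + β * (toR (mkObs cl X Y a b).q).2 ≤ γ →
    α * p.1 + β * p.2 ≤ γ := fun α β γ => seg_lin h
  unfold mkObs toR at bd
  have e1 := bd 1 0 X
  have e2 := bd (-1) 0 (-X)
  have e3 := bd 0 1 (max ((Y : ℝ) + a - 1) (Y + b))
  have e4 := bd 0 (-1) (-(min ((Y : ℝ) + a - 1) (Y + b)))
  push_cast at e1 e2 e3 e4
  have m1 := le_max_left ((Y : ℝ) + a - 1) (Y + b)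
  have m2 := le_max_right ((Y : ℝ) + a - 1) (Y + b)
  have m3 := min_le_left ((Y : ℝ) + a - 1) (Y + b)
  have m4 := min_le_right ((Y : ℝ) + a - 1) (Y + b)
  have f1 := e1 (by linarith) (by linarith)
  have f2 := e2 (by linarith) (by linarith)
  have f3 := e3 (by linarith) (by linarith)
  have f4 := e4 (by linarith) (by linarith)
  refine ⟨by linarith, by linarith, by linarith⟩

/-- Points of the column 0 cells are in their strips. -/
theorem strip0 (h : G.OK) {t : ℕ → ℕ → ℝ} {o : ℕ → ℕ → ℕ → ℝ} (hG : Good G t o) {b : ℕ}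
    (hb : b < G.N) {r : Ref} (hr : r ∈ refs (G.gad 0 b)) :
    0 ≤ (G.q t o 0 b r).2 ∧ (G.q t o 0 b r).2 ≤ 16 := by
  have hgeo := hG.geo 0 h.hC b hb
  have hc0 := h.c0 b hb
  have hht : ht (G.gad 0 b) = 1 := by unfold ht; rw [hc0.1, hc0.2]; rfl
  rcases Dia.ref_cases hr with ⟨i, hi, rfl⟩ | ⟨i, hi, rfl⟩ | ⟨i, hi, rfl⟩
  · have e : i = 0 := by omega
    subst e
    obtain ⟨k1, k2, k3⟩ := hgeo.lp 0 hi
    push_cast at k2 k3
    constructor <;> linarith
  · have e : i = 0 := by omega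
    subst e
    obtain ⟨k1, k2, k3⟩ := hgeo.rp 0 hi
    push_cast at k2 k3
    constructor <;> linarith
  · obtain ⟨k1, k2, k3, k4⟩ := hgeo.inn i hi
    rw [hht] at k4
    push_cast at k4
    constructor <;> linarith

theorem avoid_all (h : G.OK) {t : ℕ → ℕ → ℝ} {o : ℕ → ℕ → ℕ → ℝ} (hG : Good G t o)
    (hO : OsOK G os)
    (hA : ∀ l < G.C, ∀ b < G.N, ∀ e ∈ edgesOf (G.gad l b), ∀ ob ∈ os l b,
      ob.2.1 ≤ ob.2.2 ∧ Avoid (G.q t o l b e.1) (G.q t o l b e.2) ob)
    (hab : ∀ l b, ∀ ob ∈ os l b, ob.2.1 ≤ ob.2.2) :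
    ∀ e ∈ (instN G os cl).edges, ∀ s ∈ (instN G os cl).obstacles,
      ∀ p ∈ segment ℝ (G.pos t o e.1) (G.pos t o e.2), p ∉ segment ℝ (toR s.p) (toR s.q) := by
  intro e he s hs p hp hp'
  obtain ⟨l, hl, b, hb, x, r, hx, hr, rfl⟩ := mem_edgesN.1 he
  obtain ⟨l', hl', b', hb', ob, hob, rfl⟩ := mem_obstN.1 hs
  have hr0 := ((h.ok l hl b hb).1 _ hx _ hr).1
  have hab' := hab _ _ _ hob
  obtain ⟨q1, q2, q3⟩ := of_mkObs hp'
  have hable : ((ob.2.1 : ℕ) : ℝ) ≤ (ob.2.2 : ℕ) := by exact_mod_cast hab'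
  rw [min_eq_left (by linarith)] at q2
  rw [max_eq_right (by linarith)] at q3
  push_cast [Nat.cast_sub (Dia.hb_le h l' b')] at q1 q2 q3
  obtain ⟨o1, o2⟩ := hO.x _ _ _ hob
  have o1' : (1 : ℝ) ≤ (ob.1 : ℝ) := by exact_mod_cast o1
  have o2' : (ob.1 : ℝ) ≤ 11 := by exact_mod_cast o2
  simp only at hp
  have Hs := Dia.hull_res h hG hl hb hx
  have Hr := Dia.hull_res h hG hl hb hr0
  have Hp := Dia.hull_seg Hs Hr hp
  obtain ⟨p1, p2, p3, p4, p5, p6⟩ := Hp
  -- the same column
  have hll : l = l' := by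
    rcases lt_trichotomy l l' with h1 | h1 | h1
    · exfalso
      have : (l : ℝ) + 1 ≤ (l' : ℝ) := by exact_mod_cast h1
      linarith
    · exact h1
    · exfalso
      have : (l' : ℝ) + 1 ≤ (l : ℝ) := by exact_mod_cast h1
      linarith
  subst hll
  have hne1 : G.gad l b ≠ emptyG := Dia.ne_empty_of_ref hx
  have hne2 : G.gad l b' ≠ emptyG := hO.ne _ _ _ hob
  have ob0 : (0 : ℝ) ≤ (ob.2.1 : ℝ) := Nat.cast_nonneg _
  have hhb : (G.hb l b : ℝ) ≤ (b : ℝ) := by exact_mod_cast Dia.hb_le h l b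
  have hhb' : (G.hb l b' : ℝ) ≤ (b' : ℝ) := by exact_mod_cast Dia.hb_le h l b'
  -- the position in the local coordinates of the cell of the edge
  rw [Dia.pos_res t o hx, Dia.pos_res t o hr0] at hp
  obtain ⟨u, rfl⟩ : ∃ u, G.plc l b u = p := pl_surj _ _ _ p
  unfold Dia.plc at hp
  rw [mem_segment_pl] at hp
  have hu1 : u.1 = (ob.1 : ℝ) := by
    unfold Dia.plc pl at q1
    simp only at q1
    linarith
  have hu2 : (G.plc l b u).2 = 192 * (G.hb l b : ℝ) + u.2 +
      16 * ((b : ℝ) - (G.hb l b : ℝ)) * u.1 := rfl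
  by_cases hbb : b = b'
  · subst hbb
    rcases (hA l hl b hb (x, r) (mem_edgesOf.2 ⟨hx, hr⟩) ob hob).2 u hp hu1 with h1 | h1
    · rw [hu2, hu1] at q2
      linarith
    · rw [hu2, hu1] at q3
      linarith
  by_cases hl0 : l = 0
  · subst hl0
    obtain ⟨o3, o4⟩ := hO.x0 _ _ hob
    have o3' : (3 : ℝ) ≤ (ob.1 : ℝ) := by exact_mod_cast o3
    have o4' : (ob.2.2 : ℝ) ≤ 17 := by exact_mod_cast o4
    have hc0 := h.c0 b hb
    have hht : ht (G.gad 0 b) = 1 := by unfold ht; rw [hc0.1, hc0.2]; rfl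
    have s1 := strip0 h hG hb hx
    have s2 := strip0 h hG hb hr0
    have u1 : 0 ≤ u.2 := by
      have := seg_lin (α := 0) (β := -1) (γ := 0) hp (by linarith) (by linarith)
      linarith
    have u2 : u.2 ≤ 16 := by
      have := seg_lin (α := 0) (β := 1) (γ := 16) hp (by linarith) (by linarith)
      linarith
    rw [hu2, hu1] at q2 q3
    by_cases hg : G.grp b = G.grp b'
    · have e : G.hb 0 b = G.hb 0 b' := by unfold Dia.hb; rw [if_pos rfl, if_pos rfl, hg]
      rw [e] at q2 q3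
      rcases lt_or_gt_of_ne hbb with h1 | h1
      · have h2 : (b : ℝ) + 1 ≤ (b' : ℝ) := by exact_mod_cast h1
        have h3 : 3 * 1 ≤ (ob.1 : ℝ) * ((b' : ℝ) - b) :=
          mul_le_mul o3' (by linarith) (by norm_num) (by linarith)
        linarith
      · have h2 : (b' : ℝ) + 1 ≤ (b : ℝ) := by exact_mod_cast h1
        have h3 : 3 * 1 ≤ (ob.1 : ℝ) * ((b : ℝ) - b') :=
          mul_le_mul o3' (by linarith) (by norm_num) (by linarith)
        linarith
    · have key : ∀ c c', c < c' → G.grp c ≠ G.grp c' → (c : ℝ) + 1 ≤ (G.hb 0 c' : ℝ) := by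
        intro c c' hcc hgc
        have m2 : c < G.grp c' := by
          by_contra hc2
          have m3 := h.g3 _ _ (not_lt.1 hc2)
          rw [h.g2] at m3
          have m1 := h.g3 c c' hcc.le
          omega
        unfold Dia.hb; rw [if_pos rfl]; exact_mod_cast m2
      rcases lt_or_gt_of_ne hbb with h1 | h1
      · have h2 := key b b' h1 hg
        have h3 : ((b : ℝ) - G.hb 0 b) * (ob.1 : ℝ) ≤ ((b : ℝ) - G.hb 0 b) * 12 :=
          mul_le_mul_of_nonneg_left (by linarith) (by linarith)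
        have h4 : 0 ≤ ((b' : ℝ) - G.hb 0 b') * (ob.1 : ℝ) := mul_nonneg (by linarith) (by linarith)
        linarith
      · have h2 := key b' b h1 (fun h => hg h.symm)
        have h3 : ((b' : ℝ) - G.hb 0 b') * (ob.1 : ℝ) ≤ ((b' : ℝ) - G.hb 0 b') * 12 :=
          mul_le_mul_of_nonneg_left (by linarith) (by linarith)
        have h4 : 0 ≤ ((b : ℝ) - G.hb 0 b) * (ob.1 : ℝ) := mul_nonneg (by linarith) (by linarith)
        linarith
  · have e0 : G.hb l b = b := Dia.hb_pos hl0 b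
    have e0' : G.hb l b' = b' := Dia.hb_pos hl0 b'
    rw [e0] at p3
    rw [e0', sub_self] at q2 q3
    rcases lt_or_gt_of_ne hbb with h1 | h1
    · rcases h.sep l hl b b' h1 hb' with h2 | h2
      · exact hne2 h2
      · have : (b : ℝ) + (ht (G.gad l b) : ℝ) ≤ (b' : ℝ) := by exact_mod_cast h2
        linarith
    · rcases h.sep l hl b' b h1 hb with h2 | h2
      · exact hne1 h2
      · have h3 : (b' : ℝ) + (ht (G.gad l b') : ℝ) ≤ (b : ℝ) := by exact_mod_cast h2
        have h4 : (ob.2.2 : ℝ) < 192 * (ht (G.gad l b') : ℝ) := by exact_mod_cast hO.top _ _ _ hob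
        linarith

/-! ### What a drawing forces -/

/-- What a drawing of a diagram gives. -/
structure ForcedN (G : Dia) (os : ℕ → ℕ → List (ℕ × ℕ × ℕ)) (t : ℕ → ℕ → ℝ)
    (o : ℕ → ℕ → ℕ → ℝ) : Prop where
  ht : ∀ l < G.C, ∀ k < G.N, (l = 0 → G.grp k = k) →
    (ka (if l = 0 then G.sk k else 0) : ℝ) ≤ t l k ∧
      t l k ≤ (kb (if l = 0 then G.sk k else 0) : ℝ)
  snd : ∀ l < G.C, ∀ b < G.N, SndN (G.gad l b) (os l b) (fun i => t l (G.hb l b + i))
    (fun i => t (l + 1) (b + i)) (o l b)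

theorem cfg_xrangeN {g : Gadget} {lo ro o : ℕ → ℝ} (ho : OffClN g o) {r : Ref} (hr : r ∈ refs g) :
    (xlo g r : ℝ) ≤ (cfg g lo ro o r).1 ∧ (cfg g lo ro o r).1 ≤ (xhi g r : ℝ) := by
  rcases Dia.ref_cases hr with ⟨i, hi, rfl⟩ | ⟨i, hi, rfl⟩ | ⟨i, hi, rfl⟩
  · rw [cfg_lp]; simp [xlo, xhi]
  · rw [cfg_rp]; simp [xlo, xhi]
  · have hw : g.1[i]? = some g.1[i] := List.getElem?_eq_getElem hi
    obtain ⟨-, o2⟩ := ho i _ hw
    rw [cfg_inn lo ro o hw]
    unfold xlo xhi
    simp only [show (2 : ℕ) ≠ 0 by norm_num, show (2 : ℕ) ≠ 1 by norm_num, if_false, hw,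
      Option.map_some, Option.getD_some]
    split_ifs with hk
    · have := o2 hk
      push_cast
      exact this
    · simp

theorem forcedN (h : G.OK) {D : ℕ → ℝ × ℝ} (hD : (instN G os cl).IsDrawing D)
    (hm : ∀ e ∈ (instN G os cl).verts, D e.1 ∈ e.2.pts)
    (hX : ∀ e ∈ (instN G os cl).edges, ∀ s ∈ (instN G os cl).obstacles,
      ¬ ProperlyCrosses (D e.1) (D e.2) s)
    (hk2 : ∀ b < G.N, ∀ (i : ℕ) (w : Row), (G.gad 0 b).1[i]? = some w → w.2.2.1 ≠ 2)
    (hk3 : ∀ k, G.sk k ≠ 2) :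
    ∃ t o, ForcedN G os t o := by
  set t : ℕ → ℕ → ℝ := fun l k => (D (nm 1 l k)).2 - 192 * (k : ℝ) with ht
  set o : ℕ → ℕ → ℕ → ℝ := fun l b i => match (G.gad l b).1[i]? with
    | some w => if w.2.2.1 = 2 then (D (nm (2 + i) l b)).1 - 12 * (l : ℝ) else
      (D (nm (2 + i) l b)).2 - (192 * (G.hb l b : ℝ) + (w.2.1 : ℝ) +
        16 * ((b : ℝ) - (G.hb l b : ℝ)) * (w.1 : ℝ))
    | none => 0 with ho
  have hoff : ∀ l < G.C, ∀ b < G.N, OffClN (G.gad l b) (o l b) := by
    intro l hl b hb i w hw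
    have e1 := hm _ (mem_vertsN.2 (Or.inr ⟨l, hl, b, hb, i, w, hw, rfl⟩))
    simp only at e1
    obtain ⟨k1, k2⟩ := of_mkN e1
    have hhb := Dia.hb_le h l b
    have eo : o l b i = if w.2.2.1 = 2 then (D (nm (2 + i) l b)).1 - 12 * (l : ℝ) else
      (D (nm (2 + i) l b)).2 - (192 * (G.hb l b : ℝ) + (w.2.1 : ℝ) +
        16 * ((b : ℝ) - (G.hb l b : ℝ)) * (w.1 : ℝ)) := by
      rw [ho]; simp only [hw]
    rw [eo]
    push_cast [Nat.cast_sub hhb] at k1 k2
    refine ⟨fun hk => ?_, fun hk => ?_⟩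
    · rw [if_neg hk]
      have := k1 hk
      constructor <;> linarith
    · rw [if_pos hk]
      have := k2 hk
      constructor <;> linarith
  have hposT : ∀ l < G.C, ∀ k < G.N, (l = 0 → G.grp k = k) →
      D (nm 1 l k) = G.pos t o (nm 1 l k) := by
    intro l hl k hk h0
    have e1 := hm _ (mem_vertsN.2 (Or.inl ⟨l, hl, k, hk, h0, rfl⟩))
    simp only at e1
    rw [Dia.pos_T]
    have k1 := (of_mkN e1).1 (by
      split_ifs
      · exact hk3 k
      · norm_num)
    ext
    · simp only [k1.1]; push_cast; ring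
    · simp only [ht]; ring
  have hposI : ∀ l < G.C, ∀ b < G.N, ∀ i w, (G.gad l b).1[i]? = some w →
      D (nm (2 + i) l b) = G.pos t o (nm (2 + i) l b) := by
    intro l hl b hb i w hw
    have e1 := hm _ (mem_vertsN.2 (Or.inr ⟨l, hl, b, hb, i, w, hw, rfl⟩))
    simp only at e1
    obtain ⟨k1, k2⟩ := of_mkN e1
    have hhb := Dia.hb_le h l b
    have hq : G.q t o l b (2, i) = if w.2.2.1 = 2 then (o l b i, (w.2.1 : ℝ)) else
      ((w.1 : ℝ), (w.2.1 : ℝ) + o l b i) := by
      unfold Dia.q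
      rw [cfg_inn _ _ _ hw]
    have eo : o l b i = if w.2.2.1 = 2 then (D (nm (2 + i) l b)).1 - 12 * (l : ℝ) else
      (D (nm (2 + i) l b)).2 - (192 * (G.hb l b : ℝ) + (w.2.1 : ℝ) +
        16 * ((b : ℝ) - (G.hb l b : ℝ)) * (w.1 : ℝ)) := by
      rw [ho]; simp only [hw]
    rw [Dia.pos_in, hq, eo]
    unfold Dia.plc pl
    by_cases hk : w.2.2.1 = 2
    · rw [if_pos hk, if_pos hk]
      have hl0 : l ≠ 0 := by
        rintro rfl
        exact hk2 b hb i w hw hk
      have e0 : G.hb l b = b := Dia.hb_pos hl0 b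
      have k6 := (k2 hk).1
      rw [e0] at k6 ⊢
      push_cast [Nat.sub_self] at k6
      ext
      · simp only; ring
      · simp only [k6]; ring
    · rw [if_neg hk, if_neg hk]
      have k6 := (k1 hk).1
      ext
      · simp only [k6]; push_cast; ring
      · simp only; ring
  have hpos : ∀ l < G.C, ∀ b < G.N, ∀ r ∈ refs (G.gad l b),
      D (G.res l b r) = G.plc l b (G.q t o l b r) := by
    intro l hl b hb r hr
    rw [← Dia.pos_res t o hr]
    have hn := Dia.res_mem_names h (cl := cl) hl hb hr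
    rcases Dia.mem_names.1 hn with h1 | ⟨l', hl', k, hk, h0, h1⟩ | ⟨l', hl', b', hb', i, hi, h1⟩
    · exact (Dia.res_ne_root h1).elim
    · rw [h1]
      exact hposT l' hl' k hk h0
    · rw [h1]
      exact hposI l' hl' b' hb' i _ (List.getElem?_eq_getElem hi)
  have hdir : ∀ l < G.C, ∀ b < G.N, ∀ e ∈ edgesOf (G.gad l b),
      (G.q t o l b e.1).1 < (G.q t o l b e.2).1 := by
    intro l hl b hb e he
    have hm' := mem_edgesOf.1 (show (e.1, e.2) ∈ edgesOf _ from he)
    have hr0 := ((h.ok l hl b hb).1 _ hm'.1 _ hm'.2).1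
    have h1 := List.all_eq_true.1 (h.num l hl b hb) e he
    simp only [decide_eq_true_eq] at h1
    have h2 : (xhi (G.gad l b) e.1 : ℝ) < (xlo (G.gad l b) e.2 : ℝ) := by exact_mod_cast h1
    have h3 := (cfg_xrangeN (lo := fun i => t l (G.hb l b + i))
      (ro := fun i => t (l + 1) (b + i)) (hoff l hl b hb) hm'.1).2
    have h4 := (cfg_xrangeN (lo := fun i => t l (G.hb l b + i))
      (ro := fun i => t (l + 1) (b + i)) (hoff l hl b hb) hr0).1
    unfold Dia.q
    linarith
  refine ⟨t, o, ?_, ?_⟩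
  · intro l hl k hk h0
    have e1 := hm _ (mem_vertsN.2 (Or.inl ⟨l, hl, k, hk, h0, rfl⟩))
    simp only at e1
    have k1 := (of_mkN e1).1 (by
      split_ifs
      · exact hk3 k
      · norm_num)
    push_cast at k1
    rw [ht]
    simp only
    constructor <;> linarith [k1.2.1, k1.2.2]
  · intro l hl b hb
    refine ⟨hoff l hl b hb, ?_, ?_⟩
    · intro e he f hf hef p hp hp'
      have me := mem_edgesOf.1 (show (e.1, e.2) ∈ edgesOf _ from he)
      have mf := mem_edgesOf.1 (show (f.1, f.2) ∈ edgesOf _ from hf)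
      have e0 := ((h.ok l hl b hb).1 _ me.1 _ me.2).1
      have f0 := ((h.ok l hl b hb).1 _ mf.1 _ mf.2).1
      have de := hdir l hl b hb e he
      have df := hdir l hl b hb f hf
      have ne : s(G.res l b e.1, G.res l b e.2) ≠ s(G.res l b f.1, G.res l b f.2) := by
        intro hs
        rw [Sym2.eq_iff] at hs
        rcases hs with ⟨h1, h2⟩ | ⟨h1, h2⟩
        · exact hef (Prod.ext (Dia.res_inj me.1 mf.1 h1) (Dia.res_inj e0 f0 h2))
        · have k1 := Dia.res_inj me.1 f0 h1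
          have k2 := Dia.res_inj e0 mf.1 h2
          rw [k1, k2] at de
          linarith
      obtain ⟨w, hw1, hw2, hw3⟩ := hD.plane (G.res l b e.1, G.res l b e.2)
        (mem_edgesN.2 ⟨l, hl, b, hb, e.1, e.2, me.1, me.2, rfl⟩)
        (G.res l b f.1, G.res l b f.2)
        (mem_edgesN.2 ⟨l, hl, b, hb, f.1, f.2, mf.1, mf.2, rfl⟩) ne (G.plc l b p)
        (by
          simp only
          rw [hpos l hl b hb _ me.1, hpos l hl b hb _ e0]
          unfold Dia.plc
          rw [mem_segment_pl]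
          exact hp)
        (by
          simp only
          rw [hpos l hl b hb _ mf.1, hpos l hl b hb _ f0]
          unfold Dia.plc
          rw [mem_segment_pl]
          exact hp')
      rw [Sym2.mem_iff] at hw1 hw2
      constructor
      · rcases hw1 with rfl | rfl
        · left
          rw [hpos l hl b hb _ me.1] at hw3
          exact pl_inj hw3
        · right
          rw [hpos l hl b hb _ e0] at hw3
          exact pl_inj hw3
      · rcases hw2 with rfl | rfl
        · left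
          rw [hpos l hl b hb _ mf.1] at hw3
          exact pl_inj hw3
        · right
          rw [hpos l hl b hb _ f0] at hw3
          exact pl_inj hw3
    · intro e he ob hob p hp p1 p2 px
      by_contra hc
      rw [not_or, not_le, not_le] at hc
      obtain ⟨c1, c2⟩ := hc
      have me := mem_edgesOf.1 (show (e.1, e.2) ∈ edgesOf _ from he)
      have e0 := ((h.ok l hl b hb).1 _ me.1 _ me.2).1
      have de := hdir l hl b hb e he
      refine hX (G.res l b e.1, G.res l b e.2)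
        (mem_edgesN.2 ⟨l, hl, b, hb, e.1, e.2, me.1, me.2, rfl⟩) _
        (mem_obstN.2 ⟨l, hl, b, hb, ob, hob, rfl⟩) ?_
      simp only
      rw [hpos l hl b hb _ me.1, hpos l hl b hb _ e0]
      have hhb := Dia.hb_le h l b
      refine ⟨⟨G.plc l b p, ?_, ?_⟩, ?_⟩
      · -- interior of the edge
        obtain ⟨α, β, hα, hβ, hαβ, hh⟩ := hp
        have hα' : 0 < α := by
          rcases hα.eq_or_lt with h0 | h0
          · exfalso
            have hβ1 : β = 1 := by linarith
            rw [← h0, hβ1] at hh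
            simp at hh
            have e1 := congrArg Prod.fst hh
            unfold Dia.q at e1
            linarith
          · exact h0
        have hβ' : 0 < β := by
          rcases hβ.eq_or_lt with h0 | h0
          · exfalso
            have hα1 : α = 1 := by linarith
            rw [← h0, hα1] at hh
            simp at hh
            have e1 := congrArg Prod.fst hh
            unfold Dia.q at e1
            linarith
          · exact h0
        refine ⟨α, β, hα', hβ', hαβ, ?_⟩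
        rw [← hh]
        have e : α = 1 - β := by linarith
        unfold Dia.plc pl Dia.q
        ext
        · simp only [Prod.fst_add, Prod.smul_fst, smul_eq_mul]
          rw [e]; ring
        · simp only [Prod.fst_add, Prod.snd_add, Prod.smul_fst, Prod.smul_snd, smul_eq_mul]
          rw [e]; ring
      · -- interior of the obstacle
        have hd : (0 : ℝ) < (ob.2.2 : ℝ) - ((ob.2.1 : ℝ) - 1) := by linarith
        have hd' : (ob.2.2 : ℝ) - ((ob.2.1 : ℝ) - 1) ≠ 0 := hd.ne'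
        refine ⟨1 - (p.2 - ((ob.2.1 : ℝ) - 1)) / ((ob.2.2 : ℝ) - ((ob.2.1 : ℝ) - 1)),
          (p.2 - ((ob.2.1 : ℝ) - 1)) / ((ob.2.2 : ℝ) - ((ob.2.1 : ℝ) - 1)), ?_, ?_, by ring, ?_⟩
        · rw [sub_pos, div_lt_one hd]; linarith
        · exact div_pos (by linarith) hd
        · unfold mkObs toR Dia.plc pl
          ext
          · simp only [Prod.fst_add, Prod.smul_fst, smul_eq_mul]
            rw [px]
            push_cast
            ring
          · simp only [Prod.snd_add, Prod.smul_snd, smul_eq_mul]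
            rw [px]
            push_cast [Nat.cast_sub hhb]
            field_simp
            ring
      · unfold mkObs toR Dia.plc pl
        simp only
        push_cast
        intro hc'
        have : (G.q t o l b e.2).1 - (G.q t o l b e.1).1 ≠ 0 := by linarith
        have h2 : ((G.q t o l b e.2).1 - (G.q t o l b e.1).1) *
          ((ob.2.2 : ℝ) - ((ob.2.1 : ℝ) - 1)) = 0 := by linarith
        rcases mul_eq_zero.1 h2 with h3 | h3
        · exact this h3
        · linarith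

end Pool.Agent.H678.SegObs
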