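import Pool.Graph.R_pool_sql_team_seeded_c8625f6e.K4H90.Seg.PolyB
import Pool.Agent.H678.SegObs.Complete

/-!
# The reduction is computable in polynomial time
-/

namespace Pool.Agent.NPC.H678SegObs

open Pool.Agent.K4H90.SegDraw hiding Inst mkSeg
open Pool.Agent.NPC.ER Pool.Agent.NPC.K4H90Seg
open Pool.Agent.H678.SegObs

section

variable {α : Type} [TEnc α]

/-! ### Systems of inequalities -/

theorem poly_PGn {t : α → ℕ} {i j k l : α → Lit} (ht : Poly t) (hi : Poly i) (hj : Poly j)
    (hk : Poly k) (hl : Poly l) : Poly (fun x => PGn (t x) (i x) (j x) (k x) (l x)) := by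
  have h3 := poly_lit 3 ht
  have h4 := poly_lit 4 ht
  have h5 := poly_lit 5 ht
  have h6 := poly_lit 6 ht
  have h7 := poly_lit 7 ht
  exact Poly.cons (poly_prodLt hi hj h3) (Poly.cons (poly_avgLt h4 h3 hj)
    (Poly.cons (poly_avgLt h5 hj hi) (Poly.cons (poly_avgLt h6 hk (Poly.const halfLo))
      (Poly.cons (poly_avgLt h7 h5 h6) (Poly.cons (poly_avgLt hl h4 h7) (Poly.const []))))))

theorem poly_AGn {t : α → ℕ} {i j k l : α → Lit} (ht : Poly t) (hi : Poly i) (hj : Poly j)
    (hk : Poly k) (hl : Poly l) : Poly (fun x => AGn (t x) (i x) (j x) (k x) (l x)) := by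
  have h8 := poly_lit 8 ht
  have h9 := poly_lit 9 ht
  exact Poly.cons (poly_avgLt h8 hi hj) (Poly.cons (poly_avgLt h9 (poly_neg hk) (Poly.const halfLo))
    (Poly.cons (poly_avgLt hl h8 h9) (Poly.const [])))

theorem poly_chainN {K : α → ℕ} (hK : UPoly K) : Poly (fun x => chainN (K x)) := by
  unfold chainN
  have h2 : Poly (fun p : α × ℕ => sm p.2) := poly_lit 2 (Poly.snd Poly.id)
  have h2' : Poly (fun p : α × ℕ => sm (p.2 + 1)) := poly_lit 2 (Poly.succ (Poly.snd Poly.id))
  refine Poly.cons (Poly.const _) (Poly.append ?_ ?_)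
  · refine Poly.map (F := fun _ j => avgLt halfHi (sm j) (sm j))
      (UPoly.add hK (UPoly.const 1)).range ?_
    exact poly_avgLt (Poly.const halfHi) h2 h2
  · refine Poly.flatMap (F := fun _ j => PGn (3 * j) (sm j) (neg (sm j)) (neg (sm (j + 1))) halfHi)
      hK.range ?_
    exact poly_PGn (Poly.mul (Poly.const 3) (Poly.snd Poly.id)) h2 (poly_neg h2) (poly_neg h2')
      (Poly.const halfHi)

theorem conN_eq (K : ℕ) (c : ER.Con) (s : ℕ) : conN K c s =
    if c.code.1 = 0 then [avgLt (neg (sm K)) (bv c.code.2.1) (neg kapHi),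
      avgLt (neg (sm K)) (neg (bv c.code.2.1)) kapLo]
    else if c.code.1 = 1 then
      AGn (3 * s + 1) (bv c.code.2.1) (bv c.code.2.2.1) (bv c.code.2.2.2) (neg (sm K)) ++
      AGn (3 * s + 2) (neg (bv c.code.2.1)) (neg (bv c.code.2.2.1)) (neg (bv c.code.2.2.2))
        (neg (sm K))
    else PGn (3 * s + 1) (bv c.code.2.1) (bv c.code.2.2.1) (bv c.code.2.2.2) (neg (sm K)) ++
      PGn (3 * s + 2) (bv c.code.2.1) (neg (bv c.code.2.2.1)) (neg (bv c.code.2.2.2))
        (neg (sm K)) := by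
  cases c <;> rfl

theorem poly_conN {K s : α → ℕ} {c : α → ER.Con} (hK : Poly K) (hc : Poly c) (hs : Poly s) :
    Poly (fun x => conN (K x) (c x) (s x)) := by
  have h0 : Poly (fun a => (c a).code) := poly_con_code hc
  have h1 : Poly (fun a => (c a).code.1) := Poly.fst h0
  have hi : Poly (fun a => bv (c a).code.2.1) := poly_lit 1 (Poly.fst (Poly.snd h0))
  have hj : Poly (fun a => bv (c a).code.2.2.1) := poly_lit 1 (Poly.fst (Poly.snd (Poly.snd h0)))
  have hk : Poly (fun a => bv (c a).code.2.2.2) := poly_lit 1 (Poly.snd (Poly.snd (Poly.snd h0)))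
  have hn : Poly (fun a => neg (sm (K a))) := poly_neg (poly_lit 2 hK)
  have t1 : Poly (fun a => 3 * s a + 1) := Poly.add (Poly.mul (Poly.const 3) hs) (Poly.const 1)
  have t2 : Poly (fun a => 3 * s a + 2) := Poly.add (Poly.mul (Poly.const 3) hs) (Poly.const 2)
  have key := Poly.ite (Poly.decide_eq h1 (Poly.const 0))
    (Poly.cons (poly_avgLt hn hi (Poly.const (neg kapHi)))
      (Poly.cons (poly_avgLt hn (poly_neg hi) (Poly.const kapLo)) (Poly.const [])))
    (Poly.ite (Poly.decide_eq h1 (Poly.const 1))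
      (Poly.append (poly_AGn t1 hi hj hk hn)
        (poly_AGn t2 (poly_neg hi) (poly_neg hj) (poly_neg hk) hn))
      (Poly.append (poly_PGn t1 hi hj hk hn)
        (poly_PGn t2 hi (poly_neg hj) (poly_neg hk) hn)))
  exact key.congr fun a => (conN_eq _ _ _).symm

theorem poly_strictN {S : α → List ER.Con} (hS : Poly S) : Poly (fun a => strictN (S a)) := by
  unfold strictN strictNB
  have hb := poly_bsys hS
  have hK := upoly_gapK hb
  refine Poly.append (poly_chainN hK) ?_
  refine Poly.flatMap (F := fun a p => conN (gapK (bsys (S a)).length) p.1 p.2)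
    (Poly.zipIdx hb) ?_
  exact poly_conN (hK.toPoly.comp (Poly.fst Poly.id)) (Poly.fst (Poly.snd Poly.id))
    (Poly.snd (Poly.snd Poly.id))

/-! ### Segments -/

theorem poly_ka {k : α → ℕ} (hk : Poly k) : Poly (fun a => ka (k a)) := by
  unfold ka
  exact Poly.ite (Poly.decide_eq hk (Poly.const 3)) (Poly.const _)
    (Poly.ite (Poly.decide_eq hk (Poly.const 6)) (Poly.const _) (Poly.const _))

theorem poly_kb {k : α → ℕ} (hk : Poly k) : Poly (fun a => kb (k a)) := by
  unfold kb
  exact Poly.ite (Poly.decide_eq hk (Poly.const 1)) (Poly.const _)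
    (Poly.ite (Poly.decide_eq hk (Poly.const 4)) (Poly.const _)
    (Poly.ite (Poly.decide_eq hk (Poly.const 5)) (Poly.const _)
    (Poly.ite (Poly.decide_eq hk (Poly.const 7)) (Poly.const _) (Poly.const _))))

theorem poly_mkSegN {c : Bool} {X Y k : α → ℕ} (hX : Poly X) (hY : Poly Y) (hk : Poly k) :
    Poly (fun a => mkSegN c (X a) (Y a) (k a)) := by
  unfold mkSegN
  have hcl : Poly (fun _ : α => c) := Poly.const c
  have x := poly_natRat hX
  have y := poly_natRat hY
  have ya := poly_natRat (Poly.add hY (poly_ka hk))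
  have yb := poly_natRat (Poly.add hY (poly_kb hk))
  have x3 := poly_natRat (Poly.add hX (Poly.const 3))
  exact Poly.ite (Poly.decide_eq hk (Poly.const 2)) (poly_seg (Poly.pair x y) (Poly.pair x3 y) hcl)
    (poly_seg (Poly.pair x ya) (Poly.pair x yb) hcl)

theorem poly_natRat_sub {n : α → ℕ} (hn : Poly n) : Poly (fun a => ((n a : ℕ) : ℚ) - 1) := by
  refine (Poly.ite (Poly.decide_eq hn (Poly.const 0)) (Poly.const (-1 : ℚ))
    (poly_natRat (Poly.sub hn (Poly.const 1)))).congr fun a => ?_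
  split_ifs with h
  · rw [h]; norm_num
  · have : 1 ≤ n a := by omega
    push_cast [Nat.cast_sub this]
    ring

theorem poly_mkObs {c : Bool} {X Y u v : α → ℕ} (hX : Poly X) (hY : Poly Y) (hu : Poly u)
    (hv : Poly v) : Poly (fun a => mkObs c (X a) (Y a) (u a) (v a)) := by
  unfold mkObs
  have x := poly_natRat hX
  exact poly_seg (Poly.pair x (poly_natRat_sub (Poly.add hY hu)))
    (Poly.pair x (poly_natRat (Poly.add hY hv))) (Poly.const c)

/-! ### Cells -/

theorem poly_gadN {k : α → ℕ} (hk : Poly k) : Poly (fun a => gadN (k a)) := by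
  unfold gadN
  exact Poly.ite (Poly.decide_eq hk (Poly.const 0)) (Poly.const _)
    (Poly.ite (Poly.decide_eq hk (Poly.const 1)) (Poly.const _)
    (Poly.ite (Poly.decide_eq hk (Poly.const 2)) (Poly.const _)
    (Poly.ite (Poly.decide_eq hk (Poly.const 3)) (Poly.const _)
    (Poly.ite (Poly.decide_eq hk (Poly.const 4)) (Poly.const _) (Poly.const _)))))

theorem poly_obsN {k : α → ℕ} (hk : Poly k) : Poly (fun a => obsN (k a)) := by
  unfold obsN
  exact Poly.ite (Poly.decide_eq hk (Poly.const 0)) (Poly.const _)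
    (Poly.ite (Poly.decide_eq hk (Poly.const 1)) (Poly.const _)
    (Poly.ite (Poly.decide_eq hk (Poly.const 2)) (Poly.const _)
    (Poly.ite (Poly.decide_eq hk (Poly.const 3)) (Poly.const _)
    (Poly.ite (Poly.decide_eq hk (Poly.const 4)) (Poly.const _) (Poly.const _)))))

theorem poly_edgesOf {k : α → ℕ} (hk : Poly k) : Poly (fun a => edgesOf (gadN (k a))) := by
  have h := Poly.ite (Poly.decide_eq hk (Poly.const 0)) (Poly.const (edgesOf plainN))
    (Poly.ite (Poly.decide_eq hk (Poly.const 1)) (Poly.const (edgesOf negN))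
    (Poly.ite (Poly.decide_eq hk (Poly.const 2)) (Poly.const (edgesOf swapN))
    (Poly.ite (Poly.decide_eq hk (Poly.const 3)) (Poly.const (edgesOf linN))
    (Poly.ite (Poly.decide_eq hk (Poly.const 4)) (Poly.const (edgesOf prodN))
      (Poly.const (edgesOf emptyG))))))
  refine h.congr fun a => ?_
  unfold gadN
  split_ifs <;> rfl

variable {cs : α → List SCon}

theorem poly_skN (hc : Poly cs) {k : α → ℕ} (hk : Poly k) : Poly (fun a => skN (cs a) (k a)) := by
  unfold skN kindN tvar
  have h1 : Poly (fun a => (varsOf (cs a)).getD ((st0 (varsOf (cs a))).getD (k a) 0) (0, 0)) :=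
    Poly.getD (poly_varsOf hc) (Poly.getD (poly_st0 (poly_varsOf hc)) hk (Poly.const 0))
      (Poly.const (0, 0))
  exact Poly.ite (Poly.decide_eq h1 (Poly.const (0, 0))) (Poly.const _)
    (Poly.ite (Poly.decide_eq h1 (Poly.const (0, 2))) (Poly.const _)
    (Poly.ite (Poly.decide_eq h1 (Poly.const (0, 1))) (Poly.const _)
    (Poly.ite (Poly.decide_eq h1 (Poly.const (0, 3))) (Poly.const _) (Poly.const _))))

theorem poly_cellN (hc : Poly cs) (cl : Bool) {l b : α → ℕ} (hl : Poly l) (hb : Poly b) :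
    Poly (fun a => cellN (diaN (datOf (cs a)) (skN (cs a))) cl (l a) (b a)) := by
  unfold cellN
  have hh : Poly (fun a => (diaN (datOf (cs a)) (skN (cs a))).hb (l a) (b a)) := poly_hb hc hl hb
  refine Poly.append ?_ ?_
  · refine Poly.ite (Poly.decide_and (Poly.decide_eq hl (Poly.const 0))
      (Poly.decide_not (Poly.decide_eq (poly_grp hc hb) hb))) (Poly.const [])
      (Poly.cons (Poly.pair (poly_nm (Poly.const 1) hl hb) ?_) (Poly.const []))
    exact poly_mkSegN (Poly.mul (Poly.const 12) hl) (Poly.mul (Poly.const 192) hb)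
      (Poly.ite (Poly.decide_eq hl (Poly.const 0)) (poly_skN hc hb) (Poly.const 0))
  · refine Poly.map (F := fun a (p : Row × ℕ) =>
      (nm (2 + p.2) (l a) (b a), mkSegN cl (12 * l a + p.1.1)
      (192 * (diaN (datOf (cs a)) (skN (cs a))).hb (l a) (b a) + p.1.2.1 +
        16 * (b a - (diaN (datOf (cs a)) (skN (cs a))).hb (l a) (b a)) * p.1.1) p.1.2.2.1))
      (Poly.zipIdx (Poly.fst (poly_gadN (poly_gk hc hl hb)))) ?_
    have hl' := hl.comp (Poly.fst (Poly.id (α := α × (Row × ℕ))))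
    have hb' := hb.comp (Poly.fst (Poly.id (α := α × (Row × ℕ))))
    have hh' := hh.comp (Poly.fst (Poly.id (α := α × (Row × ℕ))))
    have hw : Poly (fun p : α × (Row × ℕ) => p.2.1) := Poly.fst (Poly.snd Poly.id)
    have w1 := Poly.fst hw
    have w2 := Poly.fst (Poly.snd hw)
    have w3 := Poly.fst (Poly.snd (Poly.snd hw))
    refine Poly.pair (poly_nm (Poly.add (Poly.const 2) (Poly.snd (Poly.snd Poly.id))) hl' hb') ?_
    exact poly_mkSegN (Poly.add (Poly.mul (Poly.const 12) hl') w1)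
      (Poly.add (Poly.add (Poly.mul (Poly.const 192) hh') w2)
        (Poly.mul (Poly.mul (Poly.const 16) (Poly.sub hb' hh')) w1)) w3

theorem poly_cellE (hc : Poly cs) {l b : α → ℕ} (hl : Poly l) (hb : Poly b) :
    Poly (fun a => cellE (diaN (datOf (cs a)) (skN (cs a))) (l a) (b a)) := by
  unfold cellE
  refine Poly.map (F := fun a (e : Ref × Ref) =>
    ((diaN (datOf (cs a)) (skN (cs a))).res (l a) (b a) e.1,
      (diaN (datOf (cs a)) (skN (cs a))).res (l a) (b a) e.2))
    (poly_edgesOf (poly_gk hc hl hb)) ?_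
  have hc' := hc.comp (Poly.fst (Poly.id (α := α × (Ref × Ref))))
  have hl' := hl.comp (Poly.fst (Poly.id (α := α × (Ref × Ref))))
  have hb' := hb.comp (Poly.fst (Poly.id (α := α × (Ref × Ref))))
  exact Poly.pair (poly_res hc' hl' hb' (Poly.fst (Poly.snd Poly.id)))
    (poly_res hc' hl' hb' (Poly.snd (Poly.snd Poly.id)))

theorem poly_cellO (hc : Poly cs) (cl : Bool) {l b : α → ℕ} (hl : Poly l) (hb : Poly b) :
    Poly (fun a => cellO (diaN (datOf (cs a)) (skN (cs a))) (osN (datOf (cs a))) cl (l a) (b a)) := by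
  unfold cellO osN
  have hh : Poly (fun a => (diaN (datOf (cs a)) (skN (cs a))).hb (l a) (b a)) := poly_hb hc hl hb
  refine Poly.map (F := fun a (ob : ℕ × ℕ × ℕ) => mkObs cl (12 * l a + ob.1)
    (192 * (diaN (datOf (cs a)) (skN (cs a))).hb (l a) (b a) +
      16 * (b a - (diaN (datOf (cs a)) (skN (cs a))).hb (l a) (b a)) * ob.1) ob.2.1 ob.2.2)
    (poly_obsN (poly_gk hc hl hb)) ?_
  have hl' := hl.comp (Poly.fst (Poly.id (α := α × (ℕ × ℕ × ℕ))))
  have hb' := hb.comp (Poly.fst (Poly.id (α := α × (ℕ × ℕ × ℕ))))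
  have hh' := hh.comp (Poly.fst (Poly.id (α := α × (ℕ × ℕ × ℕ))))
  have ho : Poly (fun p : α × (ℕ × ℕ × ℕ) => p.2) := Poly.snd Poly.id
  have o1 := Poly.fst ho
  exact poly_mkObs (Poly.add (Poly.mul (Poly.const 12) hl') o1)
    (Poly.add (Poly.mul (Poly.const 192) hh')
      (Poly.mul (Poly.mul (Poly.const 16) (Poly.sub hb' hh')) o1))
    (Poly.fst (Poly.snd ho)) (Poly.snd (Poly.snd ho))

theorem poly_cells (hc : Poly cs) : Poly (fun a => cells (diaN (datOf (cs a)) (skN (cs a)))) := by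
  unfold cells
  refine Poly.flatMap (F := fun a l =>
    (List.range (diaN (datOf (cs a)) (skN (cs a))).N).map fun b => (l, b))
    (upoly_C hc).range ?_
  refine Poly.map (F := fun (p : α × ℕ) b => (p.2, b))
    (upoly_N (hc.comp (Poly.fst Poly.id))).range ?_
  exact Poly.pair (Poly.snd (Poly.fst Poly.id)) (Poly.snd Poly.id)

theorem poly_instS (hc : Poly cs) (cl : Bool) : Poly (fun a => instS (cs a) cl) := by
  have hcell := poly_cells hc
  have hc' := hc.comp (Poly.fst (Poly.id (α := α × (ℕ × ℕ))))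
  have hl' : Poly (fun p : α × (ℕ × ℕ) => p.2.1) := Poly.fst (Poly.snd Poly.id)
  have hb' : Poly (fun p : α × (ℕ × ℕ) => p.2.2) := Poly.snd (Poly.snd Poly.id)
  have h1 := Poly.flatMap (F := fun a (c : ℕ × ℕ) =>
    cellN (diaN (datOf (cs a)) (skN (cs a))) cl c.1 c.2) hcell (poly_cellN hc' cl hl' hb')
  have h2 := Poly.flatMap (F := fun a (c : ℕ × ℕ) =>
    cellE (diaN (datOf (cs a)) (skN (cs a))) c.1 c.2) hcell (poly_cellE hc' hl' hb')
  have h3 := Poly.flatMap (F := fun a (c : ℕ × ℕ) =>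
    cellO (diaN (datOf (cs a)) (skN (cs a))) (osN (datOf (cs a))) cl c.1 c.2) hcell
      (poly_cellO hc' cl hl' hb')
  exact Poly.of_toT ((Poly.pair h1 (Poly.pair h2 h3)).toT')

end

/-- The reduction. -/
def red (cl : Bool) (S : List ER.Con) : Pool.Agent.H678.SegObs.Inst := instS (strictN S) cl

theorem poly_red (cl : Bool) : Poly (red cl) := poly_instS (poly_strictN Poly.id) cl

end Pool.Agent.NPC.H678SegObs
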