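import Pool.Graph.R_pool_sql_team_seeded_c8625f6e.K4H90.Seg.Strict

/-!
# Systems of inequalities with inexact constants

The strict system of the library module is changed so that its two constants are replaced by four
numbers, each of which is only bounded from one side.  The solution of the non-strict system already
gives a solution of the given system, and a solution of the given system gives a solution of the
strict system with constants strictly inside their ranges.
-/

namespace Pool.Agent.H678.SegObs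

open Pool.Agent.NPC Pool.Agent.NPC.ER
open Pool.Agent.K4H90.SegDraw

/-- The non-strict constraint on three numbers. -/
def whold (k : Bool) (x y z : ℝ) : Prop :=
  if k = true then (1 + y) * x + z ≤ 5 / 4 else x + z + 2 * y ≤ 2

/-- Validity of the non-strict constraint. -/
def WHolds (v : ℕ × ℕ → ℝ) (c : SCon) : Prop :=
  whold c.1 (lval v c.2.1) (lval v c.2.2.1) (lval v c.2.2.2)

/-- A number at least `1/2`. -/
def halfHi : Lit := ((0, 0), true)

/-- A number at most `9/16`. -/
def kapLo : Lit := ((0, 1), true)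

/-- A number at most `1/2`. -/
def halfLo : Lit := ((0, 2), true)

/-- A number at least `9/16`. -/
def kapHi : Lit := ((0, 3), true)

/-- The product gadget. -/
def PGn (t : ℕ) (i j k l : Lit) : List SCon :=
  [prodLt i j ((3, t), true), avgLt ((4, t), true) ((3, t), true) j, avgLt ((5, t), true) j i,
    avgLt ((6, t), true) k halfLo, avgLt ((7, t), true) ((5, t), true) ((6, t), true),
    avgLt l ((4, t), true) ((7, t), true)]

/-- The sum gadget. -/
def AGn (t : ℕ) (i j k l : Lit) : List SCon :=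
  [avgLt ((8, t), true) i j, avgLt ((9, t), true) (neg k) halfLo,
    avgLt l ((8, t), true) ((9, t), true)]

/-- The chain of small numbers. -/
def chainN (K : ℕ) : List SCon :=
  avgLt (sm 0) kapLo kapLo :: ((List.range (K + 1)).map (fun j => avgLt halfHi (sm j) (sm j)) ++
    (List.range K).flatMap (fun j => PGn (3 * j) (sm j) (neg (sm j)) (neg (sm (j + 1))) halfHi))

/-- The translation of one constraint. -/
def conN (K : ℕ) (c : ER.Con) (s : ℕ) : List SCon :=
  match c with
  | ER.Con.one i => [avgLt (neg (sm K)) (bv i) (neg kapHi), avgLt (neg (sm K)) (neg (bv i)) kapLo]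
  | ER.Con.add i j k => AGn (3 * s + 1) (bv i) (bv j) (bv k) (neg (sm K)) ++
      AGn (3 * s + 2) (neg (bv i)) (neg (bv j)) (neg (bv k)) (neg (sm K))
  | ER.Con.mul i j k => PGn (3 * s + 1) (bv i) (bv j) (bv k) (neg (sm K)) ++
      PGn (3 * s + 2) (bv i) (neg (bv j)) (neg (bv k)) (neg (sm K))

/-- The system of inequalities of a system. -/
def strictNB (S : List ER.Con) : List SCon :=
  chainN (gapK S.length) ++ S.zipIdx.flatMap (fun p => conN (gapK S.length) p.1 p.2)

/-- The system of inequalities of a system of constraints `x = 1`, `x + y = z`, `x * y = z`. -/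
def strictN (S : List ER.Con) : List SCon := strictNB (bsys S)

theorem strictN_ne_nil (S : List ER.Con) : strictN S ≠ [] := by
  unfold strictN strictNB chainN
  simp

theorem avgLt_wiff (v : ℕ × ℕ → ℝ) (n a b : Lit) :
    WHolds v (avgLt n a b) ↔ 2 * W v n ≤ W v a + W v b := by
  unfold WHolds whold avgLt W
  simp only [lval_neg, Bool.false_eq_true, if_false]
  constructor <;> intro h <;> linarith

theorem prodLt_wiff (v : ℕ × ℕ → ℝ) (a b c : Lit) :
    WHolds v (prodLt a b c) ↔ 2 * W v c ≤ - 3 * W v b - W v a - W v a * W v b := by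
  unfold WHolds whold prodLt W
  simp only [if_true]
  constructor <;> intro h <;> nlinarith

/-! ### Soundness -/

theorem PGn_sound {v : ℕ × ℕ → ℝ} (hh : v (0, 2) ≤ 1 / 2) {t : ℕ} {i j k l : Lit}
    (h : ∀ c ∈ PGn t i j k l, WHolds v c) : W v i * W v j + 8 * W v l ≤ W v k := by
  unfold PGn at h
  simp only [List.forall_mem_cons, avgLt_wiff, prodLt_wiff] at h
  obtain ⟨h1, h2, h3, h4, h5, h6, -⟩ := h
  have h0 : W v halfLo ≤ 0 := by unfold W lval halfLo; simp; linarith
  linarith

theorem AGn_sound {v : ℕ × ℕ → ℝ} (hh : v (0, 2) ≤ 1 / 2) {t : ℕ} {i j k l : Lit}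
    (h : ∀ c ∈ AGn t i j k l, WHolds v c) : W v k + 4 * W v l ≤ W v i + W v j := by
  unfold AGn at h
  simp only [List.forall_mem_cons, avgLt_wiff, W_neg] at h
  obtain ⟨h1, h2, h3, -⟩ := h
  have h0 : W v halfLo ≤ 0 := by unfold W lval halfLo; simp; linarith
  linarith

/-- The ranges of the constants. -/
structure Cst (v : ℕ × ℕ → ℝ) : Prop where
  hh : 1 / 2 ≤ v (0, 0)
  hl : v (0, 2) ≤ 1 / 2
  kl : v (0, 1) ≤ 9 / 16
  kh : 9 / 16 ≤ v (0, 3)

theorem chainN_sound {v : ℕ × ℕ → ℝ} (hv : Cst v) {K : ℕ}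
    (h : ∀ c ∈ chainN K, WHolds v c) :
    ∀ j ≤ K, 0 ≤ W v (sm j) ∧ W v (sm j) ≤ (1 / 8) ^ 2 ^ j := by
  have h0 : 0 ≤ W v halfHi := by unfold W lval halfHi; simp; linarith [hv.hh]
  have hk' : W v kapLo ≤ 1 / 8 := by unfold W lval kapLo; simp; linarith [hv.kl]
  unfold chainN at h
  rw [List.forall_mem_cons, List.forall_mem_append] at h
  obtain ⟨h1, h2, h3⟩ := h
  rw [avgLt_wiff] at h1
  have hpos : ∀ j ≤ K, 0 ≤ W v (sm j) := by
    intro j hj
    have := h2 _ (List.mem_map.2 ⟨j, List.mem_range.2 (by omega), rfl⟩)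
    rw [avgLt_wiff] at this
    linarith
  intro j
  induction j with
  | zero =>
    intro hj
    refine ⟨hpos 0 hj, ?_⟩
    simp only [pow_zero, pow_one]
    linarith
  | succ j ih =>
    intro hj
    refine ⟨hpos _ hj, ?_⟩
    obtain ⟨i1, i2⟩ := ih (by omega)
    have h4 := PGn_sound hv.hl (fun c hc => h3 c (List.mem_flatMap.2
      ⟨j, List.mem_range.2 (by omega), hc⟩))
    rw [W_neg, W_neg] at h4
    have h5 : (1 / 8 : ℝ) ^ 2 ^ (j + 1) = (1 / 8) ^ 2 ^ j * (1 / 8) ^ 2 ^ j := by
      rw [← pow_add]; congr 1; ring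
    rw [h5]
    have h6 := mul_le_mul i2 i2 i1 (by positivity)
    linarith

theorem strictNB_sound {S : List ER.Con} {v : ℕ × ℕ → ℝ} (h01 : ∀ x, 0 ≤ v x ∧ v x ≤ 1)
    (hv : Cst v) (h : ∀ c ∈ strictNB S, WHolds v c) :
    ∃ w, ∀ c ∈ S, c.HoldsC (1 / 8) w := by
  unfold strictNB at h
  rw [List.forall_mem_append] at h
  obtain ⟨h1, h2⟩ := h
  set K := gapK S.length with hK
  obtain ⟨hη0, hη1⟩ := chainN_sound hv h1 K le_rfl
  set η := W v (sm K) with hη
  have hkl : W v kapLo ≤ 1 / 8 := by unfold W lval kapLo; simp; linarith [hv.kl]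
  have hkh : 1 / 8 ≤ W v kapHi := by unfold W lval kapHi; simp; linarith [hv.kh]
  have hsmall : 16 * η * 2 ^ 2 ^ gapK S.length ≤ 1 := by
    have e1 : (16 : ℝ) * (1 / 8) ^ 2 ^ K * 2 ^ 2 ^ K = 16 * (1 / 4) ^ 2 ^ K := by
      rw [mul_assoc, ← mul_pow]; norm_num
    have e2 : ((1 : ℝ) / 4) ^ 2 ^ K ≤ (1 / 4) ^ 2 := by
      apply pow_le_pow_of_le_one (by norm_num) (by norm_num)
      have : K = 11 * S.length + 7 := rfl
      calc 2 = 2 ^ 1 := rfl
        _ ≤ 2 ^ K := Nat.pow_le_pow_right (by norm_num) (by omega)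
    calc 16 * η * 2 ^ 2 ^ gapK S.length ≤ 16 * (1 / 8) ^ 2 ^ K * 2 ^ 2 ^ K := by
          rw [← hK]; gcongr
      _ = 16 * (1 / 4) ^ 2 ^ K := e1
      _ ≤ 16 * (1 / 4) ^ 2 := by gcongr
      _ ≤ 1 := by norm_num
  have hlv : ∀ l, 0 ≤ lval v l ∧ lval v l ≤ 1 := by
    intro l
    unfold lval
    have := h01 l.1
    split_ifs <;> constructor <;> linarith
  refine holds_of_approx (S := S) (w := fun i => W v (bv i)) ?_ ?_
  · intro i _
    have := hlv (bv i)
    unfold W
    rw [abs_le]
    constructor <;> linarith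
  · intro c hc
    obtain ⟨s, hs⟩ : ∃ s, (c, s) ∈ S.zipIdx := by
      obtain ⟨s, hs⟩ := List.mem_iff_getElem?.1 hc
      exact ⟨s, List.mem_zipIdx_iff_getElem?.2 hs⟩
    have hmem : ∀ c' ∈ conN K c s, WHolds v c' := fun c' hc' =>
      h2 c' (List.mem_flatMap.2 ⟨(c, s), hs, hc'⟩)
    have key : |c.err (fun i => W v (bv i))| ≤ 16 * η := by
      rw [abs_le]
      cases c with
      | one i =>
        simp only [conN, List.forall_mem_cons, avgLt_wiff, W_neg] at hmem
        obtain ⟨m1, m2, -⟩ := hmem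
        simp only [ER.Con.err]
        constructor <;> linarith
      | add i j k =>
        simp only [conN, List.forall_mem_append] at hmem
        have m1 := AGn_sound hv.hl hmem.1
        have m2 := AGn_sound hv.hl hmem.2
        simp only [W_neg] at m1 m2
        simp only [ER.Con.err]
        constructor <;> linarith
      | mul i j k =>
        simp only [conN, List.forall_mem_append] at hmem
        have m1 := PGn_sound hv.hl hmem.1
        have m2 := PGn_sound hv.hl hmem.2
        simp only [W_neg] at m1 m2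
        simp only [ER.Con.err]
        constructor <;> linarith
    calc |c.err (fun i => W v (bv i))| * 2 ^ 2 ^ gapK S.length
        ≤ 16 * η * 2 ^ 2 ^ gapK S.length := by gcongr
      _ ≤ 1 := hsmall

theorem strictN_sound {S : List ER.Con} {v : ℕ × ℕ → ℝ} (h01 : ∀ x, 0 ≤ v x ∧ v x ≤ 1)
    (hv : Cst v) (h : ∀ c ∈ strictN S, WHolds v c) : Sat S := by
  obtain ⟨w, hw⟩ := strictNB_sound h01 hv h
  exact sat_of_bsys hw

/-! ### Completeness -/

/-- The renaming of the constants. -/
def ren (x : ℕ × ℕ) : ℕ × ℕ := if x = (0, 2) then (0, 0) else if x = (0, 3) then (0, 1) else x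

/-- The renaming of the constants in a literal. -/
def renL (l : Lit) : Lit := (ren l.1, l.2)

/-- The renaming of the constants in a constraint. -/
def renC (c : SCon) : SCon := (c.1, renL c.2.1, renL c.2.2.1, renL c.2.2.2)

theorem renC_avg (n a b : Lit) : renC (avgLt n a b) = avgLt (renL n) (renL a) (renL b) := rfl

theorem renC_prod (a b c : Lit) : renC (prodLt a b c) = prodLt (renL a) (renL b) (renL c) := rfl

theorem renL_neg (a : Lit) : renL (neg a) = neg (renL a) := rfl

theorem ren_of_pos {i j : ℕ} (hi : i ≠ 0) : ren (i, j) = (i, j) := by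
  unfold ren
  rw [if_neg (by simp [hi]), if_neg (by simp [hi])]

theorem renL_bv (i : ℕ) : renL (bv i) = bv i := by
  unfold renL bv; simp only [ren_of_pos one_ne_zero]

theorem renL_sm (i : ℕ) : renL (sm i) = sm i := by
  unfold renL sm; simp only [ren_of_pos two_ne_zero]

theorem PGn_map (t : ℕ) (i j k l : Lit) : (PGn t i j k l).map renC =
    PG t (renL i) (renL j) (renL k) (renL l) := by
  have h : ∀ r, r ≠ 0 → renL ((r, t), true) = ((r, t), true) := fun r hr => by
    unfold renL; simp only [ren_of_pos hr]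
  have hh : renL halfLo = half := rfl
  simp only [PGn, PG, List.map_cons, List.map_nil, renC_avg, renC_prod, h 3 (by norm_num),
    h 4 (by norm_num), h 5 (by norm_num), h 6 (by norm_num), h 7 (by norm_num), hh]

theorem AGn_map (t : ℕ) (i j k l : Lit) : (AGn t i j k l).map renC =
    AG t (renL i) (renL j) (renL k) (renL l) := by
  have h : ∀ r, r ≠ 0 → renL ((r, t), true) = ((r, t), true) := fun r hr => by
    unfold renL; simp only [ren_of_pos hr]
  have hh : renL halfLo = half := rfl
  simp only [AGn, AG, List.map_cons, List.map_nil, renC_avg, h 8 (by norm_num),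
    h 9 (by norm_num), hh, renL_neg]

theorem chainN_map (K : ℕ) : (chainN K).map renC = chainC K := by
  have h1 : renL halfHi = half := rfl
  have h2 : renL kapLo = kap := rfl
  unfold chainN chainC
  simp only [List.map_cons, List.map_append, List.map_map, List.map_flatMap, renC_avg, renL_sm, h2,
    PGn_map, renL_neg, h1]
  congr 2

theorem conN_map (K : ℕ) (c : ER.Con) (s : ℕ) : (conN K c s).map renC = conC K c s := by
  have h1 : renL kapHi = kap := rfl
  have h2 : renL kapLo = kap := rfl
  cases c <;> simp only [conN, conC, List.map_append, List.map_cons, List.map_nil, PGn_map, AGn_map,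
    renC_avg, renL_neg, renL_sm, renL_bv, h1, h2]

theorem strictNB_map (S : List ER.Con) : (strictNB S).map renC = strictB S := by
  unfold strictNB strictB
  rw [List.map_append, chainN_map, List.map_flatMap]
  simp only [conN_map]

theorem strictN_map (S : List ER.Con) : (strictN S).map renC = strict S := strictNB_map _

theorem lval_ren (v : ℕ × ℕ → ℝ) (l : Lit) : lval (fun x => v (ren x)) l = lval v (renL l) := rfl

theorem SHolds_ren (v : ℕ × ℕ → ℝ) (c : SCon) :
    SHolds (fun x => v (ren x)) c ↔ SHolds v (renC c) := Iff.rfl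

theorem mid_ren (v : ℕ × ℕ → ℝ) (c : SCon) :
    mid (fun x => v (ren x)) c ↔ mid v (renC c) := Iff.rfl

theorem lval_close {v v' : ℕ × ℕ → ℝ} {ε : ℝ} (h : ∀ x, |v' x - v x| ≤ ε) (l : Lit) :
    |lval v' l - lval v l| ≤ ε := by
  unfold lval
  split_ifs
  · exact h _
  · have := h l.1
    have e : 1 - v' l.1 - (1 - v l.1) = - (v' l.1 - v l.1) := by ring
    rw [e, abs_neg]
    exact this

theorem lval_range {v : ℕ × ℕ → ℝ} (h : ∀ x, 0 < v x ∧ v x < 1) (l : Lit) :
    0 < lval v l ∧ lval v l < 1 := by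
  unfold lval
  have := h l.1
  split_ifs <;> constructor <;> linarith

/-- Strict constraints survive a small change of the values. -/
theorem perturb {v : ℕ × ℕ → ℝ} (h01 : ∀ x, 0 < v x ∧ v x < 1) : ∀ cs : List SCon,
    (∀ c ∈ cs, SHolds v c ∧ mid v c) → ∃ ε > 0, ∀ v' : ℕ × ℕ → ℝ, (∀ x, |v' x - v x| ≤ ε) →
      ∀ c ∈ cs, SHolds v' c ∧ mid v' c
  | [], _ => ⟨1, one_pos, fun _ _ c hc => by simp at hc⟩
  | c :: cs, h => by
    rw [List.forall_mem_cons] at h
    obtain ⟨ε1, h1, h1'⟩ := perturb h01 cs h.2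
    obtain ⟨hs, hm⟩ := h.1
    have r1 := lval_range h01 c.2.1
    have r2 := lval_range h01 c.2.2.1
    have r3 := lval_range h01 c.2.2.2
    obtain ⟨ε2, h2, h2'⟩ : ∃ ε > 0, ∀ v' : ℕ × ℕ → ℝ, (∀ x, |v' x - v x| ≤ ε) →
        SHolds v' c ∧ mid v' c := by
      unfold SHolds shold mid at *
      set x := lval v c.2.1
      set y := lval v c.2.2.1
      set z := lval v c.2.2.2
      by_cases hk : c.1 = true
      · rw [if_pos hk] at hs
        have hm' := hm hk
        set m := min (5 / 4 - ((1 + y) * x + z)) (min (x - 2 / 5) (3 / 5 - x)) with hmd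
        have m0 : 0 < m := lt_min (by linarith) (lt_min (by linarith) (by linarith))
        have m1 : m ≤ 5 / 4 - ((1 + y) * x + z) := min_le_left _ _
        have m2 : m ≤ x - 2 / 5 := (min_le_right _ _).trans (min_le_left _ _)
        have m3 : m ≤ 3 / 5 - x := (min_le_right _ _).trans (min_le_right _ _)
        refine ⟨m / 6, by positivity, fun v' hv' => ?_⟩
        have a1 := abs_le.1 (lval_close hv' c.2.1)
        have a2 := abs_le.1 (lval_close hv' c.2.2.1)
        have a3 := abs_le.1 (lval_close hv' c.2.2.2)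
        rw [if_pos hk]
        have mle : m ≤ 1 := by linarith
        refine ⟨?_, fun _ => ⟨by linarith [a1.1], by linarith [a1.2]⟩⟩
        have b1 : lval v' c.2.1 ≤ x + m / 6 := by linarith [a1.2]
        have b2 : lval v' c.2.2.1 ≤ y + m / 6 := by linarith [a2.2]
        have b3 : lval v' c.2.2.2 ≤ z + m / 6 := by linarith [a3.2]
        have b4 : 0 ≤ lval v' c.2.1 := by linarith [a1.1]
        have b5 : (1 + lval v' c.2.2.1) * lval v' c.2.1 ≤ (1 + (y + m / 6)) * (x + m / 6) :=
          mul_le_mul (by linarith) b1 b4 (by linarith)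
        have b6 : (1 + (y + m / 6)) * (x + m / 6) ≤ (1 + y) * x + 4 * (m / 6) := by
          have c1 : y * (m / 6) ≤ 1 * (m / 6) :=
            mul_le_mul_of_nonneg_right (by linarith) (by linarith)
          have c2 : x * (m / 6) ≤ 1 * (m / 6) :=
            mul_le_mul_of_nonneg_right (by linarith) (by linarith)
          have c3 : m / 6 * (m / 6) ≤ 1 * (m / 6) :=
            mul_le_mul_of_nonneg_right (by linarith) (by linarith)
          nlinarith
        linarith
      · rw [if_neg hk] at hs
        refine ⟨(2 - (x + z + 2 * y)) / 6, by linarith, fun v' hv' => ?_⟩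
        have a1 := abs_le.1 (lval_close hv' c.2.1)
        have a2 := abs_le.1 (lval_close hv' c.2.2.1)
        have a3 := abs_le.1 (lval_close hv' c.2.2.2)
        rw [if_neg hk]
        refine ⟨?_, fun hk' => (hk hk').elim⟩
        linarith [a1.2, a2.2, a3.2]
    refine ⟨min ε1 ε2, lt_min h1 h2, fun v' hv' => ?_⟩
    rw [List.forall_mem_cons]
    exact ⟨h2' v' fun x => (hv' x).trans (min_le_right _ _),
      h1' v' fun x => (hv' x).trans (min_le_left _ _)⟩

/-- The constants are strictly inside their ranges. -/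
structure CstS (v : ℕ × ℕ → ℝ) : Prop where
  hh : 1 / 2 < v (0, 0)
  hl : v (0, 2) < 1 / 2
  kl : v (0, 1) < 9 / 16
  kh : 9 / 16 < v (0, 3)

theorem strictN_complete {S : List ER.Con} (h : Sat S) :
    ∃ v : ℕ × ℕ → ℝ, (∀ x, 0 < v x ∧ v x < 1) ∧ CstS v ∧
      ∀ c ∈ strictN S, SHolds v c ∧ mid v c := by
  obtain ⟨v, hv, hh, hk, hc⟩ := strict_complete h
  set v0 : ℕ × ℕ → ℝ := fun x => v (ren x) with hv0
  have h01 : ∀ x, 0 < v0 x ∧ v0 x < 1 := fun x => hv _
  have hc0 : ∀ c ∈ strictN S, SHolds v0 c ∧ mid v0 c := by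
    intro c hcm
    have : renC c ∈ strict S := by
      rw [← strictN_map]
      exact List.mem_map.2 ⟨c, hcm, rfl⟩
    have := hc _ this
    rw [hv0, SHolds_ren, mid_ren]
    exact this
  obtain ⟨ε, hε, hp⟩ := perturb h01 _ hc0
  set δ : ℝ := min ε (1 / 16) with hδ
  have hδ0 : 0 < δ := lt_min hε (by norm_num)
  have hδ1 : δ ≤ 1 / 16 := min_le_right _ _
  have e00 : v0 (0, 0) = 1 / 2 := by rw [hv0]; exact hh
  have e02 : v0 (0, 2) = 1 / 2 := by rw [hv0]; exact hh
  have e01 : v0 (0, 1) = 9 / 16 := by rw [hv0]; exact hk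
  have e03 : v0 (0, 3) = 9 / 16 := by rw [hv0]; exact hk
  set v' : ℕ × ℕ → ℝ := fun x => if x = (0, 0) ∨ x = (0, 3) then v0 x + δ else
    if x = (0, 2) ∨ x = (0, 1) then v0 x - δ else v0 x with hv'
  have f00 : v' (0, 0) = 1 / 2 + δ := by rw [hv']; simp [e00]
  have f02 : v' (0, 2) = 1 / 2 - δ := by rw [hv']; simp [e02]
  have f01 : v' (0, 1) = 9 / 16 - δ := by rw [hv']; simp [e01]
  have f03 : v' (0, 3) = 9 / 16 + δ := by rw [hv']; simp [e03]
  refine ⟨v', ?_, ⟨by rw [f00]; linarith, by rw [f02]; linarith, by rw [f01]; linarith,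
    by rw [f03]; linarith⟩, hp v' ?_⟩
  · intro x
    by_cases h1 : x = (0, 0)
    · rw [h1, f00]; constructor <;> linarith
    by_cases h2 : x = (0, 3)
    · rw [h2, f03]; constructor <;> linarith
    by_cases h3 : x = (0, 2)
    · rw [h3, f02]; constructor <;> linarith
    by_cases h4 : x = (0, 1)
    · rw [h4, f01]; constructor <;> linarith
    have : v' x = v0 x := by rw [hv']; simp only [h1, h2, h3, h4, or_self, if_false]
    rw [this]
    exact h01 x
  · intro x
    have : |v' x - v0 x| ≤ δ := by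
      rw [hv']
      simp only
      split_ifs
      · rw [add_sub_cancel_left, abs_of_pos hδ0]
      · rw [sub_sub_cancel_left, abs_neg, abs_of_pos hδ0]
      · rw [sub_self, abs_zero]; exact hδ0.le
    exact this.trans (min_le_left _ _)

end Pool.Agent.H678.SegObs
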