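import Pool.Graph.R_pool_sql_team_seeded_c8625f6e.K4H90.Seg.Net
import Pool.Agent.H678.SegObs.Strict
import Pool.Agent.H678.SegObs.Obst

/-!
# The diagrams of the reduction and their meaning
-/

namespace Pool.Agent.H678.SegObs

open Pool.Agent.K4H90.SegDraw hiding Inst mkSeg
open Pool.Agent.K4H90.SegDraw.Dia (Good)
open Pool.Agent.K4H90.SegDraw.Dat (gk_zero gk_layer gk_last col_cases sw tr lit sw_lt tr_lt
  exists_min oL empty_geo forall_lt_list)

/-- The gadgets. -/
def gadN (k : ℕ) : Gadget :=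
  if k = 0 then plainN else if k = 1 then negN else if k = 2 then swapN else
  if k = 3 then linN else if k = 4 then prodN else emptyG

/-- The obstacles of the gadgets. -/
def obsN (k : ℕ) : List (ℕ × ℕ × ℕ) :=
  if k = 0 then plainNO else if k = 1 then negNO else if k = 2 then swapNO else
  if k = 3 then linNO else if k = 4 then prodNO else []

theorem gadN_ok (k : ℕ) : GadOK (gadN k) := by
  unfold gadN
  split_ifs
  · exact plainN_ok
  · exact negN_ok
  · exact swapN_ok
  · exact linN_ok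
  · exact prodN_ok
  · decide

theorem gadN_num (k : ℕ) : (edgesOf (gadN k)).all
    (fun e => decide (xhi (gadN k) e.1 < xlo (gadN k) e.2)) = true := by
  unfold gadN
  split_ifs <;> decide +kernel

/-- The diagram. -/
def diaN (d : Dat) (sk : ℕ → ℕ) : Dia where
  N := 3 * d.T
  C := d.L + 2
  gad := fun l b => gadN (d.gk l b)
  grp := d.grp
  sk := sk

/-- The obstacles of the diagram. -/
def osN (d : Dat) (l b : ℕ) : List (ℕ × ℕ × ℕ) := obsN (d.gk l b)

variable {d : Dat} {sk : ℕ → ℕ}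

theorem nht0 : ht (gadN 0) = 1 := by decide
theorem nht1 : ht (gadN 1) = 1 := by decide
theorem nht2 : ht (gadN 2) = 2 := by decide
theorem nht3 : ht (gadN 3) = 3 := by decide
theorem nht4 : ht (gadN 4) = 3 := by decide
theorem nht5 : ht (gadN 5) = 0 := by decide

theorem dia_okN (h : d.OK) : (diaN d sk).OK where
  hN := by have := h.hT; simp only [diaN]; omega
  hC := by simp [diaN]
  ok := fun l _ b _ => gadN_ok _
  num := fun l _ b _ => gadN_num _
  fit := by
    intro l hl b hb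
    simp only [diaN] at hl hb ⊢
    rcases col_cases hl with rfl | ⟨i, hi, rfl⟩ | rfl
    · rw [gk_zero]
      split_ifs
      · rw [nht0]; omega
      · rw [nht1]; omega
    · rw [gk_layer hi]
      have := h.hJ i hi
      split_ifs
      · rw [nht2]; omega
      · rw [nht5]; omega
      · rw [nht0]; omega
    · rw [gk_last]
      split_ifs
      · rw [nht4]; omega
      · rw [nht3]; omega
      · rw [nht5]; omega
  sep := by
    intro l hl b b' hbb hb'
    simp only [diaN] at hl hb' ⊢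
    rcases col_cases hl with rfl | ⟨i, hi, rfl⟩ | rfl
    · right
      rw [gk_zero]
      split_ifs
      · rw [nht0]; omega
      · rw [nht1]; omega
    · rw [gk_layer hi, gk_layer hi]
      by_cases h1 : b' = d.J i + 1
      · left
        rw [if_neg (by omega), if_pos h1]
        rfl
      · right
        split_ifs
        · rw [nht2]; omega
        · rw [nht5]; omega
        · rw [nht0]; omega
    · rw [gk_last, gk_last]
      by_cases h1 : b' % 3 = 0
      · right
        split_ifs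
        · rw [nht4]; omega
        · rw [nht3]; omega
        · rw [nht5]; omega
      · left
        rw [if_neg h1]
        rfl
  cov := by
    intro l hl k hk
    simp only [diaN] at hl hk ⊢
    rcases col_cases (by omega : l < d.L + 2) with rfl | ⟨i, hi, rfl⟩ | rfl
    · refine ⟨k, hk, 0, rfl, ?_⟩
      rw [gk_zero]
      split_ifs <;> decide
    · have := h.hJ i hi
      by_cases h1 : k = d.J i
      · refine ⟨k, hk, 0, rfl, ?_⟩
        rw [gk_layer hi, if_pos h1]
        decide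
      · by_cases h2 : k = d.J i + 1
        · refine ⟨d.J i, by omega, 1, h2, ?_⟩
          rw [gk_layer hi, if_pos rfl]
          decide
        · refine ⟨k, hk, 0, rfl, ?_⟩
          rw [gk_layer hi, if_neg h1, if_neg h2]
          decide
    · omega
  last := by
    intro b hb
    simp only [diaN]
    have : d.L + 2 - 1 = d.L + 1 := by omega
    rw [this, gk_last]
    split_ifs <;> decide
  g1 := h.g1
  g2 := h.g2
  g3 := h.g3
  c0 := by
    intro b hb
    simp only [diaN]
    rw [gk_zero]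
    split_ifs <;> decide

theorem obsN_x (k : ℕ) : ∀ ob ∈ obsN k, 1 ≤ ob.1 ∧ ob.1 ≤ 11 ∧ ob.2.1 ≤ ob.2.2 ∧
    ob.2.2 < 192 * ht (gadN k) := by
  unfold obsN gadN
  split_ifs <;> decide

theorem obsN_ne (k : ℕ) : ∀ ob ∈ obsN k, gadN k ≠ emptyG := by
  intro ob hob
  unfold obsN at hob
  unfold gadN
  split_ifs at hob ⊢
  · simp [plainN, emptyG]
  · simp [negN, emptyG]
  · simp [swapN, emptyG]
  · simp [linN, emptyG]
  · simp [prodN, emptyG]
  · simp at hob

theorem osOKN : OsOK (diaN d sk) (osN d) where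
  x := fun l b ob hob => ⟨(obsN_x _ ob hob).1, (obsN_x _ ob hob).2.1⟩
  x0 := by
    intro b ob hob
    unfold osN at hob
    rw [gk_zero] at hob
    have h0 : ∀ ob ∈ obsN 0, 3 ≤ ob.1 ∧ ob.2.2 ≤ 17 := by decide
    have h1 : ∀ ob ∈ obsN 1, 3 ≤ ob.1 ∧ ob.2.2 ≤ 17 := by decide
    split_ifs at hob
    · exact h0 ob hob
    · exact h1 ob hob
  top := fun l b ob hob => (obsN_x _ ob hob).2.2.2
  ne := fun l b ob hob => obsN_ne _ ob hob

/-! ### Configurations -/

/-- The configuration of a cell of given kind, with given values of the left ports; `D` is the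
step. -/
noncomputable def oValN (D : ℝ) (lo : ℕ → ℝ) (k : ℕ) : ℕ → ℝ :=
  if k = 0 then oL [16 - lo 0 - D] else
  if k = 1 then oL [] else
  if k = 2 then oL [16 - lo 0 - D, lo 0 + 2 * D, 16 - (lo 0 + 2 * D) + D,
    (lo 1 + (lo 0 + 2 * D)) / 2 + D, 16 - ((lo 1 + (lo 0 + 2 * D)) / 2 + D) - D,
    (lo 1 + (lo 0 + 2 * D)) / 2 + D + 2 * D, 16 - ((lo 1 + (lo 0 + 2 * D)) / 2 + D) - D,
    16 - lo 1 - 6 * D] else
  if k = 3 then oL [16 - lo 2 - D, lo 2 + 2 * D, 16 - lo 1 - D] else
  oL [16 - lo 0 - D, lo 0 + 2 * D, 16 - lo 1 - D, lo 1 + 2 * D, 16 - lo 2 - D,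
    4 + 2 / (1 - (lo 0 + 3 * D) / 16), 1 - D / 2]

/-- The reference configuration of a cell of given kind. -/
noncomputable def oRefN (k : ℕ) : ℕ → ℝ :=
  if k = 0 then oL [8] else
  if k = 1 then oL [] else
  if k = 2 then oL [8, 8, 8, 9, 8, 7, 9, 8] else
  if k = 3 then oL [8, 8, 9] else
  oL [8, 4, 8, 4, 8, 8, 1 / 2]

/-- Offsets of inner vertices on their open segments. -/
def MemOffN (g : Gadget) (o : ℕ → ℝ) : Prop :=
  ∀ i w, g.1[i]? = some w → (w.2.2.1 ≠ 2 ∧ (ka w.2.2.1 : ℝ) < o i ∧ o i < (kb w.2.2.1 : ℝ)) ∨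
    (w.2.2.1 = 2 ∧ (w.1 : ℝ) < o i ∧ o i < (w.1 : ℝ) + 3)

theorem MemOffN.off {g : Gadget} {o : ℕ → ℝ} (h : MemOffN g o) : OffOK g o := by
  intro i w hw
  have k1 : ∀ k, (0 : ℝ) ≤ (ka k : ℝ) := fun k => Nat.cast_nonneg _
  have k2 : ∀ k, (kb k : ℝ) ≤ 16 := fun k => by
    have : kb k ≤ 16 := by unfold kb; split_ifs <;> omega
    exact_mod_cast this
  rcases h i w hw with ⟨h1, h2, h3⟩ | ⟨h1, h2⟩
  · exact ⟨fun _ => ⟨by linarith [k1 w.2.2.1], by linarith [k2 w.2.2.1]⟩, fun h3 => (h1 h3).elim⟩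
  · exact ⟨fun h3 => (h3 h1).elim, fun _ => h2⟩

theorem geo_refN (k : ℕ) : GeoOK (gadN k) (cfg (gadN k) (fun _ => 8) (fun _ => 8) (oRefN k)) := by
  unfold gadN oRefN
  split_ifs with h0 h1 h2 h3 h4
  · refine plainN_geo (by intros; norm_num) (by intros; norm_num) ?_
    intro i w hw
    have hi : i < 1 := (List.getElem?_eq_some_iff.1 hw).1
    interval_cases i <;> (simp [plainN] at hw; subst hw; norm_num [oL])
  · refine negN_geo (by intros; norm_num) (by intros; norm_num) ?_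
    intro i w hw
    simp [negN] at hw
  · refine swapN_geo (by intros; norm_num) (by intros; norm_num) ?_ ?_ ?_ ?_
    · intro i w hw
      have hi : i < 8 := (List.getElem?_eq_some_iff.1 hw).1
      interval_cases i <;> (simp [swapN] at hw; subst hw; norm_num [oL])
    all_goals norm_num [oL]
  · refine linN_geo (by intros; norm_num) (by intros; norm_num) ?_ ?_
    · intro i w hw
      have hi : i < 3 := (List.getElem?_eq_some_iff.1 hw).1
      interval_cases i <;> (simp [linN] at hw; subst hw; norm_num [oL])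
    all_goals norm_num [oL]
  · refine prodN_geo (by intros; norm_num) (by intros; norm_num) ?_ ?_ ?_ ?_ ?_
    · intro i w hw
      have hi : i < 7 := (List.getElem?_eq_some_iff.1 hw).1
      interval_cases i <;> (simp [prodN] at hw; subst hw; norm_num [oL])
    all_goals norm_num [oL]
  · exact empty_geo _

theorem sec_allN (b : ℕ) (lo ro o : ℕ → ℝ) : ∀ i < (gadN (d.gk 0 b)).1.length,
    3 ≤ (cfg (gadN (d.gk 0 b)) lo ro o (2, i)).1 := by
  have h0 : ∀ i < (gadN 0).1.length, 3 ≤ (cfg (gadN 0) lo ro o (2, i)).1 := by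
    intro i hi
    have hi' : i < 1 := hi
    interval_cases i
    have : gadN 0 = plainN := rfl
    rw [this, plainN_q2_0]
    norm_num
  have h1 : ∀ i < (gadN 1).1.length, 3 ≤ (cfg (gadN 1) lo ro o (2, i)).1 := by
    intro i hi
    have hi' : i < 0 := hi
    omega
  rw [gk_zero]
  split_ifs
  · exact h0
  · exact h1

theorem good_refN : Good (diaN d sk) (fun _ _ => 8) (fun l b => oRefN (d.gk l b)) where
  ht := fun _ _ => by norm_num
  geo := fun l _ b _ => geo_refN (d.gk l b)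
  sec := fun b _ => sec_allN b _ _ _

/-! ### Values -/

theorem nmo0 {D : ℝ} {lo : ℕ → ℝ} (hD : 0 < D) (m0 : 10 * D < lo 0 ∧ lo 0 + 10 * D < 16) :
    MemOffN plainN (oValN D lo 0) := by
  intro i w hw
  have hi : i < 1 := (List.getElem?_eq_some_iff.1 hw).1
  interval_cases i <;> (simp [plainN] at hw; subst hw; simp [oValN, oL, ka, kb]; try (constructor <;> linarith))

theorem nmo1 {D : ℝ} {lo : ℕ → ℝ} : MemOffN negN (oValN D lo 1) := by
  intro i w hw
  simp [negN] at hw

theorem nmo2 {D : ℝ} {lo : ℕ → ℝ} (hD : 0 < D) (m0 : 10 * D < lo 0 ∧ lo 0 + 10 * D < 16)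
    (m1 : 10 * D < lo 1 ∧ lo 1 + 10 * D < 16) : MemOffN swapN (oValN D lo 2) := by
  intro i w hw
  have hi : i < 8 := (List.getElem?_eq_some_iff.1 hw).1
  interval_cases i <;> (simp [swapN] at hw; subst hw; simp [oValN, oL, ka, kb]; try (constructor <;> linarith))

theorem nmo3 {D : ℝ} {lo : ℕ → ℝ} (hD : 0 < D) (m1 : 10 * D < lo 1 ∧ lo 1 + 10 * D < 16)
    (m2 : 10 * D < lo 2 ∧ lo 2 + 10 * D < 16) : MemOffN linN (oValN D lo 3) := by
  intro i w hw
  have hi : i < 3 := (List.getElem?_eq_some_iff.1 hw).1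
  interval_cases i <;> (simp [linN] at hw; subst hw; simp [oValN, oL, ka, kb]; try (constructor <;> linarith))

theorem nmo4 {D : ℝ} {lo : ℕ → ℝ} (hD : 0 < D) (m0 : 10 * D < lo 0 ∧ lo 0 + 10 * D < 16)
    (m1 : 10 * D < lo 1 ∧ lo 1 + 10 * D < 16)
    (m2 : 10 * D < lo 2 ∧ lo 2 + 10 * D < 16)
    (hs : 1 / 3 < (lo 0 + 3 * D) / 16 ∧ (lo 0 + 3 * D) / 16 < 2 / 3) :
    MemOffN prodN (oValN D lo 4) := by
  have hv := Dat.v_range hs.1 hs.2
  intro i w hw
  have hi : i < 7 := (List.getElem?_eq_some_iff.1 hw).1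
  interval_cases i <;> (simp [prodN] at hw; subst hw; simp [oValN, oL, ka, kb]; try (constructor <;> linarith))

theorem fl1 {f : ℕ → ℝ} (h : 0 < f 0 ∧ f 0 < 16) : ∀ i < 1, 0 < f i ∧ f i < 16 := by
  intro i hi
  interval_cases i
  exact h

theorem fl2 {f : ℕ → ℝ} (h : 0 < f 0 ∧ f 0 < 16) (h1 : 0 < f 1 ∧ f 1 < 16) :
    ∀ i < 2, 0 < f i ∧ f i < 16 := by
  intro i hi
  interval_cases i
  · exact h
  · exact h1

theorem fl3 {f : ℕ → ℝ} (h : 0 < f 0 ∧ f 0 < 16) (h1 : 0 < f 1 ∧ f 1 < 16)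
    (h2 : 0 < f 2 ∧ f 2 < 16) : ∀ i < 3, 0 < f i ∧ f i < 16 := by
  intro i hi
  interval_cases i
  · exact h
  · exact h1
  · exact h2

theorem fl0 {f : ℕ → ℝ} : ∀ i < 0, 0 < f i ∧ f i < 16 := by
  intro i hi
  omega

/-- The facts about a cell: geometry and obstacles. -/
def CellOK (g : Gadget) (os : List (ℕ × ℕ × ℕ)) (lo ro o : ℕ → ℝ) : Prop :=
  GeoOK g (cfg g lo ro o) ∧
    ∀ e ∈ edgesOf g, ∀ ob ∈ os, Avoid (cfg g lo ro o e.1) (cfg g lo ro o e.2) ob

theorem xr {g : Gadget} {lo ro o : ℕ → ℝ} (ho : OffOK g o) {r : Ref} (hr : r ∈ refs g) :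
    (xlo g r : ℝ) ≤ (cfg g lo ro o r).1 ∧ (cfg g lo ro o r).1 ≤ (xhi g r : ℝ) := by
  rcases Dia.ref_cases hr with ⟨i, hi, rfl⟩ | ⟨i, hi, rfl⟩ | ⟨i, hi, rfl⟩
  · rw [cfg_lp]; simp [xlo, xhi]
  · rw [cfg_rp]; simp [xlo, xhi]
  · have hw : g.1[i]? = some g.1[i] := List.getElem?_eq_getElem hi
    obtain ⟨-, o2⟩ := ho i _ hw
    rw [cfg_inn lo ro o hw]
    unfold xlo xhi
    simp only [show (2 : ℕ) ≠ 0 by norm_num, show (2 : ℕ) ≠ 1 by norm_num, if_false, hw,
      Option.map_some, Option.getD_some]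
    split_ifs with hk
    · have := o2 hk
      push_cast
      constructor <;> linarith
    · simp

theorem CellOK.mk' {g : Gadget} {os : List (ℕ × ℕ × ℕ)} {lo ro o : ℕ → ℝ} (hg : GadOK g)
    (ho : OffOK g o) (h1 : GeoOK g (cfg g lo ro o))
    {ot : List ((Ref × Ref) × (ℕ × ℕ × ℕ))} (ht : otabB g os ot = true)
    (hh : ∀ p ∈ ot, Avoid (cfg g lo ro o p.1.1) (cfg g lo ro o p.1.2) p.2) :
    CellOK g os lo ro o :=
  ⟨h1, avoid_of_table hg (fun _ hr => xr ho hr) h1.dir ht hh⟩

theorem ngv0 {D : ℝ} {lo ro : ℕ → ℝ} (hD : 0 < D) (m0 : 10 * D < lo 0 ∧ lo 0 + 10 * D < 16)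
    (hr : ro 0 = lo 0 + 10 * D) : CellOK plainN plainNO lo ro (oValN D lo 0) := by
  have hl := fl1 (f := lo) (by constructor <;> linarith)
  have hr' := fl1 (f := ro) (by rw [hr]; constructor <;> linarith)
  have ho := (nmo0 hD m0).off
  refine CellOK.mk' plainN_ok ho (plainN_geo hl hr' ho) plainNOT_ok (plainN_avoid hl hr' ho ?_ ?_)
  · simp [oValN, oL]; linarith
  · simp [oValN, oL]; linarith

theorem ngv1 {D : ℝ} {lo ro : ℕ → ℝ} (hD : 0 < D) (m0 : 10 * D < lo 0 ∧ lo 0 + 10 * D < 16)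
    (hr : ro 0 = 16 - lo 0 + 10 * D) : CellOK negN negNO lo ro (oValN D lo 1) := by
  have hl := fl1 (f := lo) (by constructor <;> linarith)
  have hr' := fl1 (f := ro) (by rw [hr]; constructor <;> linarith)
  have ho := (nmo1 (D := D) (lo := lo)).off
  refine CellOK.mk' negN_ok ho (negN_geo hl hr' ho) negNOT_ok (negN_avoid hl hr' ho ?_)
  linarith

theorem ngv2 {D : ℝ} {lo ro : ℕ → ℝ} (hD : 0 < D) (m0 : 10 * D < lo 0 ∧ lo 0 + 10 * D < 16)
    (m1 : 10 * D < lo 1 ∧ lo 1 + 10 * D < 16)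
    (hr0 : ro 0 = lo 1 + 10 * D) (hr1 : ro 1 = lo 0 + 10 * D) :
    CellOK swapN swapNO lo ro (oValN D lo 2) := by
  have hl := fl2 (f := lo) (by constructor <;> linarith) (by constructor <;> linarith)
  have hr' := fl2 (f := ro) (by rw [hr0]; constructor <;> linarith)
    (by rw [hr1]; constructor <;> linarith)
  have ho := (nmo2 hD m0 m1).off
  refine CellOK.mk' swapN_ok ho (swapN_geo hl hr' ho ?_ ?_ ?_) swapNOT_ok
    (swapN_avoid hl hr' ho ?_ ?_ ?_ ?_ ?_ ?_ ?_)
  all_goals (simp [oValN, oL]; linarith)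

theorem ngv3 {D : ℝ} {lo ro : ℕ → ℝ} (hD : 0 < D) (m0 : 10 * D < lo 0 ∧ lo 0 + 10 * D < 16)
    (m1 : 10 * D < lo 1 ∧ lo 1 + 10 * D < 16) (m2 : 10 * D < lo 2 ∧ lo 2 + 10 * D < 16)
    (hc : lo 0 + lo 2 + 2 * lo 1 + 4 * D < 32) :
    CellOK linN linNO lo ro (oValN D lo 3) := by
  have hl := fl3 (f := lo) (by constructor <;> linarith) (by constructor <;> linarith)
    (by constructor <;> linarith)
  have ho := (nmo3 hD m1 m2).off
  refine CellOK.mk' linN_ok ho (linN_geo hl fl0 ho ?_) linNOT_ok (linN_avoid hl fl0 ho ?_ ?_ ?_)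
  all_goals (simp [oValN, oL]; linarith)

theorem ngv4 {D : ℝ} {lo ro : ℕ → ℝ} (hD : 0 < D) (m0 : 10 * D < lo 0 ∧ lo 0 + 10 * D < 16)
    (m1 : 10 * D < lo 1 ∧ lo 1 + 10 * D < 16) (m2 : 10 * D < lo 2 ∧ lo 2 + 10 * D < 16)
    (hs : 1 / 3 < (lo 0 + 3 * D) / 16 ∧ (lo 0 + 3 * D) / 16 < 2 / 3)
    (hc : (16 + lo 1 + 2 * D) * ((lo 0 + 3 * D) / 16) < 20 - lo 2 - D) :
    CellOK prodN prodNO lo ro (oValN D lo 4) := by
  have hl := fl3 (f := lo) (by constructor <;> linarith) (by constructor <;> linarith)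
    (by constructor <;> linarith)
  have ho := (nmo4 hD m0 m1 m2 hs).off
  have h1s : 0 < 1 - (lo 0 + 3 * D) / 16 := by linarith [hs.2]
  set s := (lo 0 + 3 * D) / 16 with hsdef
  have h2 : 0 < 2 / (1 - s) := by positivity
  have h3 : 2 / (1 - s) * (1 - s) = 2 := div_mul_cancel₀ _ h1s.ne'
  have e5 : oValN D lo 4 5 = 4 + 2 / (1 - s) := by simp [oValN, oL, hsdef]
  have e3 : oValN D lo 4 3 = lo 1 + 2 * D := by simp [oValN, oL]
  have e4 : oValN D lo 4 4 = 16 - lo 2 - D := by simp [oValN, oL]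
  have e1 : oValN D lo 4 1 = lo 0 + 2 * D := by simp [oValN, oL]
  have e6 : oValN D lo 4 6 = 1 - D / 2 := by simp [oValN, oL]
  have k1 : 4 + 2 / (1 - s) - 6 = 2 / (1 - s) * s := by linarith
  have k2 : 4 + 2 / (1 - s) - 4 = 2 / (1 - s) := by ring
  refine CellOK.mk' prodN_ok ho (prodN_geo hl fl0 ho ?_ ?_ ?_ ?_) prodNOT_ok
    (prodN_avoid hl fl0 ho ?_ ?_ ?_ ?_ ?_)
  · rw [e3, e4, e5, k1, k2]
    have k3 : (16 + (lo 1 + 2 * D)) * (2 / (1 - s) * s) =
      ((16 + lo 1 + 2 * D) * s) * (2 / (1 - s)) := by ring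
    rw [k3]
    apply mul_lt_mul_of_pos_right _ h2
    linarith
  · rw [e1, e5, e6, k1, k2]
    have k3 : (15 + (1 - D / 2)) * (2 / (1 - s) * s) =
      ((16 - D / 2) * s) * (2 / (1 - s)) := by ring
    rw [k3]
    apply mul_lt_mul_of_pos_right _ h2
    have k4 : D / 2 * s < D / 2 * 1 := mul_lt_mul_of_pos_left (by linarith) (by linarith)
    have k5 : 16 * s = lo 0 + 3 * D := by rw [hsdef]; ring
    linarith
  · rw [e6]; linarith
  · rw [e1]; linarith
  all_goals (simp [oValN, oL]; linarith)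

/-! ### Soundness -/

/-- The tests hold in the weak form for given values of the sources. -/
def TestsW (d : Dat) (s : ℕ → ℝ) : Prop :=
  ∀ τ < d.T, whold (d.ks τ) (d.lit s (d.tr d.L (3 * τ))) (d.lit s (d.tr d.L (3 * τ + 1)))
    (d.lit s (d.tr d.L (3 * τ + 2)))

theorem kb_le (k : ℕ) : (kb k : ℝ) ≤ 16 := by
  have : kb k ≤ 16 := by unfold kb; split_ifs <;> omega
  exact_mod_cast this

theorem soundN (h : d.OK) (hk2 : ∀ k, sk k ≠ 2) {cl : Bool} {D : ℕ → ℝ × ℝ}
    (hD : (instN (diaN d sk) (osN d) cl).IsDrawing D)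
    (hm : ∀ e ∈ (instN (diaN d sk) (osN d) cl).verts, D e.1 ∈ e.2.pts)
    (hX : ∀ e ∈ (instN (diaN d sk) (osN d) cl).edges,
      ∀ s ∈ (instN (diaN d sk) (osN d) cl).obstacles, ¬ ProperlyCrosses (D e.1) (D e.2) s) :
    ∃ s : ℕ → ℝ, (∀ k, 0 ≤ s k ∧ s k ≤ 1) ∧
      (∀ k < 3 * d.T, d.grp k = k → (ka (sk k) : ℝ) ≤ 16 * s k ∧ 16 * s k ≤ (kb (sk k) : ℝ)) ∧
      TestsW d s := by
  obtain ⟨t, o, hF⟩ := forcedN (dia_okN h) hD hm hX (by
    intro b hb i w hw h2
    have : ((diaN d sk).gad 0 b) = gadN (d.gk 0 b) := rfl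
    rw [this, gk_zero] at hw
    split_ifs at hw
    · have hw' : plainN.1[i]? = some w := hw
      have hi : i < 1 := (List.getElem?_eq_some_iff.1 hw').1
      interval_cases i <;> (simp [plainN] at hw'; subst hw'; simp at h2)
    · have hw' : negN.1[i]? = some w := hw
      simp [negN] at hw') hk2
  have hN : (diaN d sk).N = 3 * d.T := rfl
  have hC : (diaN d sk).C = d.L + 2 := rfl
  have hr : ∀ k < 3 * d.T, d.grp k = k → (ka (sk k) : ℝ) ≤ t 0 k ∧ t 0 k ≤ (kb (sk k) : ℝ) := by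
    intro k hk hg
    have := hF.ht 0 (by rw [hC]; omega) k hk (fun _ => hg)
    rwa [if_pos rfl] at this
  have hrt : ∀ l < d.L + 2, ∀ k < 3 * d.T, (l = 0 → d.grp k = k) → 0 ≤ t l k ∧ t l k ≤ 16 := by
    intro l hl k hk h0
    have := hF.ht l (by rw [hC]; omega) k hk h0
    have k1 : (0 : ℝ) ≤ (ka (if l = 0 then (diaN d sk).sk k else 0) : ℝ) := Nat.cast_nonneg _
    have k2 := kb_le (if l = 0 then (diaN d sk).sk k else 0)
    constructor <;> linarith [this.1, this.2]
  set s : ℕ → ℝ := fun k => if k < 3 * d.T ∧ d.grp k = k then t 0 k / 16 else 1 / 2 with hsd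
  have hs0 : ∀ k < 3 * d.T, d.grp k = k → s k = t 0 k / 16 := by
    intro k hk hg
    rw [hsd]
    simp only
    rw [if_pos ⟨hk, hg⟩]
  have hsr : ∀ k, 0 ≤ s k ∧ s k ≤ 1 := by
    intro k
    rw [hsd]
    simp only
    split_ifs with h1
    · have := hrt 0 (by omega) k h1.1 (fun _ => h1.2)
      constructor <;> linarith
    · norm_num
  refine ⟨s, hsr, ?_, ?_⟩
  · intro k hk hg
    rw [hs0 k hk hg]
    have := hr k hk hg
    constructor <;> linarith
  -- the signals
  have hlit : ∀ k, 0 ≤ d.lit s k := by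
    intro k
    unfold lit
    have := hsr (d.grp k)
    split_ifs <;> linarith
  have sig : ∀ i ≤ d.L, ∀ k < 3 * d.T, 16 * d.lit s (d.tr i k) ≤ t (i + 1) k := by
    intro i
    induction i with
    | zero =>
      intro _ k hk
      have hsnd := hF.snd 0 (by rw [hC]; omega) k hk
      have e1 : (diaN d sk).gad 0 k = gadN (d.gk 0 k) := rfl
      have e2 : (diaN d sk).hb 0 k = d.grp k := rfl
      have e3 : osN d 0 k = obsN (d.gk 0 k) := rfl
      have hgk : d.grp k < 3 * d.T := lt_of_le_of_lt (h.g1 k) hk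
      have ra := hrt 0 (by omega) _ hgk (fun _ => h.g2 k)
      have rb := hrt 1 (by omega) k hk (fun h => by omega)
      rw [e1, e3, gk_zero, e2] at hsnd
      simp only [tr]
      unfold lit
      rw [hs0 _ hgk (h.g2 k)]
      split_ifs with h1
      · rw [if_pos h1] at hsnd
        have := plainN_snd (show SndN plainN plainNO _ _ _ from hsnd) (by simpa using ra)
          (by simpa using rb)
        simp only [add_zero, zero_add] at this ⊢
        linarith
      · rw [if_neg h1] at hsnd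
        have := negN_snd (show SndN negN negNO _ _ _ from hsnd) (by simpa using ra)
          (by simpa using rb)
        simp only [add_zero, zero_add] at this ⊢
        linarith
    | succ i ih =>
      intro hi k hk
      have ih' := ih (by omega)
      have hJ := h.hJ i (by omega)
      simp only [tr]
      have hb1 : ∀ b, (diaN d sk).hb (i + 1) b = b := fun b => Dia.hb_pos (by omega) b
      have h1 := ih' (sw (d.J i) k) (sw_lt hJ hk)
      refine le_trans h1 ?_
      have rg : ∀ l k, 0 < l → l < d.L + 2 → k < 3 * d.T → 0 ≤ t l k ∧ t l k ≤ 16 :=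
        fun l k h0 hl hk => hrt l hl k hk (fun h => by omega)
      by_cases hk12 : k = d.J i ∨ k = d.J i + 1
      · have hsnd := hF.snd (i + 1) (by rw [hC]; omega) (d.J i) (by rw [hN]; omega)
        have e1 : (diaN d sk).gad (i + 1) (d.J i) = gadN (d.gk (i + 1) (d.J i)) := rfl
        have e3 : osN d (i + 1) (d.J i) = obsN (d.gk (i + 1) (d.J i)) := rfl
        rw [e1, e3, gk_layer (by omega), if_pos rfl, hb1] at hsnd
        have := swapN_snd (show SndN swapN swapNO _ _ _ from hsnd)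
          (rg _ _ (by omega) (by omega) (by omega)) (rg _ _ (by omega) (by omega) (by omega))
          (rg _ _ (by omega) (by omega) (by omega)) (rg _ _ (by omega) (by omega) (by omega))
        simp only [add_zero] at this
        rcases hk12 with hk1 | hk2
        · unfold sw
          rw [if_pos hk1, hk1]
          exact this.2.le
        · unfold sw
          rw [if_neg (by omega), if_pos hk2, hk2]
          exact this.1.le
      · rw [not_or] at hk12
        have hsnd := hF.snd (i + 1) (by rw [hC]; omega) k hk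
        have e1 : (diaN d sk).gad (i + 1) k = gadN (d.gk (i + 1) k) := rfl
        have e3 : osN d (i + 1) k = obsN (d.gk (i + 1) k) := rfl
        rw [e1, e3, gk_layer (by omega), if_neg hk12.1, if_neg hk12.2, hb1] at hsnd
        have := plainN_snd (show SndN plainN plainNO _ _ _ from hsnd)
          (rg _ _ (by omega) (by omega) (by omega)) (rg _ _ (by omega) (by omega) (by omega))
        simp only [add_zero] at this
        unfold sw
        rw [if_neg hk12.1, if_neg hk12.2]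
        exact this
  intro τ hτ
  have s0 := sig d.L le_rfl (3 * τ) (by omega)
  have s1 := sig d.L le_rfl (3 * τ + 1) (by omega)
  have s2 := sig d.L le_rfl (3 * τ + 2) (by omega)
  have p0 := hlit (d.tr d.L (3 * τ))
  have p1 := hlit (d.tr d.L (3 * τ + 1))
  have hsnd := hF.snd (d.L + 1) (by rw [hC]; omega) (3 * τ) (by rw [hN]; omega)
  have e1 : (diaN d sk).gad (d.L + 1) (3 * τ) = gadN (d.gk (d.L + 1) (3 * τ)) := rfl
  have e3' : osN d (d.L + 1) (3 * τ) = obsN (d.gk (d.L + 1) (3 * τ)) := rfl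
  have hb1 : (diaN d sk).hb (d.L + 1) (3 * τ) = 3 * τ := Dia.hb_pos (by omega) _
  have e3 : 3 * τ / 3 = τ := by omega
  rw [e1, e3', gk_last, if_pos (by omega), hb1, e3] at hsnd
  have r0 := hrt (d.L + 1) (by omega) (3 * τ) (by omega) (fun h => by omega)
  have r1 := hrt (d.L + 1) (by omega) (3 * τ + 1) (by omega) (fun h => by omega)
  have r2 := hrt (d.L + 1) (by omega) (3 * τ + 2) (by omega) (fun h => by omega)
  unfold whold
  split_ifs with hk
  · rw [if_pos hk] at hsnd
    have := prodN_snd (show SndN prodN prodNO _ _ _ from hsnd) r0 r1 r2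
    simp only [add_zero] at this
    have k1 : (1 + d.lit s (d.tr d.L (3 * τ + 1))) * d.lit s (d.tr d.L (3 * τ)) * 256 ≤
        (16 + t (d.L + 1) (3 * τ + 1)) * t (d.L + 1) (3 * τ) := by
      calc (1 + d.lit s (d.tr d.L (3 * τ + 1))) * d.lit s (d.tr d.L (3 * τ)) * 256
          = (16 + 16 * d.lit s (d.tr d.L (3 * τ + 1))) * (16 * d.lit s (d.tr d.L (3 * τ))) := by
            ring
        _ ≤ _ := mul_le_mul (by linarith) s0 (by linarith) (by linarith)
    linarith
  · rw [if_neg hk] at hsnd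
    have := linN_snd (show SndN linN linNO _ _ _ from hsnd) r0 r1 r2
    simp only [add_zero] at this
    linarith

end Pool.Agent.H678.SegObs
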